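import Pool.Agent.Lib.MP_a7b2aa_an.SBD.Stmts30

/-!
SBD, module ALF (helper74): the biases of a law.
-/

set_option autoImplicit false

namespace Pool.Agent.SBD

open Finset Pool.Agent.SB3 Pool.Agent.SBT

namespace A74

theorem pre_pre {L : ℕ} (p p' : ℕ) (h : p ≤ p') (y y' : Y L) (hy : pre p' y = pre p' y') :
    pre p y = pre p y' := by
  funext i
  have h1 := congrFun hy i
  simp only [pre] at h1 ⊢
  by_cases hi : (i : ℕ) < p
  · rw [if_pos hi, if_pos hi]
    rw [if_pos (lt_of_lt_of_le hi h), if_pos (lt_of_lt_of_le hi h)] at h1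
    exact h1
  · rw [if_neg hi, if_neg hi]

theorem bit_pre {L : ℕ} (t p : ℕ) (h : t < p) (y y' : Y L) (hy : pre p y = pre p y') :
    bit y t = bit y' t := by
  unfold bit
  by_cases ht : t < L
  · rw [dif_pos ht, dif_pos ht]
    have h1 := congrFun hy ⟨t, ht⟩
    simp only [pre] at h1
    rw [if_pos h, if_pos h] at h1
    exact h1
  · rw [dif_neg ht, dif_neg ht]

theorem cl_mono {m L : ℕ} {q q' : Fin (m + 1) → ℕ} (h : ∀ a, q a ≤ q' a) {ω' ω : Pt m L}
    (hc : cl q' ω' ω) : cl q ω' ω := fun a => pre_pre (q a) (q' a) (h a) _ _ (hc a)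

theorem Ms_mono {m L : ℕ} {β : Type} {q q' : Fin (m + 1) → ℕ} (h : ∀ a, q a ≤ q' a)
    {φ : Pt m L → β} (hφ : Ms q φ) : Ms q' φ := fun ω ω' hc => hφ ω ω' (cl_mono h hc)

theorem one_le {m L : ℕ} (a : Fin (m + 1)) {t t' : ℕ} (h : t ≤ t') :
    ∀ b, one L a t b ≤ one L a t' b := by
  intro b
  unfold one
  by_cases hb : b = a
  · subst hb; simpa using h
  · rw [Function.update_of_ne hb, Function.update_of_ne hb]

theorem sb_ms {m L : ℕ} (a : Fin (m + 1)) {t t' : ℕ} (h : t < t') :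
    Ms (one L a t') (sb (L := L) a t) := by
  intro ω ω' hc
  have h1 := hc a
  simp only [one, Function.update_self] at h1
  unfold sb
  rw [bit_pre t t' h _ _ h1]

theorem sb_sq {m L : ℕ} (a : Fin (m + 1)) (t : ℕ) (ω : Pt m L) : sb a t ω ^ 2 = 1 := by
  unfold sb sgr
  split <;> norm_num

theorem sb_abs {m L : ℕ} (a : Fin (m + 1)) (t : ℕ) (ω : Pt m L) : |sb a t ω| = 1 := by
  unfold sb sgr
  split <;> norm_num

theorem Av_congr {m L : ℕ} {φ ψ : Pt m L → ℝ} (h : ∀ ω, φ ω = ψ ω) : Av φ = Av ψ := by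
  unfold Av
  rw [sum_congr rfl fun ω _ => h ω]

theorem Av_mono {m L : ℕ} {φ ψ : Pt m L → ℝ} (h : ∀ ω, φ ω ≤ ψ ω) : Av φ ≤ Av ψ := by
  unfold Av
  exact div_le_div_of_nonneg_right (sum_le_sum fun ω _ => h ω) (by positivity)

theorem Av_add {m L : ℕ} (φ ψ : Pt m L → ℝ) : Av (fun ω => φ ω + ψ ω) = Av φ + Av ψ := by
  unfold Av
  rw [sum_add_distrib, add_div]

theorem Av_smul {m L : ℕ} (c : ℝ) (φ : Pt m L → ℝ) : Av (fun ω => c * φ ω) = c * Av φ := by
  unfold Av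
  rw [← mul_sum, mul_div_assoc]

theorem Ex_congr {m L : ℕ} {ρ φ ψ : Pt m L → ℝ} (h : ∀ ω, φ ω = ψ ω) : Ex ρ φ = Ex ρ ψ :=
  Av_congr fun ω => by rw [h ω]

theorem Ex_mono {m L : ℕ} {ρ φ ψ : Pt m L → ℝ} (hρ : ∀ ω, 0 ≤ ρ ω) (h : ∀ ω, φ ω ≤ ψ ω) :
    Ex ρ φ ≤ Ex ρ ψ := Av_mono fun ω => mul_le_mul_of_nonneg_left (h ω) (hρ ω)

theorem Ex_add {m L : ℕ} (ρ φ ψ : Pt m L → ℝ) :
    Ex ρ (fun ω => φ ω + ψ ω) = Ex ρ φ + Ex ρ ψ := by
  unfold Ex
  rw [← Av_add]
  exact Av_congr fun ω => by ring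

theorem Ex_smul {m L : ℕ} (ρ : Pt m L → ℝ) (c : ℝ) (φ : Pt m L → ℝ) :
    Ex ρ (fun ω => c * φ ω) = c * Ex ρ φ := by
  unfold Ex
  rw [← Av_smul]
  exact Av_congr fun ω => by ring

theorem Ms_mul {m L : ℕ} {q : Fin (m + 1) → ℕ} {φ ψ : Pt m L → ℝ} (h1 : Ms q φ) (h2 : Ms q ψ) :
    Ms q (fun ω => φ ω * ψ ω) := fun ω ω' hc => by
  show φ ω' * ψ ω' = φ ω * ψ ω
  rw [h1 ω ω' hc, h2 ω ω' hc]

theorem Ms_sub {m L : ℕ} {q : Fin (m + 1) → ℕ} {φ ψ : Pt m L → ℝ} (h1 : Ms q φ) (h2 : Ms q ψ) :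
    Ms q (fun ω => φ ω - ψ ω) := fun ω ω' hc => by
  show φ ω' - ψ ω' = φ ω - ψ ω
  rw [h1 ω ω' hc, h2 ω ω' hc]

end A74

open A74

theorem alf_74 (hE : StEeb) : StAlf := by
  intro m L k ρ hρ
  have hE := hE m L
  have hms : ∀ a t, Ms (one L a t) (al ρ a t) := by
    intro a t ω ω' hc
    unfold al
    rw [hE.ms _ _ ω ω' hc, hE.ms _ ρ ω ω' hc]
  have hle : ∀ a t ω, |EE (one L a t) (fun ω' => ρ ω' * sb a t ω') ω| ≤ EE (one L a t) ρ ω := by
    intro a t ω
    refine (hE.abs _ _ _).trans (hE.mono _ _ _ (fun ω' => ?_) ω)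
    rw [abs_mul, sb_abs, mul_one, abs_of_nonneg (hρ.nonneg ω')]
  have h0 : ∀ a t ω, 0 ≤ EE (one L a t) ρ ω := fun a t ω => (abs_nonneg _).trans (hle a t ω)
  have habs : ∀ a t ω, |al ρ a t ω| ≤ 1 := by
    intro a t ω
    unfold al
    rw [abs_div, abs_of_nonneg (h0 a t ω)]
    exact div_le_one_of_le₀ (hle a t ω) (h0 a t ω)
  have hal : ∀ a t ω, al ρ a t ω * EE (one L a t) ρ ω =
      EE (one L a t) (fun ω' => ρ ω' * sb a t ω') ω := by
    intro a t ω
    by_cases h : EE (one L a t) ρ ω = 0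
    · have := hle a t ω
      rw [h] at this
      rw [h, mul_zero]
      exact (abs_nonpos_iff.mp this).symm
    · unfold al
      rw [div_mul_cancel₀ _ h]
  have hadj : ∀ (q : Fin (m + 1) → ℕ) (φ X : Pt m L → ℝ), Ms q X →
      Av (fun ω => φ ω * X ω) = Av (fun ω => EE q φ ω * X ω) := by
    intro q φ X hX
    rw [← hE.adj]
    exact Av_congr fun ω => by rw [hE.idem q X hX]
  have hex : ∀ a t (X : Pt m L → ℝ), Ms (one L a t) X →
      Ex ρ (fun ω => sb a t ω * X ω) = Ex ρ (fun ω => al ρ a t ω * X ω) := by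
    intro a t X hX
    have e1 : Ex ρ (fun ω => sb a t ω * X ω) =
        Av (fun ω => EE (one L a t) (fun ω' => ρ ω' * sb a t ω') ω * X ω) := by
      rw [← hadj _ _ _ hX]
      exact Av_congr fun ω => by ring
    have e2 : Ex ρ (fun ω => al ρ a t ω * X ω) =
        Av (fun ω => EE (one L a t) ρ ω * (al ρ a t ω * X ω)) := by
      rw [← hadj _ _ _ (Ms_mul (hms a t) hX)]
      rfl
    rw [e1, e2]
    exact Av_congr fun ω => by rw [← hal]; ring
  refine ⟨hms, habs, hex, ?_⟩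
  intro a X hX
  have hmonoM : ∀ {t t' : ℕ}, t ≤ t' → ∀ {φ : Pt m L → ℝ}, Ms (one L a t) φ →
      Ms (one L a t') φ := fun h _ hφ => Ms_mono (one_le a h) hφ
  have key : ∀ n, Ms (one L a n) (fun ω => ∑ t ∈ range n, (sb a t ω - al ρ a t ω) * X t ω) ∧
      Ex ρ (fun ω => (∑ t ∈ range n, (sb a t ω - al ρ a t ω) * X t ω) ^ 2) ≤
        ∑ t ∈ range n, Ex ρ (fun ω => X t ω ^ 2) := by
    intro n
    induction n with
    | zero =>
      constructor
      · intro ω ω' _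
        simp
      · simp [Ex, Av]
    | succ n ih =>
      obtain ⟨ih1, ih2⟩ := ih
      constructor
      · intro ω ω' hc
        show ∑ t ∈ range (n + 1), (sb a t ω' - al ρ a t ω') * X t ω' =
          ∑ t ∈ range (n + 1), (sb a t ω - al ρ a t ω) * X t ω
        refine sum_congr rfl fun t ht => ?_
        have ht' : t < n + 1 := mem_range.mp ht
        rw [sb_ms a ht' ω ω' hc, hmonoM ht'.le (hms a t) ω ω' hc, hmonoM ht'.le (hX t) ω ω' hc]
      · set S : Pt m L → ℝ := fun ω => ∑ t ∈ range n, (sb a t ω - al ρ a t ω) * X t ω with hS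
        have e1 : Ex ρ (fun ω => (∑ t ∈ range (n + 1), (sb a t ω - al ρ a t ω) * X t ω) ^ 2) =
            Ex ρ (fun ω => S ω ^ 2) +
            (2 * (Ex ρ (fun ω => sb a n ω * (S ω * X n ω)) -
              Ex ρ (fun ω => al ρ a n ω * (S ω * X n ω))) +
            (Ex ρ (fun ω => X n ω ^ 2) + Ex ρ (fun ω => al ρ a n ω ^ 2 * X n ω ^ 2) -
              2 * Ex ρ (fun ω => sb a n ω * (al ρ a n ω * X n ω ^ 2)))) := by
          unfold Ex Av
          rw [← sub_div, ← sum_sub_distrib, ← mul_div_assoc, mul_sum, ← add_div, ← sum_add_distrib,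
            ← mul_div_assoc, mul_sum, ← sub_div, ← sum_sub_distrib, ← add_div, ← sum_add_distrib,
            ← add_div, ← sum_add_distrib]
          congr 1
          refine sum_congr rfl fun ω _ => ?_
          have hs := sb_sq a n ω
          beta_reduce
          rw [sum_range_succ]
          have : (sb a n ω - al ρ a n ω) ^ 2 = 1 - 2 * (sb a n ω * al ρ a n ω) + al ρ a n ω ^ 2 := by
            rw [← hs]; ring
          show ρ ω * (S ω + (sb a n ω - al ρ a n ω) * X n ω) ^ 2 = _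
          calc ρ ω * (S ω + (sb a n ω - al ρ a n ω) * X n ω) ^ 2
              = ρ ω * (S ω ^ 2 + 2 * S ω * ((sb a n ω - al ρ a n ω) * X n ω) +
                  (sb a n ω - al ρ a n ω) ^ 2 * X n ω ^ 2) := by ring
            _ = _ := by rw [this]; ring
        have e2 := hex a n (fun ω => S ω * X n ω) (Ms_mul ih1 (hX n))
        have e3 := hex a n (fun ω => al ρ a n ω * X n ω ^ 2)
          (Ms_mul (hms a n) (fun ω ω' hc => by
            show X n ω' ^ 2 = X n ω ^ 2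
            rw [hX n ω ω' hc]))
        have e4 : Ex ρ (fun ω => al ρ a n ω * (al ρ a n ω * X n ω ^ 2)) =
            Ex ρ (fun ω => al ρ a n ω ^ 2 * X n ω ^ 2) := Ex_congr fun ω => by ring
        have e5 : 0 ≤ Ex ρ (fun ω => al ρ a n ω ^ 2 * X n ω ^ 2) := by
          unfold Ex Av
          refine div_nonneg (sum_nonneg fun ω _ => mul_nonneg (hρ.nonneg ω) (by positivity))
            (by positivity)
        rw [e1, e2, e3, e4, sum_range_succ]
        linarith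
  exact (key L).2

end Pool.Agent.SBD
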