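import Pool.Agent.Lib.MP_a7b2aa_an.SBD.Stmts30

/-!
SBD, module AVGD: the integral over the period cube is at most the mean over some translate of the
grid.
-/

set_option autoImplicit false

namespace Pool.Agent.SBD

open Finset MeasureTheory

/-- the period cube -/
def cub33 (d : ℕ) : Set (Fin d → ℝ) :=
  Set.pi Set.univ (fun _ : Fin d => Set.Icc (0 : ℝ) (2 * Real.pi))

theorem cub_split33 {n : ℕ} (j : Fin (n + 1)) (g : (Fin (n + 1) → ℝ) → ℝ) (hg : Continuous g) :
    ∫ x in cub33 (n + 1), g x = ∫ s in Set.Icc (0 : ℝ) (2 * Real.pi),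
      ∫ y in cub33 n, g (j.insertNth s y) := by
  have hv := (volume_preserving_piFinSuccAbove (fun _ : Fin (n + 1) => ℝ) j).symm
  have h1 := hv.setIntegral_preimage_emb (MeasurableEquiv.measurableEmbedding _) g (cub33 (n + 1))
  rw [← h1]
  have h2 : ((MeasurableEquiv.piFinSuccAbove (fun _ : Fin (n + 1) => ℝ) j).symm :
      ℝ × (Fin n → ℝ) → _) ⁻¹' cub33 (n + 1) =
        Set.Icc (0 : ℝ) (2 * Real.pi) ×ˢ cub33 n := by
    ext ⟨s, y⟩
    simp only [cub33, Set.mem_preimage, Set.mem_pi, Set.mem_univ, true_implies, Set.mem_prod]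
    constructor
    · intro h
      refine ⟨?_, fun i => ?_⟩
      · have := h j
        simpa [MeasurableEquiv.piFinSuccAbove, Fin.insertNthEquiv] using this
      · have := h (j.succAbove i)
        simpa [MeasurableEquiv.piFinSuccAbove, Fin.insertNthEquiv] using this
    · rintro ⟨h3, h4⟩ i
      rcases Fin.eq_self_or_eq_succAbove j i with rfl | ⟨i', rfl⟩
      · simpa [MeasurableEquiv.piFinSuccAbove, Fin.insertNthEquiv] using h3
      · simpa [MeasurableEquiv.piFinSuccAbove, Fin.insertNthEquiv] using h4 i'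
  rw [h2]
  have h3 : ∀ p : ℝ × (Fin n → ℝ),
      g ((MeasurableEquiv.piFinSuccAbove (fun _ : Fin (n + 1) => ℝ) j).symm p)
        = g (j.insertNth p.1 p.2) := fun p => rfl
  simp only [h3]
  have hc : Continuous fun p : ℝ × (Fin n → ℝ) => g (j.insertNth p.1 p.2) := by
    refine hg.comp ?_
    refine continuous_pi fun i => ?_
    rcases Fin.eq_self_or_eq_succAbove j i with rfl | ⟨i', rfl⟩
    · simpa using continuous_fst
    · have h5 : Continuous fun p : ℝ × (Fin n → ℝ) => p.2 i' :=
        (continuous_apply i').comp continuous_snd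
      simpa using h5
  have hcomp : IsCompact (Set.Icc (0 : ℝ) (2 * Real.pi) ×ˢ cub33 n) :=
    isCompact_Icc.prod (isCompact_univ_pi fun _ => isCompact_Icc)
  have := setIntegral_prod (μ := volume) (ν := volume)
    (fun p : ℝ × (Fin n → ℝ) => g (j.insertNth p.1 p.2))
    (s := Set.Icc (0 : ℝ) (2 * Real.pi)) (t := cub33 n)
    (hc.continuousOn.integrableOn_compact hcomp)
  rw [← this]
  rfl

theorem update_insertNth33 {n : ℕ} (j : Fin (n + 1)) (s h : ℝ) (y : Fin n → ℝ) :
    Function.update (j.insertNth s y : Fin (n + 1) → ℝ) j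
      ((j.insertNth s y : Fin (n + 1) → ℝ) j + h) = j.insertNth (s + h) y := by
  funext i
  rcases Fin.eq_self_or_eq_succAbove j i with rfl | ⟨i', rfl⟩
  · simp
  · rw [Function.update_of_ne (Fin.succAbove_ne j i')]
    simp

theorem cub_tr33 {n : ℕ} (j : Fin (n + 1)) (h : ℝ) (φ : (Fin (n + 1) → ℝ) → ℝ)
    (hφ : Continuous φ)
    (hp : ∀ x : Fin (n + 1) → ℝ, φ (Function.update x j (x j + 2 * Real.pi)) = φ x) :
    ∫ x in cub33 (n + 1), φ (Function.update x j (x j + h)) = ∫ x in cub33 (n + 1), φ x := by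
  have hc : Continuous fun x : Fin (n + 1) → ℝ => φ (Function.update x j (x j + h)) :=
    hφ.comp (continuous_id.update j ((continuous_apply j).add continuous_const))
  rw [cub_split33 j _ hc, cub_split33 j _ hφ]
  simp only [update_insertNth33]
  set Φ : ℝ → ℝ := fun s => ∫ y in cub33 n, φ (j.insertNth s y) with hΦ
  have hper : Function.Periodic Φ (2 * Real.pi) := by
    intro s
    simp only [hΦ]
    congr 1
    funext y
    rw [← update_insertNth33, hp]
  have hpi : (0 : ℝ) ≤ 2 * Real.pi := by positivity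
  change ∫ s in Set.Icc (0 : ℝ) (2 * Real.pi), Φ (s + h) = ∫ s in Set.Icc (0 : ℝ) (2 * Real.pi), Φ s
  rw [integral_Icc_eq_integral_Ioc, integral_Icc_eq_integral_Ioc,
    ← intervalIntegral.integral_of_le hpi, ← intervalIntegral.integral_of_le hpi,
    intervalIntegral.integral_comp_add_right]
  have := hper.intervalIntegral_add_eq h 0
  rw [zero_add] at this
  rw [zero_add, add_comm (2 * Real.pi) h]
  exact this

theorem cub_tr1_33 {d : ℕ} (j : Fin d) (h : ℝ) (φ : (Fin d → ℝ) → ℝ)
    (hφ : Continuous φ)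
    (hp : ∀ x : Fin d → ℝ, φ (Function.update x j (x j + 2 * Real.pi)) = φ x) :
    ∫ x in cub33 d, φ (Function.update x j (x j + h)) = ∫ x in cub33 d, φ x := by
  cases d with
  | zero => exact j.elim0
  | succ n => exact cub_tr33 j h φ hφ hp

theorem cub_trv33 {d : ℕ} (w : Fin d → ℝ) (φ : (Fin d → ℝ) → ℝ) (hφ : Continuous φ)
    (hp : ∀ (x : Fin d → ℝ) (j : Fin d), φ (Function.update x j (x j + 2 * Real.pi)) = φ x) :
    ∫ x in cub33 d, φ (fun j => x j + w j) = ∫ x in cub33 d, φ x := by
  classical
  have hup : ∀ (j : Fin d) (v : Fin d → ℝ) (x : Fin d → ℝ),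
      φ (fun i => (Function.update x j (x j + 2 * Real.pi)) i + v i) = φ (fun i => x i + v i) := by
    intro j v x
    rw [← hp (fun i => x i + v i) j]
    congr 1
    funext i
    by_cases hi : i = j
    · subst hi; simp; ring
    · simp [Function.update_of_ne hi]
  have hcv : ∀ v : Fin d → ℝ, Continuous fun x : Fin d → ℝ => φ (fun i => x i + v i) := fun v =>
    hφ.comp (continuous_pi fun i => (continuous_apply i).add continuous_const)
  have key : ∀ S : Finset (Fin d), ∫ x in cub33 d, φ (fun i => x i + (if i ∈ S then w i else 0)) =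
      ∫ x in cub33 d, φ x := by
    intro S
    induction S using Finset.induction_on with
    | empty => simp
    | insert j S hj ih =>
      rw [← ih, ← cub_tr1_33 j (w j) (fun x => φ (fun i => x i + (if i ∈ S then w i else 0)))
        (hcv _) (fun x => hup j _ x)]
      congr 1
      funext x
      congr 1
      funext i
      by_cases hi : i = j
      · subst hi; simp [hj]
      · simp [Function.update_of_ne hi, hi]
  have h1 := key Finset.univ
  simpa using h1

theorem avgd_33 : StAvgD := by
  intro d N φ hN hφ hp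
  have hcv : ∀ v : Fin d → ℝ, Continuous fun x : Fin d → ℝ => φ (fun i => x i + v i) := fun v =>
    hφ.comp (continuous_pi fun i => (continuous_apply i).add continuous_const)
  set ψ : (Fin d → ℝ) → ℝ := fun v =>
    ∑ g : Fin d → Fin N, φ (fun j => v j + 2 * Real.pi * (g j : ℕ) / N) with hψ
  have hψc : Continuous ψ := continuous_finsetSum _ fun g _ => hcv _
  have hcomp : IsCompact (cub33 d) := isCompact_univ_pi fun _ => isCompact_Icc
  have hvol : volume (cub33 d) = ENNReal.ofReal (2 * Real.pi) ^ d := by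
    unfold cub33
    rw [volume_pi_pi]
    simp
  have h0 : volume (cub33 d) ≠ 0 := by
    rw [hvol]
    exact pow_ne_zero _ (by rw [Ne, ENNReal.ofReal_eq_zero]; push Not; positivity)
  have h1 : volume (cub33 d) ≠ ⊤ := by
    rw [hvol]
    exact ENNReal.pow_ne_top ENNReal.ofReal_ne_top
  obtain ⟨v, -, hv⟩ := exists_setAverage_le h0 h1 (hψc.continuousOn.integrableOn_compact hcomp)
  refine ⟨v, ?_⟩
  have h2 : ∫ x in cub33 d, ψ x = (N : ℝ) ^ d * ∫ x in cub33 d, φ x := by
    simp only [hψ]
    rw [integral_finsetSum]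
    · rw [sum_congr rfl fun g _ =>
        cub_trv33 (fun j => 2 * Real.pi * (g j : ℕ) / N) φ hφ hp]
      simp
    · intro g _
      exact (hcv _).continuousOn.integrableOn_compact hcomp
  rw [setAverage_eq, h2, smul_eq_mul, measureReal_def, hvol, ENNReal.toReal_pow,
    ENNReal.toReal_ofReal (by positivity)] at hv
  refine le_trans (le_of_eq ?_) hv
  change (1 / (2 * Real.pi)) ^ d * (∫ x in cub33 d, φ x) * (N : ℝ) ^ d = _
  rw [one_div, inv_pow]
  ring

end Pool.Agent.SBD
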