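import Pool.Agent.Lib.MP_a7b2aa_an.SBD.Stmts30
import Pool.Agent.Lib.MP_a7b2aa_an.SBT.Eyb33

/-!
SBD, helper30: base lemmas (the cells `fr`, the calculus of `Ms`, signs).
-/

set_option autoImplicit false

namespace Pool.Agent.SBD

open Finset Pool.Agent.SB3 Pool.Agent.SBT

/-! ### cells -/

theorem mem_fr {m L : ℕ} {U : Finset (Fin (m + 1))} {q r : Fin (m + 1) → ℕ} :
    r ∈ fr L U q ↔ (∀ a ∈ U, r a < L) ∧ ∀ a, a ∉ U → r a = q a := by
  unfold fr
  rw [Fintype.mem_piFinset]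
  constructor
  · intro h
    refine ⟨fun a ha => ?_, fun a ha => ?_⟩
    · have := h a
      rw [if_pos ha] at this
      exact mem_range.1 this
    · have := h a
      rw [if_neg ha] at this
      exact mem_singleton.1 this
  · rintro ⟨h1, h2⟩ a
    by_cases ha : a ∈ U
    · rw [if_pos ha]
      exact mem_range.2 (h1 a ha)
    · rw [if_neg ha]
      exact mem_singleton.2 (h2 a ha)

theorem fr_empty {m L : ℕ} (q : Fin (m + 1) → ℕ) : fr L ∅ q = {q} := by
  ext r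
  rw [mem_fr, mem_singleton]
  constructor
  · rintro ⟨_, h⟩
    funext a
    exact h a (by simp)
  · rintro rfl
    exact ⟨by simp, fun _ _ => rfl⟩

theorem fr_congr {m L : ℕ} {U : Finset (Fin (m + 1))} {q q' : Fin (m + 1) → ℕ}
    (h : ∀ a, a ∉ U → q a = q' a) : fr L U q = fr L U q' := by
  ext r
  rw [mem_fr, mem_fr]
  constructor
  · rintro ⟨h1, h2⟩
    exact ⟨h1, fun a ha => (h2 a ha).trans (h a ha)⟩
  · rintro ⟨h1, h2⟩
    exact ⟨h1, fun a ha => (h2 a ha).trans (h a ha).symm⟩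

/-- Fubini, one coordinate at a time -/
theorem sum_fr_insert {m L : ℕ} {E : Type*} [AddCommMonoid E] {U : Finset (Fin (m + 1))}
    {a : Fin (m + 1)} (ha : a ∉ U) (q : Fin (m + 1) → ℕ) (f : (Fin (m + 1) → ℕ) → E) :
    ∑ r ∈ fr L (insert a U) q, f r =
      ∑ t ∈ range L, ∑ r ∈ fr L U (Function.update q a t), f r := by
  rw [Finset.sum_sigma']
  refine Finset.sum_bij' (fun r _ => (⟨r a, r⟩ : Σ _ : ℕ, (Fin (m + 1) → ℕ)))
    (fun s _ => s.2) ?_ ?_ ?_ ?_ ?_
  · intro r hr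
    rw [mem_fr] at hr
    rw [mem_sigma]
    refine ⟨mem_range.2 (hr.1 a (mem_insert_self a U)), ?_⟩
    rw [mem_fr]
    refine ⟨fun b hb => hr.1 b (mem_insert_of_mem hb), fun b hb => ?_⟩
    by_cases hba : b = a
    · subst hba
      simp
    · simp only [Function.update_of_ne hba]
      exact hr.2 b (by simp [hba, hb])
  · rintro ⟨t, r⟩ hs
    rw [mem_sigma] at hs
    obtain ⟨h1, h2⟩ := hs
    rw [mem_fr] at h2 ⊢
    have h3 : r a = t := by
      have := h2.2 a ha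
      simpa using this
    refine ⟨fun b hb => ?_, fun b hb => ?_⟩
    · show r b < L
      rcases mem_insert.1 hb with h | h
      · rw [h, h3]
        exact mem_range.1 h1
      · exact h2.1 b h
    · rw [mem_insert, not_or] at hb
      have := h2.2 b hb.2
      rwa [Function.update_of_ne hb.1] at this
  · intro r hr
    rfl
  · rintro ⟨t, r⟩ hs
    rw [mem_sigma] at hs
    obtain ⟨h1, h2⟩ := hs
    rw [mem_fr] at h2
    have h3 : r a = t := by
      have := h2.2 a ha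
      simpa using this
    subst h3
    rfl
  · intro r hr
    rfl

/-- Fubini for disjoint sets of coordinates -/
theorem sum_fr_union {m L : ℕ} {E : Type*} [AddCommMonoid E] {U V : Finset (Fin (m + 1))}
    (h : Disjoint U V) (q : Fin (m + 1) → ℕ) (f : (Fin (m + 1) → ℕ) → E) :
    ∑ r ∈ fr L (U ∪ V) q, f r = ∑ s ∈ fr L U q, ∑ r ∈ fr L V s, f r := by
  induction U using Finset.induction_on generalizing q with
  | empty =>
    rw [empty_union, fr_empty, sum_singleton]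
  | insert a U ha ih =>
    rw [disjoint_insert_left] at h
    rw [insert_union, sum_fr_insert (by
      rw [mem_union, not_or]
      exact ⟨ha, h.1⟩), sum_fr_insert ha]
    exact sum_congr rfl fun t _ => ih h.2 _

theorem card_fr {m L : ℕ} (U : Finset (Fin (m + 1))) (q : Fin (m + 1) → ℕ) :
    (fr L U q).card = L ^ U.card := by
  unfold fr
  rw [Fintype.card_piFinset]
  have h1 : ∀ a : Fin (m + 1), (if a ∈ U then range L else {q a}).card =
      if a ∈ U then L else 1 := by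
    intro a
    by_cases ha : a ∈ U
    · simp [ha]
    · simp [ha]
  simp_rw [h1]
  rw [prod_ite]
  simp

theorem mem_Cr {m L : ℕ} (hL : 1 ≤ L) {q : Fin (m + 1) → ℕ} :
    q ∈ Cr m L ↔ (∑ a, q a) + 1 = L := by
  unfold Cr
  rw [Finset.Nat.mem_antidiagonalTuple]
  omega

theorem Cr_lt {m L : ℕ} (hL : 1 ≤ L) {q : Fin (m + 1) → ℕ} (h : q ∈ Cr m L) (a : Fin (m + 1)) :
    q a < L := by
  rw [mem_Cr hL] at h
  have := Finset.single_le_sum (f := q) (fun i _ => Nat.zero_le _) (mem_univ a)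
  omega

/-- a sum over all cells of an array which vanishes off the critical level -/
theorem sum_fr_univ_eq_Cr {m L : ℕ} (hL : 1 ≤ L) (q0 : Fin (m + 1) → ℕ)
    (f : (Fin (m + 1) → ℕ) → ℝ) (hf : ∀ q, (∑ a, q a) + 1 ≠ L → f q = 0) :
    ∑ q ∈ fr L univ q0, f q = ∑ q ∈ Cr m L, f q := by
  symm
  refine sum_subset ?_ ?_
  · intro q hq
    rw [mem_fr]
    exact ⟨fun a _ => Cr_lt hL hq a, fun a ha => absurd (mem_univ a) ha⟩
  · intro q _ hq
    apply hf
    intro h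
    exact hq ((mem_Cr hL).2 h)

theorem card_Cr_le {m L : ℕ} (hL : 1 ≤ L) : (Cr m L).card ≤ L ^ m := by
  have h1 : Set.InjOn (fun q : Fin (m + 1) → ℕ => fun a : Fin m => q a.succ) (Cr m L) := by
    intro q hq r hr h
    have hq' := (mem_Cr hL).1 hq
    have hr' := (mem_Cr hL).1 hr
    rw [Fin.sum_univ_succ] at hq' hr'
    have h2 : ∀ a : Fin m, q a.succ = r a.succ := fun a => congrFun h a
    have h3 : ∑ a : Fin m, q a.succ = ∑ a : Fin m, r a.succ := sum_congr rfl fun a _ => h2 a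
    funext a
    refine Fin.cases ?_ (fun a => h2 a) a
    omega
  have h2 : (Cr m L).card ≤ (Fintype.piFinset (fun _ : Fin m => range L)).card := by
    refine card_le_card_of_injOn _ ?_ h1
    intro q hq
    rw [mem_coe, Fintype.mem_piFinset]
    intro a
    exact mem_range.2 (Cr_lt hL hq _)
  simpa [Fintype.card_piFinset_const] using h2

/-! ### classes and measurability -/

theorem cl_refl {m L : ℕ} (q : Fin (m + 1) → ℕ) (ω : Pt m L) : cl q ω ω := fun _ => rfl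

theorem cl_symm {m L : ℕ} {q : Fin (m + 1) → ℕ} {ω ω' : Pt m L} (h : cl q ω' ω) : cl q ω ω' :=
  fun a => (h a).symm

theorem cl_trans {m L : ℕ} {q : Fin (m + 1) → ℕ} {ω ω' ω'' : Pt m L} (h : cl q ω'' ω')
    (h' : cl q ω' ω) : cl q ω'' ω :=
  fun a => (h a).trans (h' a)

theorem cl_mono {m L : ℕ} {q r : Fin (m + 1) → ℕ} (hqr : ∀ a, q a ≤ r a ∨ L ≤ r a)
    {ω ω' : Pt m L} (h : cl r ω' ω) : cl q ω' ω := by
  intro a
  rcases hqr a with h1 | h1
  · exact pre_mono33 h1 (h a)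
  · rw [pre_top33 h1 (h a)]

theorem cl_one_iff {m L : ℕ} {a : Fin (m + 1)} {t : ℕ} {ω ω' : Pt m L} :
    cl (one L a t) ω' ω ↔ pre t (ω' a) = pre t (ω a) ∧ ∀ b, b ≠ a → ω' b = ω b := by
  unfold cl one
  constructor
  · intro h
    refine ⟨by simpa using h a, fun b hb => ?_⟩
    have := h b
    rw [Function.update_of_ne hb] at this
    exact pre_top33 le_rfl this
  · rintro ⟨h1, h2⟩ b
    by_cases hb : b = a
    · subst hb
      simpa using h1
    · rw [h2 b hb]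

theorem cl_msk_iff {m L : ℕ} {S : Finset (Fin (m + 1))} {q : Fin (m + 1) → ℕ} {ω ω' : Pt m L} :
    cl (msk L S q) ω' ω ↔ (∀ a ∈ S, pre (q a) (ω' a) = pre (q a) (ω a)) ∧
      ∀ a, a ∉ S → ω' a = ω a := by
  unfold cl msk
  constructor
  · intro h
    refine ⟨fun a ha => by simpa [ha] using h a, fun a ha => ?_⟩
    have := h a
    simp only [ha, if_false] at this
    exact pre_top33 le_rfl this
  · rintro ⟨h1, h2⟩ a
    by_cases ha : a ∈ S
    · simpa [ha] using h1 a ha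
    · rw [h2 a ha]

section ms

variable {m L : ℕ} {β : Type}

theorem Ms.mono {q r : Fin (m + 1) → ℕ} {φ : Pt m L → β} (h : Ms q φ)
    (hqr : ∀ a, q a ≤ r a ∨ L ≤ r a) : Ms r φ :=
  fun ω ω' hω => h ω ω' (cl_mono hqr hω)

/-- all strings beyond `one L a (q a)` -/
theorem Ms.one {q : Fin (m + 1) → ℕ} {φ : Pt m L → β} (h : Ms q φ) (a : Fin (m + 1)) (t : ℕ)
    (ht : q a ≤ t) : Ms (SBD.one L a t) φ := by
  refine h.mono fun b => ?_
  by_cases hb : b = a
  · subst hb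
    left
    simpa [SBD.one] using ht
  · right
    simp [SBD.one, Function.update_of_ne hb]

theorem Ms.msk {q : Fin (m + 1) → ℕ} {φ : Pt m L → β} (h : Ms q φ) (S : Finset (Fin (m + 1))) :
    Ms (SBD.msk L S q) φ := by
  refine h.mono fun b => ?_
  by_cases hb : b ∈ S
  · left
    simp [SBD.msk, hb]
  · right
    simp [SBD.msk, hb]

theorem Ms.comp2 {γ δ : Type} {q : Fin (m + 1) → ℕ} {φ : Pt m L → β} {ψ : Pt m L → γ}
    (h : Ms q φ) (h' : Ms q ψ) (F : β → γ → δ) : Ms q (fun ω => F (φ ω) (ψ ω)) := by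
  intro ω ω' hω
  show F (φ ω') (ψ ω') = F (φ ω) (ψ ω)
  rw [h ω ω' hω, h' ω ω' hω]

theorem Ms.comp {γ : Type} {q : Fin (m + 1) → ℕ} {φ : Pt m L → β} (h : Ms q φ) (F : β → γ) :
    Ms q (fun ω => F (φ ω)) := by
  intro ω ω' hω
  show F (φ ω') = F (φ ω)
  rw [h ω ω' hω]

theorem Ms.cst (q : Fin (m + 1) → ℕ) (c : β) : Ms q (fun _ : Pt m L => c) := fun _ _ _ => rfl

theorem Ms.sum {ι : Type} {E : Type} [AddCommMonoid E] {q : Fin (m + 1) → ℕ} (s : Finset ι)
    {φ : ι → Pt m L → E} (h : ∀ i ∈ s, Ms q (φ i)) : Ms q (fun ω => ∑ i ∈ s, φ i ω) :=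
  fun ω ω' hω => sum_congr rfl fun i hi => h i hi ω ω' hω

theorem Ms.prod {ι : Type} {E : Type} [CommMonoid E] {q : Fin (m + 1) → ℕ} (s : Finset ι)
    {φ : ι → Pt m L → E} (h : ∀ i ∈ s, Ms q (φ i)) : Ms q (fun ω => ∏ i ∈ s, φ i ω) :=
  fun ω ω' hω => prod_congr rfl fun i hi => h i hi ω ω' hω

/-- measurable in each string of `S` separately is measurable for `msk` -/
theorem Ms_msk_of_one {S : Finset (Fin (m + 1))} {q : Fin (m + 1) → ℕ} {φ : Pt m L → β}
    (h : ∀ a ∈ S, Ms (SBD.one L a (q a)) φ) : Ms (SBD.msk L S q) φ := by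
  induction S using Finset.induction_on with
  | empty =>
    intro ω ω' hω
    rw [cl_msk_iff] at hω
    have : ω' = ω := funext fun a => hω.2 a (by simp)
    rw [this]
  | insert a S ha ih =>
    intro ω ω' hω
    rw [cl_msk_iff] at hω
    set ω'' : Pt m L := Function.update ω' a (ω a) with h2
    have e1 : φ ω'' = φ ω := by
      refine ih (fun b hb => h b (mem_insert_of_mem hb)) ω ω'' ?_
      rw [cl_msk_iff]
      constructor
      · intro b hb
        have hba : b ≠ a := by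
          rintro rfl
          exact ha hb
        rw [h2, Function.update_of_ne hba]
        exact hω.1 b (mem_insert_of_mem hb)
      · intro b hb
        by_cases hba : b = a
        · subst hba
          rw [h2, Function.update_self]
        · rw [h2, Function.update_of_ne hba]
          exact hω.2 b (by simp [hba, hb])
    have e2 : φ ω'' = φ ω' := by
      refine h a (mem_insert_self a S) ω' ω'' ?_
      rw [cl_one_iff]
      constructor
      · rw [h2, Function.update_self]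
        exact (hω.1 a (mem_insert_self a S)).symm
      · intro b hb
        rw [h2, Function.update_of_ne hb]
    rw [← e2, e1]

end ms

/-! ### signs -/

theorem sgr_sq30 (b : Bool) : sgr b * sgr b = 1 := by
  cases b <;> simp [sgr]

theorem sb_sq {m L : ℕ} (a : Fin (m + 1)) (t : ℕ) (ω : Pt m L) : sb a t ω * sb a t ω = 1 :=
  sgr_sq30 _

theorem sb_abs {m L : ℕ} (a : Fin (m + 1)) (t : ℕ) (ω : Pt m L) : |sb a t ω| = 1 := by
  unfold sb
  cases bit (ω a) t <;> simp [sgr]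

theorem Ms_sb {m L : ℕ} {q : Fin (m + 1) → ℕ} {a : Fin (m + 1)} {t : ℕ} (h : t < q a) :
    Ms q (sb (L := L) a t) := by
  intro ω ω' hω
  unfold sb
  rw [bit_of_pre33 h (hω a)]

theorem Ms_sb_one {m L : ℕ} {a b : Fin (m + 1)} (hab : a ≠ b) (s t : ℕ) :
    Ms (one L b s) (sb (L := L) a t) := by
  intro ω ω' hω
  rw [cl_one_iff] at hω
  unfold sb
  rw [hω.2 a hab]

theorem Ms_sb_msk {m L : ℕ} {S : Finset (Fin (m + 1))} {a : Fin (m + 1)} (ha : a ∉ S)
    (q : Fin (m + 1) → ℕ) (t : ℕ) : Ms (msk L S q) (sb (L := L) a t) := by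
  intro ω ω' hω
  rw [cl_msk_iff] at hω
  unfold sb
  rw [hω.2 a ha]

theorem ps_sq {m L : ℕ} (U : Finset (Fin (m + 1))) (q : Fin (m + 1) → ℕ) (ω : Pt m L) :
    ps U q ω * ps U q ω = 1 := by
  unfold ps
  rw [← prod_mul_distrib]
  exact prod_eq_one fun c _ => sb_sq c (q c) ω

theorem ps_abs {m L : ℕ} (U : Finset (Fin (m + 1))) (q : Fin (m + 1) → ℕ) (ω : Pt m L) :
    |ps U q ω| = 1 := by
  unfold ps
  rw [abs_prod]
  exact prod_eq_one fun c _ => sb_abs c (q c) ω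

theorem ps_insert {m L : ℕ} {U : Finset (Fin (m + 1))} {a : Fin (m + 1)} (ha : a ∉ U)
    (q : Fin (m + 1) → ℕ) (ω : Pt m L) : ps (insert a U) q ω = sb a (q a) ω * ps U q ω := by
  unfold ps
  rw [prod_insert ha]

theorem ps_union {m L : ℕ} {U V : Finset (Fin (m + 1))} (h : Disjoint U V)
    (q : Fin (m + 1) → ℕ) (ω : Pt m L) : ps (U ∪ V) q ω = ps U q ω * ps V q ω := by
  unfold ps
  rw [prod_union h]

theorem ps_congr {m L : ℕ} {U : Finset (Fin (m + 1))} {q r : Fin (m + 1) → ℕ}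
    (h : ∀ a ∈ U, q a = r a) (ω : Pt m L) : ps U q ω = ps U r ω := by
  unfold ps
  exact prod_congr rfl fun c hc => by rw [h c hc]

theorem Ms_ps_one {m L : ℕ} {U : Finset (Fin (m + 1))} {b : Fin (m + 1)} (hb : b ∉ U)
    (q : Fin (m + 1) → ℕ) (s : ℕ) : Ms (one L b s) (ps (L := L) U q) := by
  unfold ps
  refine Ms.prod U fun c hc => Ms_sb_one ?_ _ _
  rintro rfl
  exact hb hc

/-! ### means -/

theorem Av_add {m L : ℕ} (φ ψ : Pt m L → ℝ) : Av (fun ω => φ ω + ψ ω) = Av φ + Av ψ := by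
  unfold Av
  rw [sum_add_distrib, add_div]

theorem Av_sub {m L : ℕ} (φ ψ : Pt m L → ℝ) : Av (fun ω => φ ω - ψ ω) = Av φ - Av ψ := by
  unfold Av
  rw [sum_sub_distrib, sub_div]

theorem Av_smul {m L : ℕ} (c : ℝ) (φ : Pt m L → ℝ) : Av (fun ω => c * φ ω) = c * Av φ := by
  unfold Av
  rw [← mul_sum, mul_div_assoc]

theorem Av_sum {m L : ℕ} {ι : Type*} (s : Finset ι) (φ : ι → Pt m L → ℝ) :
    Av (fun ω => ∑ i ∈ s, φ i ω) = ∑ i ∈ s, Av (φ i) := by
  unfold Av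
  rw [sum_comm, sum_div]

theorem Av_mono {m L : ℕ} {φ ψ : Pt m L → ℝ} (h : ∀ ω, φ ω ≤ ψ ω) : Av φ ≤ Av ψ := by
  unfold Av
  gcongr
  exact h _

theorem card_Pt {m L : ℕ} : Fintype.card (Pt m L) = 2 ^ ((m + 1) * L) := by
  rw [Fintype.card_fun, Fintype.card_fun, Fintype.card_bool, Fintype.card_fin, Fintype.card_fin,
    ← pow_mul, mul_comm]

theorem Av_const {m L : ℕ} (c : ℝ) : Av (fun _ : Pt m L => c) = c := by
  unfold Av
  rw [sum_const, nsmul_eq_mul, card_univ, card_Pt]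
  push_cast
  field_simp

theorem Av_nonneg {m L : ℕ} {φ : Pt m L → ℝ} (h : ∀ ω, 0 ≤ φ ω) : 0 ≤ Av φ := by
  have := Av_mono (φ := fun _ : Pt m L => (0 : ℝ)) h
  rwa [Av_const] at this

section ex

variable {m L : ℕ} {k : ℝ} {ρ : Pt m L → ℝ}

theorem Ex_add (φ ψ : Pt m L → ℝ) : Ex ρ (fun ω => φ ω + ψ ω) = Ex ρ φ + Ex ρ ψ := by
  unfold Ex
  rw [← Av_add]
  congr 1
  funext ω
  ring

theorem Ex_sub (φ ψ : Pt m L → ℝ) : Ex ρ (fun ω => φ ω - ψ ω) = Ex ρ φ - Ex ρ ψ := by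
  unfold Ex
  rw [← Av_sub]
  congr 1
  funext ω
  ring

theorem Ex_smul (c : ℝ) (φ : Pt m L → ℝ) : Ex ρ (fun ω => c * φ ω) = c * Ex ρ φ := by
  unfold Ex
  rw [← Av_smul]
  congr 1
  funext ω
  ring

theorem Ex_sum {ι : Type*} (s : Finset ι) (φ : ι → Pt m L → ℝ) :
    Ex ρ (fun ω => ∑ i ∈ s, φ i ω) = ∑ i ∈ s, Ex ρ (φ i) := by
  unfold Ex
  rw [← Av_sum]
  congr 1
  funext ω
  rw [mul_sum]

theorem Ex_mono (h : Law k ρ) {φ ψ : Pt m L → ℝ} (hφ : ∀ ω, φ ω ≤ ψ ω) : Ex ρ φ ≤ Ex ρ ψ :=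
  Av_mono fun ω => mul_le_mul_of_nonneg_left (hφ ω) (h.nonneg ω)

theorem Ex_const (h : Law k ρ) (c : ℝ) : Ex ρ (fun _ => c) = c := by
  unfold Ex
  have : (fun ω : Pt m L => ρ ω * c) = fun ω => c * ρ ω := by
    funext ω
    ring
  rw [this, Av_smul, h.mean, mul_one]

theorem Ex_nonneg (h : Law k ρ) {φ : Pt m L → ℝ} (hφ : ∀ ω, 0 ≤ φ ω) : 0 ≤ Ex ρ φ :=
  Av_nonneg fun ω => mul_nonneg (h.nonneg ω) (hφ ω)

theorem Ex_abs_le (h : Law k ρ) (φ : Pt m L → ℝ) : |Ex ρ φ| ≤ Ex ρ (fun ω => |φ ω|) := by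
  rw [abs_le]
  constructor
  · have := Ex_mono h (φ := fun ω => (-1) * |φ ω|) (ψ := φ) (fun ω => by
      have := neg_abs_le (φ ω)
      linarith)
    rw [Ex_smul] at this
    linarith
  · exact Ex_mono h fun ω => le_abs_self _

/-- Cauchy-Schwarz -/
theorem Ex_cs (h : Law k ρ) (φ ψ : Pt m L → ℝ) :
    Ex ρ (fun ω => φ ω * ψ ω) ^ 2 ≤ Ex ρ (fun ω => φ ω ^ 2) * Ex ρ (fun ω => ψ ω ^ 2) := by
  have hq : ∀ x : ℝ, 0 ≤ Ex ρ (fun ω => φ ω ^ 2) * (x * x) +
      (2 * Ex ρ (fun ω => φ ω * ψ ω)) * x + Ex ρ (fun ω => ψ ω ^ 2) := by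
    intro x
    have h1 := Ex_nonneg h (φ := fun ω => (x * φ ω + ψ ω) ^ 2) (fun ω => sq_nonneg _)
    have h2 : Ex ρ (fun ω => (x * φ ω + ψ ω) ^ 2) = Ex ρ (fun ω => φ ω ^ 2) * (x * x) +
        (2 * Ex ρ (fun ω => φ ω * ψ ω)) * x + Ex ρ (fun ω => ψ ω ^ 2) := by
      have e : (fun ω => (x * φ ω + ψ ω) ^ 2) = fun ω =>
          ((x * x) * φ ω ^ 2 + (2 * x) * (φ ω * ψ ω)) + ψ ω ^ 2 := by
        funext ω
        ring
      rw [e, Ex_add (φ := fun ω => (x * x) * φ ω ^ 2 + (2 * x) * (φ ω * ψ ω)),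
        Ex_add (φ := fun ω => (x * x) * φ ω ^ 2), Ex_smul, Ex_smul]
      ring
    linarith
  have := discrim_le_zero hq
  unfold discrim at this
  nlinarith

open Classical in
theorem Pr_le_one (h : Law k ρ) (P : Pt m L → Prop) : Pr ρ P ≤ 1 := by
  unfold Pr
  refine (Ex_mono h (ψ := fun _ => 1) fun ω => ?_).trans (Ex_const h 1).le
  split_ifs <;> norm_num

open Classical in
theorem Pr_nonneg (h : Law k ρ) (P : Pt m L → Prop) : 0 ≤ Pr ρ P := by
  unfold Pr
  refine Ex_nonneg h fun ω => ?_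
  split_ifs <;> norm_num

open Classical in
theorem Pr_mono (h : Law k ρ) {P Q : Pt m L → Prop} (hPQ : ∀ ω, P ω → Q ω) : Pr ρ P ≤ Pr ρ Q := by
  unfold Pr
  refine Ex_mono h fun ω => ?_
  by_cases hP : P ω
  · simp [hP, hPQ ω hP]
  · by_cases hQ : Q ω <;> simp [hP, hQ]

open Classical in
theorem Pr_or_le (h : Law k ρ) (P Q : Pt m L → Prop) :
    Pr ρ (fun ω => P ω ∨ Q ω) ≤ Pr ρ P + Pr ρ Q := by
  unfold Pr
  rw [← Ex_add]
  refine Ex_mono h fun ω => ?_
  by_cases hP : P ω <;> by_cases hQ : Q ω <;> simp [hP, hQ]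

open Classical in
/-- union bound -/
theorem Pr_exists_le (h : Law k ρ) (n : ℕ) (P : ℕ → Pt m L → Prop) :
    Pr ρ (fun ω => ∃ t < n, P t ω) ≤ ∑ t ∈ range n, Pr ρ (P t) := by
  unfold Pr
  rw [← Ex_sum]
  refine Ex_mono h fun ω => ?_
  have h0 : ∀ t, 0 ≤ (if P t ω then (1 : ℝ) else 0) := by
    intro t
    by_cases hP : P t ω <;> simp [hP]
  by_cases hP : ∃ t < n, P t ω
  · obtain ⟨t, ht, hP'⟩ := hP
    have h2 := Finset.single_le_sum (f := fun t => if P t ω then (1 : ℝ) else 0)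
      (fun t _ => h0 t) (mem_range.2 ht)
    rw [if_pos hP'] at h2
    refine le_trans ?_ h2
    by_cases hh : ∃ t < n, P t ω <;> simp [hh]
  · simp only [hP, if_false]
    exact sum_nonneg fun t _ => h0 t

open Classical in
/-- Markov's inequality -/
theorem Pr_markov (h : Law k ρ) (φ : Pt m L → ℝ) (hφ : ∀ ω, 0 ≤ φ ω) {b : ℝ} (hb : 0 < b) :
    Pr ρ (fun ω => b < φ ω) ≤ Ex ρ φ / b := by
  rw [le_div_iff₀ hb]
  unfold Pr
  rw [mul_comm, ← Ex_smul]
  refine Ex_mono h fun ω => ?_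
  by_cases hP : b < φ ω
  · simp [hP]
    exact hP.le
  · simp [hP]
    exact hφ ω

end ex

end Pool.Agent.SBD
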