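import Pool.Agent.Lib.MP_a7b2aa_an.SBD.Stmts30

/-!
SBD, module BESS (helper46): Bessel's inequality for the dual vector.
-/

set_option autoImplicit false

namespace Pool.Agent.SBD.Bess46

open Finset Pool.Agent.SB3 Pool.Agent.SBT Pool.Agent.SBD

variable {m L : ℕ}

/-! ### linearity of the means -/

lemma av_add (f g : Pt m L → ℝ) : Av (fun ω => f ω + g ω) = Av f + Av g := by
  simp [Av, Finset.sum_add_distrib, add_div]

lemma av_mul (c : ℝ) (f : Pt m L → ℝ) : Av (fun ω => c * f ω) = c * Av f := by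
  simp only [Av, ← Finset.mul_sum, mul_div_assoc]

lemma av_mono {f g : Pt m L → ℝ} (h : ∀ ω, f ω ≤ g ω) : Av f ≤ Av g := by
  unfold Av
  exact div_le_div_of_nonneg_right (Finset.sum_le_sum fun ω _ => h ω) (by positivity)

lemma av_sum {ι : Type} (s : Finset ι) (f : ι → Pt m L → ℝ) :
    Av (fun ω => ∑ i ∈ s, f i ω) = ∑ i ∈ s, Av (f i) := by
  unfold Av
  rw [Finset.sum_comm, Finset.sum_div]

lemma ex_add (ρ f g : Pt m L → ℝ) : Ex ρ (fun ω => f ω + g ω) = Ex ρ f + Ex ρ g := by
  unfold Ex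
  rw [← av_add]
  congr 1
  funext ω
  ring

lemma ex_mul (ρ : Pt m L → ℝ) (c : ℝ) (f : Pt m L → ℝ) :
    Ex ρ (fun ω => c * f ω) = c * Ex ρ f := by
  unfold Ex
  rw [← av_mul]
  congr 1
  funext ω
  ring

lemma ex_mono {ρ : Pt m L → ℝ} (hρ : ∀ ω, 0 ≤ ρ ω) {f g : Pt m L → ℝ} (h : ∀ ω, f ω ≤ g ω) :
    Ex ρ f ≤ Ex ρ g :=
  av_mono fun ω => mul_le_mul_of_nonneg_left (h ω) (hρ ω)

lemma ex_sum {ι : Type} (ρ : Pt m L → ℝ) (s : Finset ι) (f : ι → Pt m L → ℝ) :
    Ex ρ (fun ω => ∑ i ∈ s, f i ω) = ∑ i ∈ s, Ex ρ (f i) := by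
  unfold Ex
  rw [← av_sum]
  congr 1
  funext ω
  rw [Finset.mul_sum]

lemma ex_nonneg {ρ : Pt m L → ℝ} (hρ : ∀ ω, 0 ≤ ρ ω) {f : Pt m L → ℝ} (h : ∀ ω, 0 ≤ f ω) :
    0 ≤ Ex ρ f := by
  have := ex_mono hρ (f := fun _ => 0) (g := f) h
  have h0 : Ex ρ (fun _ => (0 : ℝ)) = 0 := by simp [Ex, Av]
  linarith

/-! ### sums over `fr` -/

lemma mem_fr {U : Finset (Fin (m + 1))} {q r : Fin (m + 1) → ℕ} :
    r ∈ fr L U q ↔ (∀ a ∈ U, r a < L) ∧ (∀ a, a ∉ U → r a = q a) := by
  unfold fr
  rw [Fintype.mem_piFinset]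
  constructor
  · intro h
    refine ⟨fun a ha => ?_, fun a ha => ?_⟩
    · have := h a
      rw [if_pos ha] at this
      exact mem_range.1 this
    · have := h a
      rw [if_neg ha] at this
      exact mem_singleton.1 this
  · rintro ⟨h1, h2⟩ a
    by_cases ha : a ∈ U
    · rw [if_pos ha]
      exact mem_range.2 (h1 a ha)
    · rw [if_neg ha]
      exact mem_singleton.2 (h2 a ha)

lemma fr_congr {U : Finset (Fin (m + 1))} {q q' : Fin (m + 1) → ℕ}
    (h : ∀ a, a ∉ U → q a = q' a) : fr L U q = fr L U q' := by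
  ext r
  rw [mem_fr, mem_fr]
  constructor
  · rintro ⟨h1, h2⟩
    exact ⟨h1, fun a ha => (h2 a ha).trans (h a ha)⟩
  · rintro ⟨h1, h2⟩
    exact ⟨h1, fun a ha => (h2 a ha).trans (h a ha).symm⟩

lemma sum_fr_erase {U : Finset (Fin (m + 1))} {c : Fin (m + 1)} (hc : c ∈ U)
    (q : Fin (m + 1) → ℕ) (f : (Fin (m + 1) → ℕ) → ℝ) :
    ∑ r ∈ fr L U q, f r =
      ∑ t ∈ range L, ∑ r ∈ fr L (U.erase c) (Function.update q c t), f r := by
  rw [← Finset.sum_fiberwise_of_maps_to (s := fr L U q) (t := range L) (g := fun r => r c)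
    (fun r hr => mem_range.2 ((mem_fr.1 hr).1 c hc))]
  refine Finset.sum_congr rfl fun t ht => ?_
  refine Finset.sum_congr ?_ fun _ _ => rfl
  ext r
  rw [mem_filter, mem_fr, mem_fr]
  constructor
  · rintro ⟨⟨h1, h2⟩, h3⟩
    refine ⟨fun a ha => h1 a (mem_of_mem_erase ha), fun a ha => ?_⟩
    by_cases hac : a = c
    · subst hac
      rw [Function.update_self]
      exact h3
    · rw [Function.update_of_ne hac]
      exact h2 a fun h => ha (mem_erase.2 ⟨hac, h⟩)
  · rintro ⟨h1, h2⟩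
    have h3 : r c = t := by
      have := h2 c (notMem_erase c U)
      rwa [Function.update_self] at this
    refine ⟨⟨fun a ha => ?_, fun a ha => ?_⟩, h3⟩
    · by_cases hac : a = c
      · subst hac
        rw [h3]
        exact mem_range.1 ht
      · exact h1 a (mem_erase.2 ⟨hac, ha⟩)
    · have hac : a ≠ c := fun h => ha (h ▸ hc)
      have := h2 a fun h => ha (mem_of_mem_erase h)
      rwa [Function.update_of_ne hac] at this

lemma sum_fr_free {W : Finset (Fin (m + 1))} {c : Fin (m + 1)} (hc : c ∉ W)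
    (f : (Fin (m + 1) → ℕ) → ℝ) :
    ∑ q ∈ fr L (insert c W) (fun _ => 0), f q =
      ∑ t ∈ range L, ∑ q ∈ fr L W (fun _ => 0), f (Function.update q c t) := by
  rw [sum_fr_erase (mem_insert_self c W), erase_insert hc]
  refine Finset.sum_congr rfl fun t _ => ?_
  refine Finset.sum_bij' (fun r _ => Function.update r c 0) (fun q _ => Function.update q c t)
    ?_ ?_ ?_ ?_ ?_
  · intro r hr
    rw [mem_fr] at hr ⊢
    refine ⟨fun a ha => ?_, fun a ha => ?_⟩
    · have hac : a ≠ c := fun h => hc (h ▸ ha)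
      rw [Function.update_of_ne hac]
      exact hr.1 a ha
    · by_cases hac : a = c
      · subst hac
        rw [Function.update_self]
      · rw [Function.update_of_ne hac]
        have := hr.2 a ha
        rwa [Function.update_of_ne hac] at this
  · intro q hq
    rw [mem_fr] at hq ⊢
    refine ⟨fun a ha => ?_, fun a ha => ?_⟩
    · have hac : a ≠ c := fun h => hc (h ▸ ha)
      rw [Function.update_of_ne hac]
      exact hq.1 a ha
    · by_cases hac : a = c
      · subst hac
        rw [Function.update_self, Function.update_self]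
      · rw [Function.update_of_ne hac, Function.update_of_ne hac]
        exact hq.2 a ha
  · intro r hr
    have h3 : r c = t := by
      have := (mem_fr.1 hr).2 c hc
      rwa [Function.update_self] at this
    simp only [Function.update_idem]
    rw [← h3, Function.update_eq_self]
  · intro q hq
    have h3 : q c = 0 := (mem_fr.1 hq).2 c hc
    simp only [Function.update_idem]
    rw [← h3, Function.update_eq_self]
  · intro r hr
    have h3 : r c = t := by
      have := (mem_fr.1 hr).2 c hc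
      rwa [Function.update_self] at this
    simp only [Function.update_idem]
    rw [← h3, Function.update_eq_self]

lemma card_fr (U : Finset (Fin (m + 1))) (q : Fin (m + 1) → ℕ) :
    (fr L U q).card = L ^ U.card := by
  unfold fr
  rw [Fintype.card_piFinset]
  have h : ∀ a : Fin (m + 1), (if a ∈ U then range L else {q a}).card =
      if a ∈ U then L else 1 := by
    intro a
    by_cases ha : a ∈ U
    · rw [if_pos ha, if_pos ha, card_range]
    · rw [if_neg ha, if_neg ha, card_singleton]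
  rw [Finset.prod_congr rfl fun a _ => h a, Finset.prod_ite_mem, Finset.univ_inter,
    Finset.prod_const]

/-! ### signs -/

lemma abs_sgr (b : Bool) : |sgr b| = 1 := by
  unfold sgr
  cases b <;> simp

lemma abs_ps (U : Finset (Fin (m + 1))) (q : Fin (m + 1) → ℕ) (ω : Pt m L) : |ps U q ω| = 1 := by
  unfold ps
  rw [Finset.abs_prod]
  exact Finset.prod_eq_one fun a _ => abs_sgr _

lemma eq_of_cl {c : Fin (m + 1)} {t : ℕ} {ω ω' : Pt m L} (h : cl (one L c t) ω' ω)
    {a : Fin (m + 1)} (ha : a ≠ c) : ω' a = ω a := by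
  have h1 := h a
  unfold one at h1
  rw [Function.update_of_ne ha] at h1
  have h2 : ∀ y : Y L, pre L y = y := by
    intro y
    funext i
    simp [pre]
  rwa [h2, h2] at h1

/-! ### sums over some strings -/

/-- the sum over the strings in `U` -/
noncomputable def Fs (v : (Fin (m + 1) → ℕ) → Pt m L → ℝ) (U : Finset (Fin (m + 1)))
    (q : Fin (m + 1) → ℕ) (ω : Pt m L) : ℝ :=
  ∑ r ∈ fr L U q, ps U r ω * v r ω

lemma Fs_split {v : (Fin (m + 1) → ℕ) → Pt m L → ℝ} {U : Finset (Fin (m + 1))}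
    {c : Fin (m + 1)} (hc : c ∉ U) (q : Fin (m + 1) → ℕ) (ω : Pt m L) :
    Fs v (insert c U) q ω =
      ∑ t ∈ range L, sb c t ω * Fs v U (Function.update q c t) ω := by
  unfold Fs
  rw [sum_fr_erase (mem_insert_self c U), erase_insert hc]
  refine Finset.sum_congr rfl fun t _ => ?_
  rw [Finset.mul_sum]
  refine Finset.sum_congr rfl fun r hr => ?_
  have h3 : r c = t := by
    have := (mem_fr.1 hr).2 c hc
    rwa [Function.update_self] at this
  unfold ps
  rw [Finset.prod_insert hc, h3]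
  ring

lemma Fs_ms {v : (Fin (m + 1) → ℕ) → Pt m L → ℝ} (hv : Arr v) {U : Finset (Fin (m + 1))}
    {c : Fin (m + 1)} (hc : c ∉ U) (hc0 : c ≠ 0) (q : Fin (m + 1) → ℕ) (t : ℕ) :
    Ms (one L c t) (Fs v U (Function.update q c t)) := by
  intro ω ω' h
  unfold Fs
  refine Finset.sum_congr rfl fun r hr => ?_
  have h3 : r c = t := by
    have := (mem_fr.1 hr).2 c hc
    rwa [Function.update_self] at this
  have h4 : v r ω' = v r ω := by
    have := hv.dep r c hc0 ω ω'
    rw [h3] at this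
    exact this h
  have h5 : ps U r ω' = ps U r ω := by
    unfold ps
    refine Finset.prod_congr rfl fun a ha => ?_
    unfold sb
    rw [eq_of_cl h (fun hac => hc (hac ▸ ha))]
  rw [h4, h5]

lemma Fs_abs {v : (Fin (m + 1) → ℕ) → Pt m L → ℝ} (hv : Arr v) (hL : 1 ≤ L)
    (U : Finset (Fin (m + 1))) (q : Fin (m + 1) → ℕ) (ω : Pt m L) :
    |Fs v U q ω| ≤ (L : ℝ) ^ (m + 1) := by
  unfold Fs
  refine (Finset.abs_sum_le_sum_abs _ _).trans ?_
  have h1 : ∑ r ∈ fr L U q, |ps U r ω * v r ω| ≤ ∑ _r ∈ fr L U q, (1 : ℝ) := by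
    refine Finset.sum_le_sum fun r _ => ?_
    rw [abs_mul, abs_ps, one_mul]
    exact hv.abs r ω
  refine h1.trans ?_
  rw [Finset.sum_const, card_fr, nsmul_eq_mul, mul_one]
  have h2 : U.card ≤ m + 1 := by
    have := Finset.card_le_univ U
    rwa [Fintype.card_fin] at this
  have hL' : (1 : ℝ) ≤ L := by exact_mod_cast hL
  push_cast
  exact pow_le_pow_right₀ hL' h2

/-- energy of these sums -/
noncomputable def EU (ρ : Pt m L → ℝ) (v : (Fin (m + 1) → ℕ) → Pt m L → ℝ)
    (U : Finset (Fin (m + 1))) : ℝ :=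
  ∑ q ∈ fr L (Finset.univ \ U) (fun _ => 0), Ex ρ (fun ω => Fs v U q ω ^ 2)

/-! ### transposition -/

lemma nb_transpose {κ κ' : Type} [Fintype κ] [Fintype κ'] {A : Matrix κ κ' ℝ} {b : ℝ}
    (hb : 0 ≤ b) (h : NB A b) (u : κ → ℝ) :
    ∑ y, (∑ x, A x y * u x) ^ 2 ≤ b * ∑ x, u x ^ 2 := by
  set w : κ' → ℝ := fun y => ∑ x, A x y * u x with hw
  set S : ℝ := ∑ y, w y ^ 2 with hS
  have h1 : S = ∑ x, u x * ∑ y, A x y * w y := by
    rw [hS]
    calc ∑ y, w y ^ 2 = ∑ y, ∑ x, u x * (A x y * w y) := by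
          refine Finset.sum_congr rfl fun y _ => ?_
          rw [sq]
          nth_rewrite 1 [hw]
          rw [Finset.sum_mul]
          refine Finset.sum_congr rfl fun x _ => ?_
          ring
      _ = ∑ x, u x * ∑ y, A x y * w y := by
          rw [Finset.sum_comm]
          refine Finset.sum_congr rfl fun x _ => ?_
          rw [Finset.mul_sum]
  have h2 : S ^ 2 ≤ (∑ x, u x ^ 2) * ∑ x, (∑ y, A x y * w y) ^ 2 := by
    rw [h1]
    exact Finset.sum_mul_sq_le_sq_mul_sq _ _ _
  have h3 : ∑ x, (∑ y, A x y * w y) ^ 2 ≤ b * S := h w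
  have hS0 : 0 ≤ S := Finset.sum_nonneg fun y _ => sq_nonneg _
  have hu0 : 0 ≤ ∑ x, u x ^ 2 := Finset.sum_nonneg fun x _ => sq_nonneg _
  have h4 : S ^ 2 ≤ (∑ x, u x ^ 2) * (b * S) :=
    h2.trans (mul_le_mul_of_nonneg_left h3 hu0)
  change S ≤ b * ∑ x, u x ^ 2
  rcases hS0.eq_or_lt with h0 | h0
  · rw [← h0]
    positivity
  · have : S * S ≤ (b * ∑ x, u x ^ 2) * S := by nlinarith
    exact le_of_mul_le_mul_right this h0

/-! ### the drift part -/

open Classical in
lemma drift {v : (Fin (m + 1) → ℕ) → Pt m L → ℝ} (hv : Arr v) (hL : 1 ≤ L) {k b C : ℝ}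
    {ρ : Pt m L → ℝ} (hρ : Law k ρ) (hA : Alf ρ) (hb : 0 ≤ b)
    {U : Finset (Fin (m + 1))} {c : Fin (m + 1)} (q : Fin (m + 1) → ℕ)
    (hT : Ex ρ (A2 ρ c) ≤ 4 * k)
    (hP : Pr ρ (fun ω => ¬ NB (Matrix.of (fun (x y : Fin L) =>
      Fs v U (Function.update (Function.update q c x) 0 y) ω)) b) ≤
        C / ((L : ℝ) + 1) ^ (2 * m + 5)) :
    ∑ y ∈ range L, Ex ρ (fun ω => (∑ t ∈ range L,
      al ρ c t ω * Fs v U (Function.update (Function.update q c t) 0 y) ω) ^ 2) ≤
      b * (4 * k) + C := by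
  have hLr : (1 : ℝ) ≤ L := by exact_mod_cast hL
  rw [← ex_sum]
  have key : ∀ ω, ∑ y ∈ range L, (∑ t ∈ range L,
      al ρ c t ω * Fs v U (Function.update (Function.update q c t) 0 y) ω) ^ 2 ≤
      b * A2 ρ c ω + (L : ℝ) ^ (2 * m + 5) * (if ¬ NB (Matrix.of (fun (x y : Fin L) =>
        Fs v U (Function.update (Function.update q c x) 0 y) ω)) b then (1 : ℝ) else 0) := by
    intro ω
    have hA2 : 0 ≤ A2 ρ c ω := Finset.sum_nonneg fun t _ => sq_nonneg _
    by_cases hN : NB (Matrix.of (fun (x y : Fin L) =>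
        Fs v U (Function.update (Function.update q c x) 0 y) ω)) b
    · rw [if_neg (not_not.2 hN), mul_zero, add_zero]
      have h1 := nb_transpose hb hN (fun x : Fin L => al ρ c x ω)
      have e1 : ∑ y ∈ range L, (∑ t ∈ range L,
          al ρ c t ω * Fs v U (Function.update (Function.update q c t) 0 y) ω) ^ 2 =
          ∑ y : Fin L, (∑ x : Fin L, (Matrix.of (fun (x y : Fin L) =>
            Fs v U (Function.update (Function.update q c x) 0 y) ω)) x y * al ρ c x ω) ^ 2 := by
        rw [Finset.sum_range]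
        refine Finset.sum_congr rfl fun y _ => ?_
        rw [Finset.sum_range]
        congr 1
        refine Finset.sum_congr rfl fun x _ => ?_
        rw [Matrix.of_apply]
        ring
      have e2 : A2 ρ c ω = ∑ x : Fin L, al ρ c x ω ^ 2 := by
        unfold A2
        rw [Finset.sum_range]
      rw [e1, e2]
      exact h1
    · rw [if_pos hN, mul_one]
      have h1 : ∀ y ∈ range L, (∑ t ∈ range L,
          al ρ c t ω * Fs v U (Function.update (Function.update q c t) 0 y) ω) ^ 2 ≤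
          ((L : ℝ) * (L : ℝ) ^ (m + 1)) ^ 2 := by
        intro y _
        have h2 : |∑ t ∈ range L,
            al ρ c t ω * Fs v U (Function.update (Function.update q c t) 0 y) ω| ≤
            (L : ℝ) * (L : ℝ) ^ (m + 1) := by
          refine (Finset.abs_sum_le_sum_abs _ _).trans ?_
          have h3 : ∑ t ∈ range L, |al ρ c t ω *
              Fs v U (Function.update (Function.update q c t) 0 y) ω| ≤
              ∑ _t ∈ range L, (L : ℝ) ^ (m + 1) := by
            refine Finset.sum_le_sum fun t _ => ?_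
            rw [abs_mul]
            calc |al ρ c t ω| * |Fs v U (Function.update (Function.update q c t) 0 y) ω|
                ≤ 1 * (L : ℝ) ^ (m + 1) :=
                  mul_le_mul (hA.abs c t ω) (Fs_abs hv hL _ _ _) (abs_nonneg _) zero_le_one
              _ = (L : ℝ) ^ (m + 1) := one_mul _
          refine h3.trans ?_
          rw [Finset.sum_const, card_range, nsmul_eq_mul]
        have h4 := abs_le.1 h2
        exact sq_le_sq' h4.1 h4.2
      calc ∑ y ∈ range L, (∑ t ∈ range L,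
          al ρ c t ω * Fs v U (Function.update (Function.update q c t) 0 y) ω) ^ 2
          ≤ ∑ _y ∈ range L, ((L : ℝ) * (L : ℝ) ^ (m + 1)) ^ 2 := Finset.sum_le_sum h1
        _ = (L : ℝ) ^ (2 * m + 5) := by
            rw [Finset.sum_const, card_range, nsmul_eq_mul]
            ring
        _ ≤ b * A2 ρ c ω + (L : ℝ) ^ (2 * m + 5) := by
            have : 0 ≤ b * A2 ρ c ω := mul_nonneg hb hA2
            linarith
  refine (ex_mono hρ.nonneg key).trans ?_
  rw [ex_add, ex_mul, ex_mul]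
  have h5 : (L : ℝ) ^ (2 * m + 5) * (C / ((L : ℝ) + 1) ^ (2 * m + 5)) ≤ C ∨ C < 0 := by
    rcases lt_or_ge C 0 with h | h
    · exact Or.inr h
    · left
      rw [mul_div_assoc']
      rw [div_le_iff₀ (by positivity)]
      have : (L : ℝ) ^ (2 * m + 5) ≤ ((L : ℝ) + 1) ^ (2 * m + 5) :=
        pow_le_pow_left₀ (by positivity) (by linarith) _
      nlinarith
  have hP0 : 0 ≤ Pr ρ (fun ω => ¬ NB (Matrix.of (fun (x y : Fin L) =>
      Fs v U (Function.update (Function.update q c x) 0 y) ω)) b) :=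
    ex_nonneg hρ.nonneg fun ω => by
      dsimp only
      split_ifs <;> norm_num
  have hC : 0 ≤ C := by
    by_contra hneg
    have : C / ((L : ℝ) + 1) ^ (2 * m + 5) < 0 :=
      div_neg_of_neg_of_pos (not_le.1 hneg) (by positivity)
    linarith
  have h6 : (L : ℝ) ^ (2 * m + 5) * (C / ((L : ℝ) + 1) ^ (2 * m + 5)) ≤ C := by
    rcases h5 with h | h
    · exact h
    · linarith
  have h7 : (L : ℝ) ^ (2 * m + 5) * Ex ρ (fun ω => if ¬ NB (Matrix.of (fun (x y : Fin L) =>
      Fs v U (Function.update (Function.update q c x) 0 y) ω)) b then (1 : ℝ) else 0) ≤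
      (L : ℝ) ^ (2 * m + 5) * (C / ((L : ℝ) + 1) ^ (2 * m + 5)) := by
    refine mul_le_mul_of_nonneg_left ?_ (by positivity)
    refine le_trans (le_of_eq ?_) hP
    unfold Pr
    congr 1
    funext ω
    congr 1
  have h8 : b * Ex ρ (A2 ρ c) ≤ b * (4 * k) := mul_le_mul_of_nonneg_left hT hb
  linarith

/-! ### one step -/

lemma step {v : (Fin (m + 1) → ℕ) → Pt m L → ℝ} (hv : Arr v) (hL : 1 ≤ L) {k b C : ℝ}
    {ρ : Pt m L → ℝ} (hρ : Law k ρ) (hA : Alf ρ) (hb : 0 ≤ b)
    {U : Finset (Fin (m + 1))} {c : Fin (m + 1)} (hc : c ∉ U) (hc0 : c ≠ 0)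
    (hU0 : (0 : Fin (m + 1)) ∉ U)
    (hT : Ex ρ (A2 ρ c) ≤ 4 * k)
    (hP : ∀ q : Fin (m + 1) → ℕ, Pr ρ (fun ω => ¬ NB (Matrix.of (fun (x y : Fin L) =>
      Fs v U (Function.update (Function.update q c x) 0 y) ω)) b) ≤
        C / ((L : ℝ) + 1) ^ (2 * m + 5)) :
    EU ρ v (insert c U) ≤ 2 * EU ρ v U +
      2 * ((L : ℝ) ^ (m - (U.card + 1)) * (b * (4 * k) + C)) := by
  have hLr : (1 : ℝ) ≤ L := by exact_mod_cast hL
  set W : Finset (Fin (m + 1)) := Finset.univ \ insert c U with hW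
  have hcW : c ∉ W := by simp [hW]
  have hWc : insert c W = Finset.univ \ U := by
    ext a
    simp only [hW, mem_insert, mem_sdiff, mem_univ, true_and, not_or]
    constructor
    · rintro (h | h)
      · subst h
        exact hc
      · exact h.2
    · intro h
      by_cases hac : a = c
      · exact Or.inl hac
      · exact Or.inr ⟨hac, h⟩
  have h0W : (0 : Fin (m + 1)) ∈ W := by
    simp only [hW, mem_sdiff, mem_univ, mem_insert, true_and, not_or]
    exact ⟨fun h => hc0 h.symm, hU0⟩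
  set W0 : Finset (Fin (m + 1)) := W.erase 0 with hW0
  have h0W0 : (0 : Fin (m + 1)) ∉ W0 := notMem_erase _ _
  have hWW0 : insert 0 W0 = W := insert_erase h0W
  have hcard : W0.card = m - (U.card + 1) := by
    rw [hW0, card_erase_of_mem h0W, hW, card_sdiff_of_subset (subset_univ _), card_univ,
      Fintype.card_fin, card_insert_of_notMem hc]
    omega
  have s1 : ∀ q ∈ fr L W (fun _ => 0), Ex ρ (fun ω => Fs v (insert c U) q ω ^ 2) ≤
      2 * (∑ t ∈ range L, Ex ρ (fun ω => Fs v U (Function.update q c t) ω ^ 2)) +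
      2 * Ex ρ (fun ω => (∑ t ∈ range L, al ρ c t ω * Fs v U (Function.update q c t) ω) ^ 2) := by
    intro q _
    have e1 : Ex ρ (fun ω => Fs v (insert c U) q ω ^ 2) ≤
        Ex ρ (fun ω => 2 * (∑ t ∈ range L,
          (sb c t ω - al ρ c t ω) * Fs v U (Function.update q c t) ω) ^ 2 +
          2 * (∑ t ∈ range L, al ρ c t ω * Fs v U (Function.update q c t) ω) ^ 2) := by
      refine ex_mono hρ.nonneg fun ω => ?_
      rw [Fs_split hc]
      have e2 : ∑ t ∈ range L, sb c t ω * Fs v U (Function.update q c t) ω =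
          ∑ t ∈ range L, (sb c t ω - al ρ c t ω) * Fs v U (Function.update q c t) ω +
          ∑ t ∈ range L, al ρ c t ω * Fs v U (Function.update q c t) ω := by
        rw [← Finset.sum_add_distrib]
        refine Finset.sum_congr rfl fun t _ => ?_
        ring
      rw [e2]
      nlinarith [sq_nonneg (∑ t ∈ range L,
        (sb c t ω - al ρ c t ω) * Fs v U (Function.update q c t) ω -
        ∑ t ∈ range L, al ρ c t ω * Fs v U (Function.update q c t) ω)]
    refine e1.trans ?_
    rw [ex_add, ex_mul, ex_mul]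
    have e3 := hA.orth c (fun t => Fs v U (Function.update q c t)) (fun t => Fs_ms hv hc hc0 q t)
    linarith
  have s2 : EU ρ v (insert c U) ≤ 2 * (∑ q ∈ fr L W (fun _ => 0), ∑ t ∈ range L,
      Ex ρ (fun ω => Fs v U (Function.update q c t) ω ^ 2)) +
      2 * ∑ q ∈ fr L W (fun _ => 0),
        Ex ρ (fun ω => (∑ t ∈ range L, al ρ c t ω * Fs v U (Function.update q c t) ω) ^ 2) := by
    unfold EU
    rw [← hW]
    refine (Finset.sum_le_sum s1).trans (le_of_eq ?_)
    rw [Finset.sum_add_distrib, Finset.mul_sum, Finset.mul_sum]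
  have s3 : ∑ q ∈ fr L W (fun _ => 0), ∑ t ∈ range L,
      Ex ρ (fun ω => Fs v U (Function.update q c t) ω ^ 2) = EU ρ v U := by
    unfold EU
    rw [← hWc, sum_fr_free hcW, Finset.sum_comm]
  have s4 : ∑ q ∈ fr L W (fun _ => 0),
      Ex ρ (fun ω => (∑ t ∈ range L, al ρ c t ω * Fs v U (Function.update q c t) ω) ^ 2) ≤
      (L : ℝ) ^ (m - (U.card + 1)) * (b * (4 * k) + C) := by
    rw [← hWW0, sum_fr_free h0W0, Finset.sum_comm]
    have s5 : ∀ q ∈ fr L W0 (fun _ => 0), ∑ y ∈ range L,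
        Ex ρ (fun ω => (∑ t ∈ range L, al ρ c t ω *
          Fs v U (Function.update (Function.update q 0 y) c t) ω) ^ 2) ≤ b * (4 * k) + C := by
      intro q _
      have := drift hv hL hρ hA hb q hT (hP q)
      refine le_trans (le_of_eq ?_) this
      refine Finset.sum_congr rfl fun y _ => ?_
      congr 1
      funext ω
      congr 1
      refine Finset.sum_congr rfl fun t _ => ?_
      rw [Function.update_comm hc0]
    refine (Finset.sum_le_sum s5).trans ?_
    rw [Finset.sum_const, card_fr, hcard, nsmul_eq_mul]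
    push_cast
    exact le_rfl
  rw [s3] at s2
  linarith

/-! ### the two ends -/

lemma EU_empty {v : (Fin (m + 1) → ℕ) → Pt m L → ℝ} (hv : Arr v) (hL : 1 ≤ L)
    {ρ : Pt m L → ℝ} (hρ : ∀ ω, 0 ≤ ρ ω) :
    EU ρ v ∅ ≤ ∑ q ∈ Cr m L, Ex ρ (fun ω => v q ω ^ 2) := by
  unfold EU
  have e1 : ∀ q ∈ fr L (Finset.univ \ (∅ : Finset (Fin (m + 1)))) (fun _ => 0),
      Ex ρ (fun ω => Fs v ∅ q ω ^ 2) =
        if q ∈ Cr m L then Ex ρ (fun ω => v q ω ^ 2) else 0 := by
    intro q _
    have e2 : ∀ ω, Fs v ∅ q ω = v q ω := by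
      intro ω
      unfold Fs ps
      have : fr L ∅ q = {q} := by
        ext r
        rw [mem_fr, mem_singleton]
        constructor
        · rintro ⟨_, h⟩
          funext a
          exact h a (notMem_empty a)
        · rintro rfl
          exact ⟨fun a ha => absurd ha (notMem_empty a), fun _ _ => rfl⟩
      rw [this, Finset.sum_singleton]
      simp
    simp only [e2]
    by_cases hq : q ∈ Cr m L
    · rw [if_pos hq]
    · rw [if_neg hq]
      have h0 : ∀ ω, v q ω = 0 := fun ω => hv.lev q ω (by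
        intro h
        apply hq
        unfold Cr
        rw [Finset.Nat.mem_antidiagonalTuple]
        omega)
      simp [h0, Ex, Av]
  rw [Finset.sum_congr rfl e1, ← Finset.sum_filter]
  refine Finset.sum_le_sum_of_subset_of_nonneg (fun q hq => (mem_filter.1 hq).2)
    fun q _ _ => ex_nonneg hρ fun ω => sq_nonneg _

lemma EU_full {v : (Fin (m + 1) → ℕ) → Pt m L → ℝ} {ρ : Pt m L → ℝ} :
    EU ρ v (Inn m) = Ex ρ (fun ω => ∑ i ∈ range L, XX v i ω ^ 2) := by
  unfold EU
  have h1 : (Finset.univ : Finset (Fin (m + 1))) \ Inn m = insert 0 ∅ := by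
    ext a
    simp [Inn]
  rw [h1, sum_fr_free (notMem_empty 0), ex_sum]
  refine Finset.sum_congr rfl fun i _ => ?_
  have h2 : fr L (∅ : Finset (Fin (m + 1))) (fun _ => 0) = {fun _ => 0} := by
    ext r
    rw [mem_fr, mem_singleton]
    constructor
    · rintro ⟨_, h⟩
      funext a
      exact h a (notMem_empty a)
    · rintro rfl
      exact ⟨fun a ha => absurd ha (notMem_empty a), fun _ _ => rfl⟩
  rw [h2, Finset.sum_singleton]
  congr 1
  funext ω
  congr 1
  unfold Fs XX
  rw [fr_congr (L := L) (U := Inn m) (q := Function.update (fun _ => 0) 0 i) (q' := fun _ => i)]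
  intro a ha
  have : a = 0 := by
    by_contra h
    exact ha (by simp [Inn, h])
  subst this
  rw [Function.update_self]

end Pool.Agent.SBD.Bess46

namespace Pool.Agent.SBD

open Finset Pool.Agent.SB3 Pool.Agent.SBT Bess46

/-- BESS -/
theorem bess_46 (hAlf : StAlf) (hTail : StTail) (hOp : StOpA) : StBess := by
  intro m ε hm hε
  obtain ⟨C, hC1, hC⟩ := hOp m (2 * m + 5) ε hε
  have hC0 : 0 ≤ C := zero_le_one.trans hC1
  set K : ℝ := 4 * C ^ m + C with hK
  have hK0 : 0 ≤ K := by positivity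
  refine ⟨2 ^ m * (2 * K + 1), ?_, ?_⟩
  · have h1 : (1 : ℝ) ≤ 2 ^ m := one_le_pow₀ (by norm_num)
    nlinarith
  intro L v k ρ hL hk hρ hv
  have hLr : (1 : ℝ) ≤ L := by exact_mod_cast hL
  have hA : Alf ρ := hAlf m L k ρ hρ
  set X : ℝ := (L : ℝ) ^ ε + k with hX
  have hX1 : 1 ≤ X := by
    have : (1 : ℝ) ≤ (L : ℝ) ^ ε := Real.one_le_rpow hLr hε.le
    linarith
  have hkX : k ≤ X := by
    have : (0 : ℝ) ≤ (L : ℝ) ^ ε := by positivity
    linarith
  have hX0 : 0 ≤ X := zero_le_one.trans hX1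
  set P : ℝ := (L : ℝ) ^ (m - 1) * X ^ m with hP
  have hP0 : 0 ≤ P := by positivity
  have numb : ∀ u : ℕ, u + 1 ≤ m →
      (L : ℝ) ^ (m - (u + 1)) * ((C * L * X) ^ u * (4 * k) + C) ≤ K * P := by
    intro u hu
    have e1 : (L : ℝ) ^ (m - (u + 1)) * (L : ℝ) ^ u = (L : ℝ) ^ (m - 1) := by
      rw [← pow_add]
      congr 1
      omega
    have e2 : (L : ℝ) ^ (m - (u + 1)) * ((C * L * X) ^ u * (4 * k)) =
        4 * ((L : ℝ) ^ (m - 1) * (C ^ u * (X ^ u * k))) := by
      rw [← e1, mul_pow, mul_pow]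
      ring
    have e3 : C ^ u ≤ C ^ m := pow_le_pow_right₀ hC1 (by omega)
    have e4 : X ^ u * k ≤ X ^ m :=
      calc X ^ u * k ≤ X ^ u * X := mul_le_mul_of_nonneg_left hkX (by positivity)
        _ = X ^ (u + 1) := (pow_succ X u).symm
        _ ≤ X ^ m := pow_le_pow_right₀ hX1 hu
    have e5 : C ^ u * (X ^ u * k) ≤ C ^ m * X ^ m :=
      mul_le_mul e3 e4 (by positivity) (by positivity)
    have e6 : (L : ℝ) ^ (m - 1) * (C ^ u * (X ^ u * k)) ≤ (L : ℝ) ^ (m - 1) * (C ^ m * X ^ m) :=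
      mul_le_mul_of_nonneg_left e5 (by positivity)
    have e7 : (L : ℝ) ^ (m - (u + 1)) ≤ P := by
      calc (L : ℝ) ^ (m - (u + 1)) ≤ (L : ℝ) ^ (m - 1) := pow_le_pow_right₀ hLr (by omega)
        _ = (L : ℝ) ^ (m - 1) * 1 := (mul_one _).symm
        _ ≤ P := mul_le_mul_of_nonneg_left (one_le_pow₀ hX1) (by positivity)
    rw [mul_add, e2]
    have e8 : (L : ℝ) ^ (m - (u + 1)) * C ≤ P * C := mul_le_mul_of_nonneg_right e7 hC0
    calc 4 * ((L : ℝ) ^ (m - 1) * (C ^ u * (X ^ u * k))) + (L : ℝ) ^ (m - (u + 1)) * C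
        ≤ 4 * ((L : ℝ) ^ (m - 1) * (C ^ m * X ^ m)) + P * C := by linarith
      _ = K * P := by
          rw [hK, hP]
          ring
  have main : ∀ U : Finset (Fin (m + 1)), U ⊆ Inn m →
      EU ρ v U + 2 * (K * P) ≤ 2 ^ U.card * (EU ρ v ∅ + 2 * (K * P)) := by
    intro U
    induction U using Finset.induction_on with
    | empty =>
      intro _
      simp
    | insert c U hc ih =>
      intro hU
      have hcI : c ∈ Inn m := hU (mem_insert_self c U)
      have hUI : U ⊆ Inn m := fun a ha => hU (mem_insert_of_mem ha)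
      have hc0 : c ≠ 0 := (mem_erase.1 hcI).1
      have hU0 : (0 : Fin (m + 1)) ∉ U := fun h => (mem_erase.1 (hUI h)).1 rfl
      have hcard : U.card + 1 ≤ m := by
        have h1 := Finset.card_le_card hU
        rw [card_insert_of_notMem hc] at h1
        have h2 : (Inn m).card = m := by
          unfold Inn
          rw [card_erase_of_mem (mem_univ _), card_univ, Fintype.card_fin]
          omega
        omega
      have h3 := step hv hL (b := (C * L * X) ^ U.card) (C := C) hρ hA (by positivity) hc hc0 hU0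
        ((hTail m L k ρ hρ).1 c) (fun q => hC L U c v k ρ q hL hk hρ hv hU0 hc hc0)
      have h4 := numb U.card hcard
      have h5 := ih hUI
      rw [card_insert_of_notMem hc, pow_succ]
      nlinarith
  have fin := main (Inn m) (Subset.refl _)
  have hcI : (Inn m).card = m := by
    unfold Inn
    rw [card_erase_of_mem (mem_univ _), card_univ, Fintype.card_fin]
    omega
  rw [hcI, EU_full] at fin
  have hE := EU_empty (v := v) hv hL (ρ := ρ) hρ.nonneg
  set S : ℝ := ∑ q ∈ Cr m L, Ex ρ (fun ω => v q ω ^ 2) with hS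
  have hS0 : 0 ≤ S := Finset.sum_nonneg fun q _ => ex_nonneg hρ.nonneg fun ω => sq_nonneg _
  have h2 : (0 : ℝ) ≤ 2 ^ m := by positivity
  have hKP : 0 ≤ K * P := mul_nonneg hK0 hP0
  calc Ex ρ (fun ω => ∑ i ∈ range L, XX v i ω ^ 2)
      ≤ 2 ^ m * (EU ρ v ∅ + 2 * (K * P)) := by linarith
    _ ≤ 2 ^ m * (S + 2 * (K * P)) := mul_le_mul_of_nonneg_left (by linarith) h2
    _ ≤ 2 ^ m * ((2 * K + 1) * (S + P)) := by
        refine mul_le_mul_of_nonneg_left ?_ h2
        nlinarith [mul_nonneg hK0 hS0]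
    _ = 2 ^ m * (2 * K + 1) * (S + P) := by ring

end Pool.Agent.SBD
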