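import Pool.Agent.Lib.MP_a7b2aa_an.SBD.Stmts30
import Pool.Agent.Lib.MP_a7b2aa_an.SBT.Cfb33

/-!
SBD, module CFOD: orthogonality of the components.
-/

set_option autoImplicit false

namespace Pool.Agent.SBD

open Finset Pool.Agent.SB3 Pool.Agent.SBT

theorem cl_one33 {m L : ℕ} (a : Fin (m + 1)) (t : ℕ) (ω' ω : Pt m L) :
    cl (one L a t) ω' ω ↔ pre t (ω' a) = pre t (ω a) ∧ ∀ c, c ≠ a → ω' c = ω c := by
  constructor
  · intro h
    constructor
    · have h1 := h a
      rwa [one, Function.update_self] at h1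
    · intro c hc
      have h1 := h c
      rw [one, Function.update_of_ne hc] at h1
      exact pre_top33 le_rfl h1
  · rintro ⟨h1, h2⟩ c
    by_cases hc : c = a
    · subst hc
      rw [one, Function.update_self]
      exact h1
    · rw [h2 c hc]

theorem Ms_one33 {m L : ℕ} {β : Type} {q : Fin (m + 1) → ℕ} {φ : Pt m L → β} (hφ : Ms q φ)
    {a : Fin (m + 1)} {t : ℕ} (ht : q a ≤ t) : Ms (one L a t) φ := by
  intro ω ω' h
  rw [cl_one33] at h
  refine hφ ω ω' fun c => ?_
  by_cases hc : c = a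
  · subst hc
    exact pre_mono33 ht h.1
  · rw [h.2 c hc]

theorem sb_Ms33 {m L : ℕ} {a c : Fin (m + 1)} {t i : ℕ} (h : c = a → i < t) :
    Ms (one L a t) (sb (m := m) (L := L) c i) := by
  intro ω ω' hw
  rw [cl_one33] at hw
  unfold sb
  by_cases hc : c = a
  · subst hc
    rw [bit_of_pre33 (h rfl) hw.1]
  · rw [hw.2 c hc]

theorem sb_sq33 {m L : ℕ} (a : Fin (m + 1)) (t : ℕ) (ω : Pt m L) : sb a t ω * sb a t ω = 1 :=
  sgr_sq33 _

theorem abs_sb33 {m L : ℕ} (a : Fin (m + 1)) (t : ℕ) (ω : Pt m L) : |sb a t ω| = 1 := by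
  unfold sb
  cases bit (ω a) t <;> simp [sgr]

theorem abs_ps33 {m L : ℕ} (U : Finset (Fin (m + 1))) (q : Fin (m + 1) → ℕ) (ω : Pt m L) :
    |ps U q ω| = 1 := by
  unfold ps
  rw [Finset.abs_prod]
  exact Finset.prod_eq_one fun c _ => abs_sb33 c _ ω

theorem ps_sq33 {m L : ℕ} (U : Finset (Fin (m + 1))) (q : Fin (m + 1) → ℕ) (ω : Pt m L) :
    ps U q ω * ps U q ω = 1 := by
  unfold ps
  rw [← Finset.prod_mul_distrib]
  exact Finset.prod_eq_one fun c _ => sb_sq33 c _ ω

theorem ps_erase33 {m L : ℕ} (a : Fin (m + 1)) (q : Fin (m + 1) → ℕ) (ω : Pt m L) :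
    ps Finset.univ q ω = sb a (q a) ω * ps (Finset.univ.erase a) q ω := by
  unfold ps
  exact (Finset.mul_prod_erase Finset.univ (fun c => sb c (q c) ω) (Finset.mem_univ a)).symm

theorem ps_Ms33 {m L : ℕ} {a : Fin (m + 1)} {t : ℕ} (U : Finset (Fin (m + 1)))
    (q : Fin (m + 1) → ℕ) (h : a ∈ U → q a < t) :
    Ms (one L a t) (ps (m := m) (L := L) U q) := by
  intro ω ω' hw
  unfold ps
  refine Finset.prod_congr rfl fun c hc => ?_
  refine sb_Ms33 ?_ ω ω' hw
  rintro rfl
  exact h hc

theorem EE_sb33 {m L : ℕ} (h : Eeb m L) {a : Fin (m + 1)} {t : ℕ} (ht : t < L) (ω : Pt m L) :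
    EE (one L a t) (sb a t) ω = 0 := by
  have h1 := h.step (one L a t) a (fun _ => (1 : ℝ)) ω (by rw [one, Function.update_self]; exact ht)
  rw [h.const, h.const, sub_self] at h1
  have h2 : one L a t a = t := by rw [one, Function.update_self]
  rw [h2] at h1
  have h3 : (fun ω' : Pt m L => sb a t ω' * (1 : ℝ)) = sb a t := by
    funext ω'
    rw [mul_one]
  rw [h3] at h1
  have h4 := sb_sq33 a t ω
  have h5 : sb a t ω * (sb a t ω * EE (one L a t) (sb a t) ω) = 0 := by rw [← h1, mul_zero]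
  rw [← mul_assoc, h4, one_mul] at h5
  exact h5

theorem EE_kill33 {m L : ℕ} (h : Eeb m L) {a : Fin (m + 1)} {t : ℕ} (ht : t < L)
    {q : Fin (m + 1) → ℕ} (hq : q a ≤ t) (hqL : ∀ c, q c ≤ L) (F : Pt m L → ℝ)
    (hF : Ms (one L a t) F) (ω : Pt m L) :
    EE q (fun ω' => F ω' * sb a t ω') ω = 0 := by
  have h1 : EE (one L a t) (fun ω' => F ω' * sb a t ω') = fun _ => (0 : ℝ) := by
    funext ω'
    rw [h.pull _ _ _ hF, EE_sb33 h ht, mul_zero]
  have h2 := h.comp q (one L a t) (fun ω' => F ω' * sb a t ω') ω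
  have h3 : (fun c => min (q c) (one L a t c)) = q := by
    funext c
    by_cases hc : c = a
    · subst hc
      rw [one, Function.update_self]
      exact min_eq_left hq
    · rw [one, Function.update_of_ne hc]
      exact min_eq_left (hqL c)
  rw [h3, h1, h.const] at h2
  exact h2.symm

theorem cfod_33 (hE : StEeb) : StCfoD := by
  intro m L H q r ω hq hr
  have h := hE m L
  have hms : Ms r (cf H r) := h.ms r _
  by_cases hrq : r = q
  · subst hrq
    rw [if_pos rfl]
    unfold cf
    have h1 : (fun ω' => ps Finset.univ r ω' * (ps Finset.univ r ω' *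
        EE r (fun ω' => ps Finset.univ r ω' * H ω') ω')) =
        EE r (fun ω' => ps Finset.univ r ω' * H ω') := by
      funext ω'
      rw [← mul_assoc, ps_sq33, one_mul]
    rw [h1]
    exact h.idem r _ (h.ms r _) ω
  · rw [if_neg hrq]
    obtain ⟨a, ha⟩ : ∃ a, r a ≠ q a := by
      by_contra hh
      push Not at hh
      exact hrq (funext hh)
    unfold cf
    rcases lt_or_gt_of_ne ha with hlt | hgt
    · -- `r a < q a`
      have h1 : (fun ω' => ps Finset.univ q ω' * (ps Finset.univ r ω' *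
          EE r (fun ω' => ps Finset.univ r ω' * H ω') ω')) =
          fun ω' => (ps (Finset.univ.erase a) q ω' * (ps Finset.univ r ω' * cf H r ω')) *
            sb a (q a) ω' := by
        funext ω'
        rw [ps_erase33 a q ω']
        unfold cf
        ring
      rw [h1]
      refine EE_kill33 h (hq a) le_rfl (fun c => (hq c).le) _ ?_ ω
      intro ω1 ω2 hw
      have e1 := ps_Ms33 (a := a) (t := q a) (Finset.univ.erase a) q
        (fun hh => absurd hh (Finset.notMem_erase a _)) ω1 ω2 hw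
      have e2 := ps_Ms33 (a := a) (t := q a) Finset.univ r (fun _ => hlt) ω1 ω2 hw
      have e3 := Ms_one33 hms hlt.le ω1 ω2 hw
      simp only [e1, e2, e3]
    · -- `q a < r a`
      have h1 : (fun ω' => ps Finset.univ q ω' * (ps Finset.univ r ω' *
          EE r (fun ω' => ps Finset.univ r ω' * H ω') ω')) =
          fun ω' => (ps Finset.univ q ω' * (ps (Finset.univ.erase a) r ω' * cf H r ω')) *
            sb a (r a) ω' := by
        funext ω'
        rw [ps_erase33 a r ω']
        unfold cf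
        ring
      rw [h1]
      refine EE_kill33 h (hr a) (le_of_lt hgt) (fun c => (hq c).le) _ ?_ ω
      intro ω1 ω2 hw
      have e1 := ps_Ms33 (a := a) (t := r a) Finset.univ q (fun _ => hgt) ω1 ω2 hw
      have e2 := ps_Ms33 (a := a) (t := r a) (Finset.univ.erase a) r
        (fun hh => absurd hh (Finset.notMem_erase a _)) ω1 ω2 hw
      have e3 := Ms_one33 hms le_rfl ω1 ω2 hw
      simp only [e1, e2, e3]

end Pool.Agent.SBD
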