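import Pool.Agent.Lib.MP_a7b2aa_an.SBD.Base30

/-!
SBD, helper30: DISCD, the theorem on the discrete torus.
-/

set_option autoImplicit false

namespace Pool.Agent.SBD

open Finset Pool.Agent.SB3 Pool.Agent.SBT

namespace D30

lemma S1_nonneg {ι : Type} [Fintype ι] [DecidableEq ι] {N : ℕ} [NeZero N] (φ : Tor ι N → ℝ) :
    0 ≤ S1 φ := Finset.sum_nonneg (fun _ _ => abs_nonneg _)

lemma card_tor (d a : ℕ) : (Fintype.card (Tor (Fin d) (2 ^ a)) : ℝ) = (2 ^ a) ^ d := by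
  rw [Fintype.card_fun, ZMod.card, Fintype.card_fin]
  push_cast
  ring

/-- the gap -/
def gap (m M0 : ℕ) : ℕ := 2 * (m + 1) * (Nat.log 2 (M0 + 1) + 1) + 4 * (m + 1)

lemma gap_pos (m M0 : ℕ) : 0 < gap m M0 := by
  unfold gap
  positivity

lemma gap_small (m M0 : ℕ) :
    ((M0 : ℝ) + 1) ^ (4 * (m + 1)) * (32 ^ (m + 1) * 6 ^ (m + 1)) *
      (1 / 2 : ℝ) ^ (2 * gap m M0) ≤ 1 := by
  set s := Nat.log 2 (M0 + 1) + 1 with hs
  have h1 : M0 + 1 < 2 ^ s := Nat.lt_pow_succ_log_self (by norm_num) _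
  have h2 : ((M0 : ℝ) + 1) ≤ 2 ^ s := by exact_mod_cast h1.le
  have h3 : ((M0 : ℝ) + 1) ^ (4 * (m + 1)) ≤ (2 ^ s) ^ (4 * (m + 1)) :=
    pow_le_pow_left₀ (by positivity) h2 _
  have h4 : 2 * gap m M0 = s * (4 * (m + 1)) + 8 * (m + 1) := by
    unfold gap
    rw [← hs]
    ring
  have h5 : (32 : ℝ) ^ (m + 1) * 6 ^ (m + 1) ≤ 2 ^ (8 * (m + 1)) := by
    rw [← mul_pow, pow_mul]
    exact pow_le_pow_left₀ (by norm_num) (by norm_num) _
  calc ((M0 : ℝ) + 1) ^ (4 * (m + 1)) * (32 ^ (m + 1) * 6 ^ (m + 1)) *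
        (1 / 2 : ℝ) ^ (2 * gap m M0)
      ≤ (2 ^ s) ^ (4 * (m + 1)) * 2 ^ (8 * (m + 1)) * (1 / 2 : ℝ) ^ (2 * gap m M0) := by
        gcongr
    _ = 1 := by
        rw [h4, ← pow_mul, ← pow_add, ← mul_pow]
        norm_num

/-- the start of the class -/
def Xc (m M0 β k : ℕ) (y : Fin m → ℕ) : Fin (m + 1) → ℕ :=
  Fin.cons (2 * (M0 - ∑ i, y i - β * k)) (fun i => 2 * y i)

lemma Xc_zero (m M0 β k : ℕ) (y : Fin m → ℕ) : Xc m M0 β k y 0 = 2 * (M0 - ∑ i, y i - β * k) := rfl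

lemma Xc_succ (m M0 β k : ℕ) (y : Fin m → ℕ) (i : Fin m) : Xc m M0 β k y i.succ = 2 * y i := rfl

lemma Xc_sum (m M0 β k : ℕ) (y : Fin m → ℕ) (hy : ∑ i, y i ≤ M0) (hk : β * k ≤ M0 - ∑ i, y i) :
    ∑ j, Xc m M0 β k y j = 2 * (M0 - β * k) := by
  rw [Fin.sum_univ_succ, Xc_zero]
  simp_rw [Xc_succ]
  rw [← mul_sum]
  omega

lemma Xc_pos {m M0 β k : ℕ} {y : Fin m → ℕ} (hy : ∑ i, y i ≤ M0) (hk : β * k ≤ M0 - ∑ i, y i)
    {q : Fin (m + 1) → ℕ} (hq : ∀ j, q j ≤ k) (j : Fin (m + 1)) :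
    Xc m M0 β k y j + 2 * β * q j ≤ 2 * M0 := by
  have h7 : β * q j ≤ β * k := Nat.mul_le_mul_left _ (hq j)
  have e1 : 2 * β * q j = 2 * (β * q j) := by ring
  rw [e1]
  refine Fin.cases (motive := fun j => β * q j ≤ β * k → Xc m M0 β k y j + 2 * (β * q j) ≤ 2 * M0)
    ?_ (fun i => ?_) j h7
  · intro h
    rw [Xc_zero]
    omega
  · intro h
    rw [Xc_succ]
    have := single_le_sum (f := y) (fun i _ => Nat.zero_le _) (mem_univ i)
    omega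

/-- the class, as critical cells -/
lemma class_sum {m M0 β k : ℕ} {y : Fin m → ℕ} (hy : ∑ i, y i ≤ M0)
    (hk1 : β * k ≤ M0 - ∑ i, y i) (hk2 : ∀ x, β * x ≤ M0 - ∑ i, y i → x ≤ k)
    (g : (Fin (m + 1) → ℕ) → ℝ) (hg : ∀ l, 0 ≤ g l) :
    ∑ l ∈ (Finset.Nat.antidiagonalTuple (m + 1) M0).filter
        (fun l => ∀ a : Fin m, l a.succ % β = y a), g (fun j => 2 * l j) ≤
      ∑ q ∈ Cr m (k + 1), g (fun j => Xc m M0 β k y j + 2 * β * q j) := by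
  set S := (Finset.Nat.antidiagonalTuple (m + 1) M0).filter
    (fun l => ∀ a : Fin m, l a.succ % β = y a) with hS
  set f : (Fin (m + 1) → ℕ) → (Fin (m + 1) → ℕ) := fun l =>
    Fin.cons (k - ∑ i : Fin m, l i.succ / β) (fun i => l i.succ / β) with hf
  have hf0 : ∀ l, f l 0 = k - ∑ i : Fin m, l i.succ / β := fun l => rfl
  have hfs : ∀ l (i : Fin m), f l i.succ = l i.succ / β := fun l i => rfl
  have hmem : ∀ l ∈ S, (∑ j, l j = M0) ∧ ∀ i : Fin m, l i.succ = y i + β * (l i.succ / β) := by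
    intro l hl
    rw [hS, mem_filter, Finset.Nat.mem_antidiagonalTuple] at hl
    refine ⟨hl.1, fun i => ?_⟩
    have := Nat.mod_add_div (l i.succ) β
    rw [hl.2 i] at this
    exact this.symm
  have hsum' : ∀ l ∈ S, l 0 + (∑ i, y i + β * ∑ i : Fin m, l i.succ / β) = M0 := by
    intro l hl
    obtain ⟨h1, h2⟩ := hmem l hl
    rw [Fin.sum_univ_succ] at h1
    rw [mul_sum, ← sum_add_distrib]
    rw [← sum_congr rfl fun i _ => h2 i]
    exact h1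
  have hle : ∀ l ∈ S, ∑ i : Fin m, l i.succ / β ≤ k := by
    intro l hl
    apply hk2
    have := hsum' l hl
    omega
  have hinj : Set.InjOn f S := by
    intro l hl l' hl' h
    have h1 : ∀ i : Fin m, l i.succ / β = l' i.succ / β := fun i => by
      rw [← hfs l i, ← hfs l' i, h]
    have h2 : ∀ i : Fin m, l i.succ = l' i.succ := fun i => by
      rw [(hmem l hl).2 i, (hmem l' hl').2 i, h1 i]
    have h3 := hsum' l hl
    have h4 := hsum' l' hl'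
    rw [sum_congr rfl fun i _ => h1 i] at h3
    funext j
    refine Fin.cases ?_ (fun i => h2 i) j
    omega
  have himg : S.image f ⊆ Cr m (k + 1) := by
    intro q hq
    obtain ⟨l, hl, rfl⟩ := mem_image.1 hq
    rw [mem_Cr (by omega), Fin.sum_univ_succ, hf0]
    simp_rw [hfs]
    have := hle l hl
    omega
  have hval : ∀ l ∈ S, (fun j => 2 * l j) = fun j => Xc m M0 β k y j + 2 * β * f l j := by
    intro l hl
    have h1 := hsum' l hl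
    have h2 := hle l hl
    funext j
    refine Fin.cases ?_ (fun i => ?_) j
    · rw [Xc_zero, hf0]
      have e1 : 2 * β * (k - ∑ i : Fin m, l i.succ / β) =
          2 * (β * k - β * ∑ i : Fin m, l i.succ / β) := by
        rw [← Nat.mul_sub]
        ring
      have h3 : β * ∑ i : Fin m, l i.succ / β ≤ β * k := Nat.mul_le_mul_left _ h2
      rw [e1]
      generalize β * ∑ i : Fin m, l i.succ / β = z at *
      generalize β * k = z' at *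
      omega
    · rw [Xc_succ, hfs]
      have := (hmem l hl).2 i
      have e1 : 2 * β * (l i.succ / β) = 2 * (β * (l i.succ / β)) := by ring
      rw [e1]
      generalize β * (l i.succ / β) = z at *
      omega
  calc ∑ l ∈ S, g (fun j => 2 * l j)
      = ∑ l ∈ S, g (fun j => Xc m M0 β k y j + 2 * β * f l j) :=
        sum_congr rfl fun l hl => by rw [hval l hl]
    _ = ∑ q ∈ S.image f, g (fun j => Xc m M0 β k y j + 2 * β * q j) := by
        rw [sum_image hinj]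
    _ ≤ _ := sum_le_sum_of_subset_of_nonneg himg fun _ _ _ => hg _

/-- one class -/
lemma class_le {m : ℕ} {δ' C1 : ℝ} (hC1 : 0 < C1) (hδ' : δ' ≤ (m : ℝ) / 2)
    (hmain : ∀ (L : ℕ) (H : Pt m L → ℝ) (M η : ℝ), 1 ≤ L → 0 ≤ η → (∀ ω, |H ω| ≤ M) →
      (∀ q : Fin (m + 1) → ℕ, (∀ a, q a < L) → L ≤ ∑ a, q a → ∀ ω, |dd H q ω| ≤ η) →
      ∑ q ∈ Cr m L, Av (fun ω => |dd H q ω|) ≤
        C1 * (L : ℝ) ^ ((m : ℝ) / 2 - δ') * M + C1 * (L : ℝ) ^ (3 * (m + 1)) * η)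
    (hsmall : StSmallD) (htra : StTraD) (M0 β : ℕ) (y : Fin m → ℕ) (c : (Fin (m + 1) → ℤ) → ℂ)
    (M : ℝ) (hM : ∀ u, |FmD (m + 1) M0 c u| ≤ M) (hMn : 0 ≤ M) (hβ0 : 0 < β)
    (hβ : ((M0 : ℝ) + 1) ^ (4 * (m + 1)) * (32 ^ (m + 1) * 6 ^ (m + 1)) *
      (1 / 2 : ℝ) ^ (2 * β) ≤ 1) :
    ∑ l ∈ (Finset.Nat.antidiagonalTuple (m + 1) M0).filter (fun l => ∀ a : Fin m, l a.succ % β = y a),
        S1 (Dd (2 * M0 + 3) (fun j => 2 * l j) (FmD (m + 1) M0 c)) ≤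
      2 * C1 * ((M0 : ℝ) + 1) ^ ((m : ℝ) / 2 - δ') * M * (2 ^ (2 * M0 + 3)) ^ (m + 1) := by
  by_cases hy : ∑ i, y i ≤ M0
  swap
  · -- empty class
    have : (Finset.Nat.antidiagonalTuple (m + 1) M0).filter
        (fun l => ∀ a : Fin m, l a.succ % β = y a) = ∅ := by
      rw [filter_eq_empty_iff]
      intro l hl h
      rw [Finset.Nat.mem_antidiagonalTuple, Fin.sum_univ_succ] at hl
      have h1 : ∑ i, y i ≤ ∑ i : Fin m, l i.succ :=
        sum_le_sum fun i _ => by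
          rw [← h i]
          exact Nat.mod_le _ _
      omega
    rw [this, sum_empty]
    positivity
  obtain ⟨k, hk1, hk2⟩ : ∃ k, β * k ≤ M0 - ∑ i, y i ∧ ∀ x, β * x ≤ M0 - ∑ i, y i → x ≤ k :=
    ⟨(M0 - ∑ i, y i) / β, Nat.mul_div_le _ _, fun x hx => by
      rw [Nat.le_div_iff_mul_le hβ0, mul_comm]
      exact hx⟩
  have hkM : k ≤ M0 := by
    have h1 : 1 * k ≤ β * k := Nat.mul_le_mul_right _ hβ0
    omega
  have hX := Xc_sum m M0 β k y hy hk1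
  obtain ⟨η, hη⟩ : ∃ η : ℝ, η = ((M0 : ℝ) + 1) ^ (m + 1) * (32 ^ (m + 1) * 6 ^ (m + 1)) *
    (1 / 2 : ℝ) ^ (2 * β) * M := ⟨_, rfl⟩
  have hη0 : 0 ≤ η := by
    rw [hη]
    positivity
  have hLM : ((k + 1 : ℕ) : ℝ) ≤ (M0 : ℝ) + 1 := by
    have : k + 1 ≤ M0 + 1 := by omega
    exact_mod_cast this
  have hLη : ((k + 1 : ℕ) : ℝ) ^ (3 * (m + 1)) * η ≤ M := by
    have h2 : ((k + 1 : ℕ) : ℝ) ^ (3 * (m + 1)) ≤ ((M0 : ℝ) + 1) ^ (3 * (m + 1)) :=
      pow_le_pow_left₀ (by positivity) hLM _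
    calc ((k + 1 : ℕ) : ℝ) ^ (3 * (m + 1)) * η ≤ ((M0 : ℝ) + 1) ^ (3 * (m + 1)) * η :=
          mul_le_mul_of_nonneg_right h2 hη0
      _ = (((M0 : ℝ) + 1) ^ (4 * (m + 1)) * (32 ^ (m + 1) * 6 ^ (m + 1)) *
            (1 / 2 : ℝ) ^ (2 * β)) * M := by
          rw [hη, show 4 * (m + 1) = 3 * (m + 1) + (m + 1) by ring, pow_add]
          ring
      _ ≤ 1 * M := mul_le_mul_of_nonneg_right hβ hMn
      _ = M := one_mul _
  refine (class_sum hy hk1 hk2 (fun l => S1 (Dd (2 * M0 + 3) l (FmD (m + 1) M0 c)))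
    (fun _ => S1_nonneg _)).trans ?_
  -- bound on the critical cells
  have h1 : ∑ q ∈ Cr m (k + 1), S1 (Dd (2 * M0 + 3) (fun j => Xc m M0 β k y j + 2 * β * q j)
      (FmD (m + 1) M0 c)) =
      ∑ u : Tor (Fin (m + 1)) (2 ^ (2 * M0 + 3)), ∑ q ∈ Cr m (k + 1),
        Av (fun ω : Pt m (k + 1) => |dd (HuD (2 * M0 + 3) (2 * β) (Xc m M0 β k y)
          (FmD (m + 1) M0 c) u) q ω|) := by
    rw [sum_comm]
    refine sum_congr rfl fun q hq => ?_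
    exact ((htra m (2 * M0 + 3) (2 * β) (k + 1) (Xc m M0 β k y) (FmD (m + 1) M0 c) q
      (fun j => Cr_lt (by omega) hq j)).1).symm
  have h2 : ∀ u : Tor (Fin (m + 1)) (2 ^ (2 * M0 + 3)), ∑ q ∈ Cr m (k + 1),
      Av (fun ω : Pt m (k + 1) => |dd (HuD (2 * M0 + 3) (2 * β) (Xc m M0 β k y)
        (FmD (m + 1) M0 c) u) q ω|) ≤
      2 * C1 * ((M0 : ℝ) + 1) ^ ((m : ℝ) / 2 - δ') * M := by
    intro u
    have h3 := hmain (k + 1) (HuD (2 * M0 + 3) (2 * β) (Xc m M0 β k y)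
        (FmD (m + 1) M0 c) u) M η (by omega) hη0 (fun ω => hM _) ?_
    · have h4 : ((k + 1 : ℕ) : ℝ) ^ ((m : ℝ) / 2 - δ') ≤ ((M0 : ℝ) + 1) ^ ((m : ℝ) / 2 - δ') :=
        Real.rpow_le_rpow (by positivity) hLM (by linarith)
      have h5 : (1 : ℝ) ≤ ((M0 : ℝ) + 1) ^ ((m : ℝ) / 2 - δ') :=
        Real.one_le_rpow (by
          have : (0 : ℝ) ≤ M0 := Nat.cast_nonneg _
          linarith) (by linarith)
      calc _ ≤ _ := h3
        _ = C1 * (((k + 1 : ℕ) : ℝ) ^ ((m : ℝ) / 2 - δ') * M) +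
            C1 * (((k + 1 : ℕ) : ℝ) ^ (3 * (m + 1)) * η) := by
            ring
        _ ≤ C1 * (((M0 : ℝ) + 1) ^ ((m : ℝ) / 2 - δ') * M) +
            C1 * (((M0 : ℝ) + 1) ^ ((m : ℝ) / 2 - δ') * M) := by
            have h6 : ((k + 1 : ℕ) : ℝ) ^ (3 * (m + 1)) * η ≤
                ((M0 : ℝ) + 1) ^ ((m : ℝ) / 2 - δ') * M :=
              hLη.trans (by nlinarith)
            gcongr
        _ = _ := by ring
    · intro q hq hqs ω
      obtain ⟨u', hu'⟩ := (htra m (2 * M0 + 3) (2 * β) (k + 1) (Xc m M0 β k y)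
        (FmD (m + 1) M0 c) q hq).2 u ω
      rw [hu', hη]
      have hpos : ∀ j, Xc m M0 β k y j + 2 * β * q j ≤ 2 * M0 :=
        Xc_pos hy hk1 (fun j => by
          have := hq j
          omega)
      have hsum : 2 * M0 + 2 * β ≤ ∑ j, (Xc m M0 β k y j + 2 * β * q j) := by
        rw [sum_add_distrib, hX, ← mul_sum]
        have h8 : β * (k + 1) ≤ β * ∑ j, q j := Nat.mul_le_mul_left _ hqs
        have e1 : 2 * β * ∑ j, q j = 2 * (β * ∑ j, q j) := by ring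
        have e2 : β * (k + 1) = β * k + β := by ring
        rw [e1]
        rw [e2] at h8
        generalize β * ∑ j, q j = z at *
        generalize β * k = z' at *
        omega
      exact hsmall (m + 1) M0 c M (fun j => Xc m M0 β k y j + 2 * β * q j) (2 * β) hM hpos hsum u'
  rw [h1]
  calc _ ≤ ∑ u : Tor (Fin (m + 1)) (2 ^ (2 * M0 + 3)),
          2 * C1 * ((M0 : ℝ) + 1) ^ ((m : ℝ) / 2 - δ') * M :=
        sum_le_sum fun u _ => h2 u
    _ = _ := by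
        rw [sum_const, card_univ, nsmul_eq_mul, card_tor]
        ring

/-- all classes -/
lemma classes_le {m : ℕ} {δ' C1 : ℝ} (hC1 : 0 < C1) (hδ' : δ' ≤ (m : ℝ) / 2)
    (hmain : ∀ (L : ℕ) (H : Pt m L → ℝ) (M η : ℝ), 1 ≤ L → 0 ≤ η → (∀ ω, |H ω| ≤ M) →
      (∀ q : Fin (m + 1) → ℕ, (∀ a, q a < L) → L ≤ ∑ a, q a → ∀ ω, |dd H q ω| ≤ η) →
      ∑ q ∈ Cr m L, Av (fun ω => |dd H q ω|) ≤
        C1 * (L : ℝ) ^ ((m : ℝ) / 2 - δ') * M + C1 * (L : ℝ) ^ (3 * (m + 1)) * η)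
    (hsmall : StSmallD) (htra : StTraD) (M0 : ℕ) (c : (Fin (m + 1) → ℤ) → ℂ)
    (M : ℝ) (hM : ∀ u, |FmD (m + 1) M0 c u| ≤ M) (hMn : 0 ≤ M) :
    ∑ l ∈ Finset.Nat.antidiagonalTuple (m + 1) M0,
        S1 (Dd (2 * M0 + 3) (fun j => 2 * l j) (FmD (m + 1) M0 c)) ≤
      (gap m M0 : ℝ) ^ m *
        (2 * C1 * ((M0 : ℝ) + 1) ^ ((m : ℝ) / 2 - δ') * M * (2 ^ (2 * M0 + 3)) ^ (m + 1)) := by
  have h1 : ∑ l ∈ Finset.Nat.antidiagonalTuple (m + 1) M0,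
        S1 (Dd (2 * M0 + 3) (fun j => 2 * l j) (FmD (m + 1) M0 c)) =
      ∑ y ∈ Fintype.piFinset (fun _ : Fin m => range (gap m M0)),
        ∑ l ∈ (Finset.Nat.antidiagonalTuple (m + 1) M0).filter
          (fun l => (fun a : Fin m => l a.succ % gap m M0) = y),
          S1 (Dd (2 * M0 + 3) (fun j => 2 * l j) (FmD (m + 1) M0 c)) := by
    rw [Finset.sum_fiberwise_of_maps_to]
    intro l _
    rw [Fintype.mem_piFinset]
    intro a
    exact mem_range.2 (Nat.mod_lt _ (gap_pos m M0))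
  rw [h1]
  calc _ ≤ ∑ y ∈ Fintype.piFinset (fun _ : Fin m => range (gap m M0)),
        (2 * C1 * ((M0 : ℝ) + 1) ^ ((m : ℝ) / 2 - δ') * M * (2 ^ (2 * M0 + 3)) ^ (m + 1)) := by
        refine sum_le_sum fun y _ => ?_
        have h2 := class_le hC1 hδ' hmain hsmall htra M0 (gap m M0) y c M hM hMn (gap_pos m M0)
          (gap_small m M0)
        refine le_trans (le_of_eq ?_) h2
        refine sum_congr (filter_congr fun l _ => ?_) fun _ _ => rfl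
        exact funext_iff
    _ = _ := by
        rw [sum_const, Fintype.card_piFinset_const, card_range, nsmul_eq_mul]
        push_cast
        ring

/-- the gap is at most a power -/
lemma gap_le (m : ℕ) (hm : 1 ≤ m) {γ : ℝ} (hγ : 0 < γ) : ∃ C : ℝ, 0 < C ∧ ∀ M0 : ℕ,
    (gap m M0 : ℝ) ≤ C * ((M0 : ℝ) + 1) ^ γ := by
  have hl2 : 0 < Real.log 2 := Real.log_pos (by norm_num)
  refine ⟨2 * (m + 1) * (1 / (γ * Real.log 2) + 1) + 4 * (m + 1), by positivity, fun M0 => ?_⟩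
  have hM : (0 : ℝ) ≤ M0 := Nat.cast_nonneg _
  have h0 : (1 : ℝ) ≤ ((M0 : ℝ) + 1) ^ γ := Real.one_le_rpow (by linarith) hγ.le
  have h1 : (Nat.log 2 (M0 + 1) : ℝ) ≤ 1 / (γ * Real.log 2) * ((M0 : ℝ) + 1) ^ γ := by
    have h2 : (Nat.log 2 (M0 + 1) : ℝ) * Real.log 2 ≤ Real.log ((M0 : ℝ) + 1) := by
      rw [← Real.log_pow]
      refine Real.log_le_log (by positivity) ?_
      have := Nat.pow_log_le_self 2 (x := M0 + 1) (by omega)
      exact_mod_cast this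
    have h3 := Real.log_le_rpow_div (show (0 : ℝ) ≤ (M0 : ℝ) + 1 by positivity) hγ
    have h4 : (Nat.log 2 (M0 + 1) : ℝ) ≤ ((M0 : ℝ) + 1) ^ γ / γ / Real.log 2 := by
      rw [le_div_iff₀ hl2]
      exact h2.trans h3
    refine h4.trans (le_of_eq ?_)
    field_simp
  unfold gap
  push_cast
  calc (2 : ℝ) * (m + 1) * ((Nat.log 2 (M0 + 1) : ℝ) + 1) + 4 * (m + 1)
      ≤ 2 * (m + 1) * (1 / (γ * Real.log 2) * ((M0 : ℝ) + 1) ^ γ + ((M0 : ℝ) + 1) ^ γ) +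
        4 * (m + 1) * ((M0 : ℝ) + 1) ^ γ := by
        have h5 : (4 : ℝ) * (m + 1) * 1 ≤ 4 * (m + 1) * ((M0 : ℝ) + 1) ^ γ :=
          mul_le_mul_of_nonneg_left h0 (by positivity)
        have h6 : (2 : ℝ) * (m + 1) * ((Nat.log 2 (M0 + 1) : ℝ) + 1) ≤
            2 * (m + 1) * (1 / (γ * Real.log 2) * ((M0 : ℝ) + 1) ^ γ + ((M0 : ℝ) + 1) ^ γ) :=
          mul_le_mul_of_nonneg_left (add_le_add h1 h0) (by positivity)
        linarith
    _ = _ := by ring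

/-! ### the boundary blocks -/

lemma card_bd (m M0 : ℕ) (hm : 1 ≤ m) :
    ((Finset.Nat.antidiagonalTuple (m + 1) M0).filter (fun l => ¬ ∀ j, 1 ≤ l j)).card ≤
      (m + 1) * (M0 + 1) ^ (m - 1) := by
  obtain ⟨n, rfl⟩ : ∃ n, m = n + 1 := ⟨m - 1, by omega⟩
  have h1 : ∀ j : Fin (n + 2), ((Finset.Nat.antidiagonalTuple (n + 2) M0).filter
      (fun l => l j = 0)).card ≤ (M0 + 1) ^ n := by
    intro j
    have h2 : (Cr n (M0 + 1)).card ≤ (M0 + 1) ^ n := card_Cr_le (by omega)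
    refine le_trans ?_ h2
    refine card_le_card_of_injOn (fun l i => l (j.succAbove i)) ?_ ?_
    · intro l hl
      rw [mem_coe, mem_filter, Finset.Nat.mem_antidiagonalTuple,
        Fin.sum_univ_succAbove _ j] at hl
      rw [mem_coe, mem_Cr (by omega)]
      obtain ⟨h3, h4⟩ := hl
      rw [h4, zero_add] at h3
      show (∑ i, l (j.succAbove i)) + 1 = M0 + 1
      rw [h3]
    · intro l hl l' hl' h
      rw [mem_coe, mem_filter] at hl hl'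
      funext i
      rcases Fin.eq_self_or_eq_succAbove j i with h3 | ⟨i', h3⟩
      · rw [h3, hl.2, hl'.2]
      · rw [h3]
        exact congrFun h i'
  have h2 : (Finset.Nat.antidiagonalTuple (n + 2) M0).filter (fun l => ¬ ∀ j, 1 ≤ l j) ⊆
      (univ : Finset (Fin (n + 2))).biUnion (fun j =>
        (Finset.Nat.antidiagonalTuple (n + 2) M0).filter (fun l => l j = 0)) := by
    intro l hl
    rw [mem_filter] at hl
    obtain ⟨h3, h4⟩ := hl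
    push Not at h4
    obtain ⟨j, hj⟩ := h4
    rw [mem_biUnion]
    exact ⟨j, mem_univ _, mem_filter.2 ⟨h3, by omega⟩⟩
  refine (card_le_card h2).trans (card_biUnion_le.trans ?_)
  calc _ ≤ ∑ _j : Fin (n + 2), (M0 + 1) ^ n := sum_le_sum fun j _ => h1 j
    _ = _ := by simp

lemma boundary (hpar : StParD) (m M0 : ℕ) (hm : 1 ≤ m) (c : (Fin (m + 1) → ℤ) → ℂ) (M : ℝ)
    (hM : ∀ u, |FmD (m + 1) M0 c u| ≤ M) (hM0 : 0 ≤ M) :
    ∑ l ∈ (Finset.Nat.antidiagonalTuple (m + 1) M0).filter (fun l => ¬ ∀ j, 1 ≤ l j),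
      S1 (PT (N := 2 ^ (2 * M0 + 3)) (blkD l) c) ≤
      Real.sqrt ((m + 1) * (M0 + 1) ^ (m - 1)) * (M * (2 ^ (2 * M0 + 3)) ^ (m + 1)) := by
  set Bd := (Finset.Nat.antidiagonalTuple (m + 1) M0).filter (fun l => ¬ ∀ j, 1 ≤ l j) with hBd
  have h1 : ∑ l ∈ Bd, S1 (PT (N := 2 ^ (2 * M0 + 3)) (blkD l) c) =
      ∑ x ∈ Bd ×ˢ (univ : Finset (Tor (Fin (m + 1)) (2 ^ (2 * M0 + 3)))),
      |PT (blkD x.1) c x.2| := by
    rw [Finset.sum_product]
    rfl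
  have h2 := sq_sum_le_card_mul_sum_sq
    (s := Bd ×ˢ (univ : Finset (Tor (Fin (m + 1)) (2 ^ (2 * M0 + 3)))))
    (f := fun x => |PT (blkD x.1) c x.2|)
  have h3 : ∑ x ∈ Bd ×ˢ (univ : Finset (Tor (Fin (m + 1)) (2 ^ (2 * M0 + 3)))),
      |PT (blkD x.1) c x.2| ^ 2 ≤ (2 ^ (2 * M0 + 3)) ^ (m + 1) * M ^ 2 := by
    rw [Finset.sum_product]
    have h4 : ∑ l ∈ Bd, ∑ u : Tor (Fin (m + 1)) (2 ^ (2 * M0 + 3)), |PT (blkD l) c u| ^ 2 ≤
        ∑ l ∈ Finset.Nat.antidiagonalTuple (m + 1) M0,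
          ∑ u : Tor (Fin (m + 1)) (2 ^ (2 * M0 + 3)), |PT (blkD l) c u| ^ 2 :=
      Finset.sum_le_sum_of_subset_of_nonneg (Finset.filter_subset _ _)
        (fun _ _ _ => Finset.sum_nonneg (fun _ _ => by positivity))
    have h5 : ∑ l ∈ Finset.Nat.antidiagonalTuple (m + 1) M0,
          ∑ u : Tor (Fin (m + 1)) (2 ^ (2 * M0 + 3)), |PT (blkD l) c u| ^ 2 =
          ∑ u, FmD (m + 1) M0 c u ^ 2 := by
      rw [← hpar (m + 1) M0 c]
      refine Finset.sum_congr rfl (fun l _ => Finset.sum_congr rfl (fun u _ => ?_))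
      rw [sq_abs]
    refine h4.trans (h5.le.trans ?_)
    calc ∑ u, FmD (m + 1) M0 c u ^ 2 ≤
          ∑ _u : Tor (Fin (m + 1)) (2 ^ (2 * M0 + 3)), M ^ 2 := by
          refine Finset.sum_le_sum (fun u _ => ?_)
          rw [← sq_abs]
          exact pow_le_pow_left₀ (abs_nonneg _) (hM u) 2
      _ = (2 ^ (2 * M0 + 3)) ^ (m + 1) * M ^ 2 := by
          rw [Finset.sum_const, card_univ, nsmul_eq_mul, card_tor]
  have h6 : ((Bd ×ˢ (univ : Finset (Tor (Fin (m + 1)) (2 ^ (2 * M0 + 3))))).card : ℝ) ≤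
      ((m + 1) * (M0 + 1) ^ (m - 1)) * (2 ^ (2 * M0 + 3)) ^ (m + 1) := by
    rw [Finset.card_product, card_univ, Nat.cast_mul, card_tor]
    refine mul_le_mul_of_nonneg_right ?_ (by positivity)
    have := card_bd m M0 hm
    exact_mod_cast this
  rw [h1]
  have h7 : (∑ x ∈ Bd ×ˢ (univ : Finset (Tor (Fin (m + 1)) (2 ^ (2 * M0 + 3)))),
      |PT (blkD x.1) c x.2|) ^ 2 ≤
      ((m + 1) * (M0 + 1) ^ (m - 1)) * (M * (2 ^ (2 * M0 + 3)) ^ (m + 1)) ^ 2 := by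
    refine h2.trans ?_
    calc ((Bd ×ˢ (univ : Finset (Tor (Fin (m + 1)) (2 ^ (2 * M0 + 3))))).card : ℝ) *
          ∑ x ∈ Bd ×ˢ (univ : Finset (Tor (Fin (m + 1)) (2 ^ (2 * M0 + 3)))),
            |PT (blkD x.1) c x.2| ^ 2
        ≤ (((m + 1) * (M0 + 1) ^ (m - 1)) * (2 ^ (2 * M0 + 3)) ^ (m + 1)) *
            ((2 ^ (2 * M0 + 3)) ^ (m + 1) * M ^ 2) :=
          mul_le_mul h6 h3 (Finset.sum_nonneg (fun _ _ => by positivity)) (by positivity)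
      _ = ((m + 1) * (M0 + 1) ^ (m - 1)) * (M * (2 ^ (2 * M0 + 3)) ^ (m + 1)) ^ 2 := by ring
  have h8 : (((m : ℝ) + 1) * ((M0 : ℝ) + 1) ^ (m - 1)) * (M * (2 ^ (2 * M0 + 3)) ^ (m + 1)) ^ 2 =
      (Real.sqrt ((m + 1) * (M0 + 1) ^ (m - 1)) * (M * (2 ^ (2 * M0 + 3)) ^ (m + 1))) ^ 2 := by
    rw [mul_pow (Real.sqrt _), Real.sq_sqrt (by positivity)]
  rw [h8] at h7
  exact (le_abs_self _).trans (abs_le_of_sq_le_sq h7 (by positivity))

end D30

open D30 in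
/-- DISCD -/
theorem discd_30 (hmain : StMainD) (hsmall : StSmallD) (hlow : StLowD) (htra : StTraD)
    (hpar : StParD) : StDiscD := by
  intro m δ hm hδ hδm
  have hm0 : (2 : ℝ) ≤ m := by exact_mod_cast hm
  obtain ⟨δ', hδ'⟩ : ∃ δ' : ℝ, δ' = (δ + 1 / (2 * m + 6)) / 2 := ⟨_, rfl⟩
  have hpos : (0 : ℝ) < 2 * m + 6 := by positivity
  have h1 : δ < 1 / (2 * m + 6) := by
    rw [lt_div_iff₀ hpos]
    exact hδm
  have h2 : δ < δ' := by
    rw [hδ']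
    linarith
  have h3 : δ' < 1 / (2 * m + 6) := by
    rw [hδ']
    linarith
  have h4 : δ' * (2 * m + 6) < 1 := by
    rw [lt_div_iff₀ hpos] at h3
    exact h3
  have h5 : (1 : ℝ) / (2 * m + 6) ≤ 1 / 10 := by
    apply div_le_div_of_nonneg_left <;> linarith
  obtain ⟨C1, hC1, hmain'⟩ := hmain m δ' (by omega) (by linarith) h4
  obtain ⟨C2, hC2, hlow'⟩ := hlow (m + 1)
  obtain ⟨γ, hγ⟩ : ∃ γ : ℝ, γ = (δ' - δ) / m := ⟨_, rfl⟩
  have hγ0 : 0 < γ := by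
    rw [hγ]
    apply div_pos <;> linarith
  obtain ⟨C3, hC3, hgap⟩ := gap_le m (by omega) hγ0
  refine ⟨C2 * (C3 ^ m * (2 * C1)) + Real.sqrt (m + 1), by positivity, ?_⟩
  intro M0 c M hM0 hM
  have hMn : 0 ≤ M := (abs_nonneg _).trans (hM 0)
  have hM0' : (1 : ℝ) ≤ M0 := by exact_mod_cast hM0
  have hexp : (0 : ℝ) ≤ (m : ℝ) / 2 - δ := by linarith
  have hcast : ((2 * M0 : ℕ) : ℝ) = 2 * M0 := by push_cast; ring
  have hM2 : (M0 : ℝ) + 1 ≤ ((2 * M0 : ℕ) : ℝ) := by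
    rw [hcast]
    linarith
  have hpw : ((M0 : ℝ) + 1) ^ ((m : ℝ) / 2 - δ) ≤ ((2 * M0 : ℕ) : ℝ) ^ ((m : ℝ) / 2 - δ) :=
    Real.rpow_le_rpow (by positivity) hM2 hexp
  -- the interior blocks
  have hint : ∑ l ∈ (Finset.Nat.antidiagonalTuple (m + 1) M0).filter (fun l => ∀ j, 1 ≤ l j),
      S1 (PT (N := 2 ^ (2 * M0 + 3)) (blkD l) c) ≤
      C2 * (C3 ^ m * (2 * C1)) * ((2 * M0 : ℕ) : ℝ) ^ ((m : ℝ) / 2 - δ) * M *
        (2 ^ (2 * M0 + 3)) ^ (m + 1) := by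
    calc _ ≤ ∑ l ∈ (Finset.Nat.antidiagonalTuple (m + 1) M0).filter (fun l => ∀ j, 1 ≤ l j),
          C2 * S1 (Dd (2 * M0 + 3) (fun j => 2 * l j) (FmD (m + 1) M0 c)) := by
          refine sum_le_sum fun l hl => ?_
          rw [mem_filter] at hl
          exact hlow' M0 l c hl.1 hl.2
      _ ≤ ∑ l ∈ Finset.Nat.antidiagonalTuple (m + 1) M0,
          C2 * S1 (Dd (2 * M0 + 3) (fun j => 2 * l j) (FmD (m + 1) M0 c)) :=
          sum_le_sum_of_subset_of_nonneg (filter_subset _ _)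
            fun _ _ _ => mul_nonneg hC2.le (S1_nonneg _)
      _ = C2 * ∑ l ∈ Finset.Nat.antidiagonalTuple (m + 1) M0,
          S1 (Dd (2 * M0 + 3) (fun j => 2 * l j) (FmD (m + 1) M0 c)) := by rw [mul_sum]
      _ ≤ C2 * ((gap m M0 : ℝ) ^ m *
          (2 * C1 * ((M0 : ℝ) + 1) ^ ((m : ℝ) / 2 - δ') * M * (2 ^ (2 * M0 + 3)) ^ (m + 1))) :=
          mul_le_mul_of_nonneg_left
            (classes_le hC1 (by linarith) hmain' hsmall htra M0 c M hM hMn) hC2.le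
      _ ≤ C2 * ((C3 * ((M0 : ℝ) + 1) ^ γ) ^ m *
          (2 * C1 * ((M0 : ℝ) + 1) ^ ((m : ℝ) / 2 - δ') * M * (2 ^ (2 * M0 + 3)) ^ (m + 1))) := by
          have := hgap M0
          gcongr
      _ = C2 * (C3 ^ m * (2 * C1)) * (((M0 : ℝ) + 1) ^ (γ * m) *
          ((M0 : ℝ) + 1) ^ ((m : ℝ) / 2 - δ')) * M * (2 ^ (2 * M0 + 3)) ^ (m + 1) := by
          rw [mul_pow, Real.rpow_mul (by positivity), Real.rpow_natCast]
          ring
      _ = C2 * (C3 ^ m * (2 * C1)) * ((M0 : ℝ) + 1) ^ ((m : ℝ) / 2 - δ) * M *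
          (2 ^ (2 * M0 + 3)) ^ (m + 1) := by
          rw [← Real.rpow_add (by positivity)]
          congr 4
          rw [hγ]
          field_simp
          ring
      _ ≤ _ := by gcongr
  -- the boundary blocks
  have hbd := boundary hpar m M0 (by omega) c M hM hMn
  have hsq : Real.sqrt ((m + 1) * (M0 + 1) ^ (m - 1)) ≤
      Real.sqrt (m + 1) * ((2 * M0 : ℕ) : ℝ) ^ ((m : ℝ) / 2 - δ) := by
    rw [Real.sqrt_mul (by positivity)]
    refine mul_le_mul_of_nonneg_left ?_ (Real.sqrt_nonneg _)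
    refine le_trans ?_ hpw
    rw [Real.sqrt_eq_rpow, ← Real.rpow_natCast, ← Real.rpow_mul (by positivity)]
    refine Real.rpow_le_rpow_of_exponent_le (by linarith) ?_
    have : ((m - 1 : ℕ) : ℝ) = m - 1 := by
      rw [Nat.cast_sub (by omega)]
      norm_num
    rw [this]
    linarith
  have hsplit := Finset.sum_filter_add_sum_filter_not (Finset.Nat.antidiagonalTuple (m + 1) M0)
    (fun l => ∀ j, 1 ≤ l j) (fun l => S1 (PT (N := 2 ^ (2 * M0 + 3)) (blkD l) c))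
  rw [← hsplit]
  calc _ ≤ C2 * (C3 ^ m * (2 * C1)) * ((2 * M0 : ℕ) : ℝ) ^ ((m : ℝ) / 2 - δ) * M *
        (2 ^ (2 * M0 + 3)) ^ (m + 1) +
        Real.sqrt (m + 1) * ((2 * M0 : ℕ) : ℝ) ^ ((m : ℝ) / 2 - δ) *
          (M * (2 ^ (2 * M0 + 3)) ^ (m + 1)) :=
        add_le_add hint (hbd.trans (mul_le_mul_of_nonneg_right hsq (by positivity)))
    _ = _ := by ring

end Pool.Agent.SBD
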