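import Pool.Agent.Lib.MP_a7b2aa_an.SBD.Stmts30
import Pool.Agent.Lib.MP_a7b2aa_an.SBT.Eyb33

/-!
SBD, module EEB: basic facts on the averages `EE`.
-/

set_option autoImplicit false

namespace Pool.Agent.SBD

open Finset Pool.Agent.SB3 Pool.Agent.SBT

section one

variable {L : ℕ}

/-- one string kernel -/
noncomputable def k36 (i : ℕ) (y' y : Y L) : ℝ := if pre i y' = pre i y then 1 / 2 ^ (L - i) else 0

theorem k36_nonneg (i : ℕ) (y' y : Y L) : 0 ≤ k36 i y' y := by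
  unfold k36
  split_ifs <;> positivity

theorem k36_symm (i : ℕ) (y' y : Y L) : k36 i y' y = k36 i y y' := by
  unfold k36
  simp only [eq_comm]

theorem k36_sum (i : ℕ) (y : Y L) : ∑ y', k36 i y' y = 1 := by
  have h := Ey_mea33 (L := L) (fun _ => (1 : ℝ)) L i (by omega) (fun _ _ _ => rfl) y
  rw [← h, Ey, Finset.sum_div]
  refine Finset.sum_congr rfl fun y' _ => ?_
  unfold k36
  split_ifs <;> simp

theorem k36_comp_aux {i j : ℕ} (hij : i ≤ j) (y'' y : Y L) :
    ∑ y', k36 i y' y * k36 j y'' y' = k36 i y'' y := by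
  have h1 : ∀ y' : Y L, k36 i y' y * k36 j y'' y' = k36 i y'' y * k36 j y' y'' := by
    intro y'
    by_cases h : pre j y'' = pre j y'
    · have h2 : pre i y'' = pre i y' := pre_mono33 hij h
      rw [k36_symm j y'' y']
      congr 1
      unfold k36
      rw [h2]
    · rw [k36_symm j y' y'']
      have h3 : k36 j y'' y' = 0 := if_neg h
      rw [h3, mul_zero, mul_zero]
  rw [Finset.sum_congr rfl fun y' _ => h1 y', ← Finset.mul_sum, k36_sum, mul_one]

theorem k36_comp (i j : ℕ) (y'' y : Y L) :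
    ∑ y', k36 i y' y * k36 j y'' y' = k36 (min i j) y'' y := by
  rcases le_total i j with h | h
  · rw [min_eq_left h, k36_comp_aux h]
  · rw [min_eq_right h, k36_symm j y'' y, ← k36_comp_aux h y y'']
    refine Finset.sum_congr rfl fun y' _ => ?_
    rw [mul_comm, k36_symm i y' y, k36_symm j y'' y']

theorem k36_step {i : ℕ} (hi : i < L) (y' y : Y L) :
    k36 (i + 1) y' y - k36 i y' y = sgr (bit y i) * sgr (bit y' i) * k36 i y' y := by
  have h1 : pre (i + 1) y' = pre (i + 1) y ↔ pre i y' = pre i y ∧ bit y' i = bit y i := by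
    constructor
    · intro h
      exact ⟨pre_mono33 (Nat.le_succ i) h, bit_of_pre33 (Nat.lt_succ_self i) h⟩
    · rintro ⟨h2, h3⟩
      rw [pre_iff33] at h2 ⊢
      intro j hj
      rcases Nat.lt_succ_iff_lt_or_eq.1 hj with h4 | h4
      · exact h2 j h4
      · unfold bit at h3
        rw [dif_pos hi, dif_pos hi] at h3
        have h5 : j = ⟨i, hi⟩ := Fin.ext h4
        rw [h5]
        exact h3
  have h2 : L - i = (L - (i + 1)) + 1 := by omega
  unfold k36
  by_cases h3 : pre i y' = pre i y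
  · rw [if_pos h3]
    by_cases h4 : bit y' i = bit y i
    · rw [if_pos (h1.2 ⟨h3, h4⟩), h4, sgr_sq33, h2, pow_succ]
      field_simp
      ring
    · rw [if_neg (fun h => h4 (h1.1 h).2)]
      have h5 : bit y' i = !(bit y i) := by
        cases h6 : bit y' i <;> cases h7 : bit y i <;> simp_all
      rw [h5, sgr_not33, mul_neg, sgr_sq33]
      ring
  · rw [if_neg h3, if_neg (fun h => h3 (h1.1 h).1)]
    ring

end one

section many

variable {m L : ℕ}

theorem cl_symm36 {q : Fin (m + 1) → ℕ} {ω' ω : Pt m L} (h : cl q ω' ω) : cl q ω ω' :=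
  fun a => (h a).symm

theorem cl_trans36 {q : Fin (m + 1) → ℕ} {ω₁ ω₂ ω₃ : Pt m L} (h : cl q ω₁ ω₂) (h' : cl q ω₂ ω₃) :
    cl q ω₁ ω₃ :=
  fun a => (h a).trans (h' a)

/-- the kernel -/
noncomputable def KK36 (q : Fin (m + 1) → ℕ) (ω' ω : Pt m L) : ℝ := ∏ a, k36 (q a) (ω' a) (ω a)

theorem KK36_nonneg (q : Fin (m + 1) → ℕ) (ω' ω : Pt m L) : 0 ≤ KK36 q ω' ω :=
  Finset.prod_nonneg fun _ _ => k36_nonneg _ _ _

theorem KK36_symm (q : Fin (m + 1) → ℕ) (ω' ω : Pt m L) : KK36 q ω' ω = KK36 q ω ω' :=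
  Finset.prod_congr rfl fun _ _ => k36_symm _ _ _

theorem KK36_eq (q : Fin (m + 1) → ℕ) (ω' ω : Pt m L) :
    KK36 q ω' ω = if cl q ω' ω then 1 / 2 ^ (∑ a, (L - q a)) else 0 := by
  unfold KK36
  by_cases h : cl q ω' ω
  · rw [if_pos h, ← Finset.prod_pow_eq_pow_sum, one_div, ← Finset.prod_inv_distrib]
    refine Finset.prod_congr rfl fun a _ => ?_
    rw [k36, if_pos (h a), one_div]
  · rw [if_neg h]
    unfold cl at h
    push Not at h
    obtain ⟨a, ha⟩ := h
    exact Finset.prod_eq_zero (Finset.mem_univ a) (if_neg ha)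

theorem KK36_zero {q : Fin (m + 1) → ℕ} {ω' ω : Pt m L} (h : ¬ cl q ω' ω) : KK36 q ω' ω = 0 := by
  rw [KK36_eq, if_neg h]

theorem EE_eq36 (q : Fin (m + 1) → ℕ) (φ : Pt m L → ℝ) (ω : Pt m L) :
    EE q φ ω = ∑ ω', KK36 q ω' ω * φ ω' := by
  unfold EE
  rw [Finset.sum_div]
  refine Finset.sum_congr rfl fun ω' _ => ?_
  rw [KK36_eq]
  split_ifs
  · rw [one_div, div_eq_mul_inv, mul_comm]
  · simp

theorem sum_prod36 (f : Fin (m + 1) → Y L → ℝ) :
    ∑ ω : Pt m L, ∏ a, f a (ω a) = ∏ a, ∑ y, f a y := by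
  rw [Finset.prod_univ_sum, Fintype.piFinset_univ]

theorem KK36_sum (q : Fin (m + 1) → ℕ) (ω : Pt m L) : ∑ ω', KK36 q ω' ω = 1 := by
  unfold KK36
  rw [sum_prod36 (fun a y => k36 (q a) y (ω a))]
  exact Finset.prod_eq_one fun a _ => k36_sum _ _

theorem KK36_comp (q q' : Fin (m + 1) → ℕ) (ω'' ω : Pt m L) :
    ∑ ω', KK36 q ω' ω * KK36 q' ω'' ω' = KK36 (fun a => min (q a) (q' a)) ω'' ω := by
  unfold KK36
  have h : ∀ ω' : Pt m L, (∏ a, k36 (q a) (ω' a) (ω a)) * ∏ a, k36 (q' a) (ω'' a) (ω' a) =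
      ∏ a, (fun a y => k36 (q a) y (ω a) * k36 (q' a) (ω'' a) y) a (ω' a) := fun ω' => by
    rw [← Finset.prod_mul_distrib]
  rw [Finset.sum_congr rfl fun ω' _ => h ω',
    sum_prod36 (fun a y => k36 (q a) y (ω a) * k36 (q' a) (ω'' a) y)]
  exact Finset.prod_congr rfl fun a _ => k36_comp _ _ _ _

theorem EE_const36 (q : Fin (m + 1) → ℕ) (c : ℝ) (ω : Pt m L) : EE q (fun _ => c) ω = c := by
  rw [EE_eq36, ← Finset.sum_mul, KK36_sum, one_mul]

theorem EE_pull36 (q : Fin (m + 1) → ℕ) (φ ψ : Pt m L → ℝ) (h : Ms q φ) (ω : Pt m L) :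
    EE q (fun ω' => φ ω' * ψ ω') ω = φ ω * EE q ψ ω := by
  rw [EE_eq36, EE_eq36, Finset.mul_sum]
  refine Finset.sum_congr rfl fun ω' _ => ?_
  by_cases h1 : cl q ω' ω
  · rw [h ω ω' h1]
    ring
  · rw [KK36_zero h1]
    ring

theorem EE_adj36 (q : Fin (m + 1) → ℕ) (φ ψ : Pt m L → ℝ) :
    Av (fun ω => ψ ω * EE q φ ω) = Av (fun ω => EE q ψ ω * φ ω) := by
  unfold Av
  congr 1
  simp only [EE_eq36, Finset.mul_sum, Finset.sum_mul]
  rw [Finset.sum_comm]
  refine Finset.sum_congr rfl fun ω _ => Finset.sum_congr rfl fun ω' _ => ?_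
  rw [KK36_symm q ω' ω]
  ring

theorem EE_sq36 (q : Fin (m + 1) → ℕ) (φ : Pt m L → ℝ) (ω : Pt m L) :
    EE q φ ω ^ 2 ≤ EE q (fun ω' => φ ω' ^ 2) ω := by
  set c := EE q φ ω with hc
  have h0 : 0 ≤ ∑ ω', KK36 q ω' ω * (φ ω' - c) ^ 2 :=
    Finset.sum_nonneg fun ω' _ => mul_nonneg (KK36_nonneg _ _ _) (sq_nonneg _)
  have h1 : ∑ ω', KK36 q ω' ω * (φ ω' - c) ^ 2 =
      ∑ ω', KK36 q ω' ω * φ ω' ^ 2 - 2 * c * ∑ ω', KK36 q ω' ω * φ ω' +
        c ^ 2 * ∑ ω', KK36 q ω' ω := by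
    rw [Finset.mul_sum, Finset.mul_sum, ← Finset.sum_sub_distrib, ← Finset.sum_add_distrib]
    refine Finset.sum_congr rfl fun ω' _ => ?_
    ring
  rw [h1, KK36_sum, ← EE_eq36 q φ ω, ← hc, ← EE_eq36 q (fun ω' => φ ω' ^ 2) ω] at h0
  nlinarith

theorem eeb_36 : StEeb := by
  intro m L
  refine ⟨?_, ?_, EE_pull36, ?_, EE_adj36, ?_, ?_, EE_const36, EE_sq36, ?_, ?_, ?_, ?_, ?_⟩
  · -- ms
    intro q φ ω ω' h
    unfold EE
    congr 1
    refine Finset.sum_congr rfl fun ω'' _ => ?_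
    refine if_congr ⟨fun h1 => cl_trans36 h1 h, fun h1 => cl_trans36 h1 (cl_symm36 h)⟩ rfl rfl
  · -- idem
    intro q φ h ω
    have h1 := EE_pull36 q φ (fun _ => 1) h ω
    rw [EE_const36, mul_one] at h1
    simpa using h1
  · -- comp
    intro q q' φ ω
    rw [EE_eq36, EE_eq36]
    simp only [EE_eq36, Finset.mul_sum]
    rw [Finset.sum_comm]
    refine Finset.sum_congr rfl fun ω'' _ => ?_
    rw [← KK36_comp q q' ω'' ω, Finset.sum_mul]
    refine Finset.sum_congr rfl fun ω' _ => ?_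
    ring
  · -- mean
    intro q φ
    have h1 := EE_adj36 q φ (fun _ => (1 : ℝ))
    have h2 : (fun ω : Pt m L => EE q (fun _ => (1 : ℝ)) ω * φ ω) = φ := by
      funext ω
      rw [EE_const36, one_mul]
    rw [h2] at h1
    rw [← h1]
    congr 1
    funext ω
    rw [one_mul]
  · -- mono
    intro q φ ψ h ω
    rw [EE_eq36, EE_eq36]
    exact Finset.sum_le_sum fun ω' _ => mul_le_mul_of_nonneg_left (h ω') (KK36_nonneg _ _ _)
  · -- abs
    intro q φ ω
    rw [EE_eq36, EE_eq36]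
    refine (Finset.abs_sum_le_sum_abs _ _).trans (le_of_eq ?_)
    refine Finset.sum_congr rfl fun ω' _ => ?_
    rw [abs_mul, abs_of_nonneg (KK36_nonneg _ _ _)]
  · -- add
    intro q φ ψ ω
    rw [EE_eq36, EE_eq36, EE_eq36, ← Finset.sum_add_distrib]
    exact Finset.sum_congr rfl fun ω' _ => mul_add _ _ _
  · -- smul
    intro q c φ ω
    rw [EE_eq36, EE_eq36, Finset.mul_sum]
    refine Finset.sum_congr rfl fun ω' _ => ?_
    ring
  · -- sum
    intro q s φ ω
    simp only [EE_eq36, Finset.mul_sum]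
    rw [Finset.sum_comm]
  · -- step
    intro q a φ ω hq
    rw [EE_eq36, EE_eq36, EE_eq36, Finset.mul_sum, ← Finset.sum_sub_distrib]
    refine Finset.sum_congr rfl fun ω' _ => ?_
    have h1 : KK36 (Function.update q a (q a + 1)) ω' ω - KK36 q ω' ω =
        sb a (q a) ω * sb a (q a) ω' * KK36 q ω' ω := by
      unfold KK36
      rw [← Finset.mul_prod_erase Finset.univ _ (Finset.mem_univ a),
        ← Finset.mul_prod_erase Finset.univ (fun b => k36 (q b) (ω' b) (ω b)) (Finset.mem_univ a)]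
      have h2 : ∏ b ∈ Finset.univ.erase a, k36 (Function.update q a (q a + 1) b) (ω' b) (ω b) =
          ∏ b ∈ Finset.univ.erase a, k36 (q b) (ω' b) (ω b) := by
        refine Finset.prod_congr rfl fun b hb => ?_
        rw [Function.update_of_ne (Finset.ne_of_mem_erase hb)]
      rw [h2, Function.update_self, ← sub_mul, k36_step hq]
      unfold sb
      ring
    have h2 : KK36 (Function.update q a (q a + 1)) ω' ω * φ ω' - KK36 q ω' ω * φ ω' =
        (KK36 (Function.update q a (q a + 1)) ω' ω - KK36 q ω' ω) * φ ω' := by ring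
    rw [h2, h1]
    ring

end many

end Pool.Agent.SBD
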