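import Pool.Agent.Lib.MP_a7b2aa_an.SBD.Base30
import Pool.Agent.Lib.MP_a7b2aa_an.SB30.OneVar3

/-!
SBD, module ENT (helper3): the exponential moment of the sum of the squares of the biases.
-/

set_option autoImplicit false

namespace Pool.Agent.SBD

open Finset Pool.Agent.SB3 Pool.Agent.SBT

namespace E3

/-- Fubini: the string `a` first -/
theorem sum_ins {m L : ℕ} (a : Fin (m + 1)) (f : Pt m L → ℝ) :
    ∑ ω, f ω = ∑ z : Fin m → Y L, ∑ y : Y L, f (a.insertNth y z) := by
  rw [← (Fin.insertNthEquiv (fun _ => Y L) a).sum_comp, Fintype.sum_prod_type, sum_comm]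
  rfl

theorem bt_eq {L : ℕ} (y : Y L) (t : ℕ) : SB30.bt y t = bit y t := rfl

theorem sg_eq {L : ℕ} (y : Y L) (t : ℕ) : SB30.sg y t = -sgr (bit y t) := by
  unfold SB30.sg sgr
  rw [bt_eq]
  cases bit y t <;> simp

theorem ag_iff {L : ℕ} (p : ℕ) (y y' : Y L) : SB30.Ag p y y' ↔ pre p y' = pre p y := by
  rw [pre_iff33]
  unfold SB30.Ag
  constructor
  · intro h j hj
    have := h j hj
    rw [bt_eq, bt_eq] at this
    unfold bit at this
    rw [dif_pos j.2, dif_pos j.2] at this
    exact this.symm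
  · intro h r hr
    rw [bt_eq, bt_eq]
    unfold bit
    by_cases hj : r < L
    · rw [dif_pos hj, dif_pos hj]
      exact (h ⟨r, hj⟩ hr).symm
    · rw [dif_neg hj, dif_neg hj]

theorem cl_ins {m L : ℕ} (a : Fin (m + 1)) (t : ℕ) (y y' : Y L) (z z' : Fin m → Y L) :
    cl (one L a t) (a.insertNth y' z' : Pt m L) (a.insertNth y z : Pt m L) ↔
      pre t y' = pre t y ∧ z' = z := by
  rw [cl_one_iff]
  constructor
  · rintro ⟨h1, h2⟩
    refine ⟨by simpa using h1, ?_⟩
    funext b
    have := h2 (a.succAbove b) (Fin.succAbove_ne a b)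
    simpa using this
  · rintro ⟨h1, rfl⟩
    refine ⟨by simpa using h1, ?_⟩
    intro b hb
    obtain ⟨c, rfl⟩ := Fin.exists_succAbove_eq hb
    simp

theorem EE_ins {m L : ℕ} (a : Fin (m + 1)) (t : ℕ) (φ : Pt m L → ℝ) (y : Y L)
    (z : Fin m → Y L) :
    EE (one L a t) φ (a.insertNth y z) =
      SB30.cs (fun y' : Y L => φ (a.insertNth y' z)) t y / 2 ^ (∑ b, (L - one L a t b)) := by
  unfold EE SB30.cs
  rw [sum_ins a]
  congr 1
  rw [Finset.sum_eq_single z]
  · refine sum_congr rfl fun y' _ => ?_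
    by_cases h : SB30.Ag t y y'
    · rw [if_pos h, if_pos ((cl_ins a t y y' z z).2 ⟨(ag_iff t y y').1 h, rfl⟩)]
    · rw [if_neg h, if_neg]
      intro h'
      exact h ((ag_iff t y y').2 ((cl_ins a t y y' z z).1 h').1)
  · intro z' _ hz'
    refine sum_eq_zero fun y' _ => ?_
    rw [if_neg]
    intro h'
    exact hz' ((cl_ins a t y y' z z').1 h').2
  · intro h
    exact absurd (mem_univ z) h

theorem sb_ins {m L : ℕ} (a : Fin (m + 1)) (t : ℕ) (y : Y L) (z : Fin m → Y L) :
    sb a t (a.insertNth y z : Pt m L) = -SB30.sg y t := by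
  unfold sb
  rw [sg_eq, neg_neg]
  congr 2
  simp

theorem al_ins {m L : ℕ} (ρ : Pt m L → ℝ) (a : Fin (m + 1)) (t : ℕ) (c : ℝ) (hc : c ≠ 0)
    (y : Y L) (z : Fin m → Y L) :
    al ρ a t (a.insertNth y z) ^ 2 =
      SB30.al (fun y' : Y L => c * ρ (a.insertNth y' z)) t y ^ 2 := by
  have h1 : al ρ a t (a.insertNth y z) =
      -SB30.al (fun y' : Y L => c * ρ (a.insertNth y' z)) t y := by
    unfold al SB30.al
    rw [EE_ins, EE_ins, div_div_div_cancel_right₀ (by positivity)]
    have e1 : SB30.cs (fun y' : Y L => ρ (a.insertNth y' z) *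
        sb a t (a.insertNth y' z : Pt m L)) t y =
        -(1 / c) * SB30.cs (fun y' : Y L => c * ρ (a.insertNth y' z) * SB30.sg y' t) t y := by
      unfold SB30.cs
      rw [mul_sum]
      refine sum_congr rfl fun y' _ => ?_
      split_ifs
      · beta_reduce
        rw [sb_ins]
        field_simp
      · simp
    have e2 : SB30.cs (fun y' : Y L => ρ (a.insertNth y' z)) t y =
        (1 / c) * SB30.cs (fun y' : Y L => c * ρ (a.insertNth y' z)) t y := by
      unfold SB30.cs
      rw [mul_sum]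
      refine sum_congr rfl fun y' _ => ?_
      split_ifs
      · field_simp
      · simp
    rw [e1, e2, neg_mul, neg_div, mul_div_mul_left _ _ (one_div_ne_zero hc)]
  rw [h1, neg_sq]

theorem sum_sqrt {α : Type*} [Fintype α] (f : α → ℝ) (hf : ∀ a, 0 ≤ f a) :
    ∑ a, Real.sqrt (f a) ≤ Real.sqrt (Fintype.card α) * Real.sqrt (∑ a, f a) := by
  rw [← Real.sqrt_mul (by positivity)]
  refine Real.le_sqrt_of_sq_le ?_
  have := sq_sum_le_card_mul_sum_sq (s := (univ : Finset α)) (f := fun a => Real.sqrt (f a))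
  simp only [Real.sq_sqrt (hf _), card_univ] at this
  exact this

end E3

open E3

theorem ent_3 : StEnt := by
  intro m L k ρ a hρ
  have hek := Real.exp_pos (-k)
  set w : (Fin m → Y L) → Y L → ℝ := fun z y => Real.exp (-k) * ρ (a.insertNth y z) with hw
  have hw0 : ∀ z y, 0 ≤ w z y := fun z y => mul_nonneg hek.le (hρ.nonneg _)
  have hw1 : ∀ z y, w z y ≤ 1 := by
    intro z y
    have := mul_le_mul_of_nonneg_left (hρ.le (a.insertNth y z)) hek.le
    rwa [← Real.exp_add, neg_add_cancel, Real.exp_zero] at this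
  set N : ℝ := 2 ^ ((m + 1) * L) with hN
  have hNpos : 0 < N := by positivity
  -- the total mass
  have hmass : ∑ z : Fin m → Y L, ∑ y : Y L, w z y = Real.exp (-k) * N := by
    have h1 := hρ.mean
    unfold Av at h1
    rw [div_eq_one_iff_eq hNpos.ne'] at h1
    rw [← h1, sum_ins a, mul_sum]
    refine sum_congr rfl fun z _ => ?_
    rw [mul_sum]
  -- the exponential moment on each fibre
  have hfib : ∀ z, ∑ y, w z y * Real.exp (A2 ρ a (a.insertNth y z) / 8) ≤
      Real.sqrt (2 ^ L) * Real.sqrt (∑ y, w z y) := by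
    intro z
    have h1 := SB30.e1_3 L (w z) (hw0 z) (hw1 z)
    have h2 : ∀ y, A2 ρ a (a.insertNth y z) = ∑ p ∈ range L, SB30.al (w z) p y ^ 2 := by
      intro y
      unfold A2
      refine sum_congr rfl fun t _ => ?_
      exact al_ins ρ a t (Real.exp (-k)) hek.ne' y z
    simp_rw [h2]
    exact h1
  have hsum : Real.exp (-k) * ∑ ω, ρ ω * Real.exp (A2 ρ a ω / 8) ≤
      Real.exp (-k / 2) * N := by
    rw [sum_ins a, mul_sum]
    calc ∑ z : Fin m → Y L, Real.exp (-k) * ∑ y : Y L, ρ (a.insertNth y z) *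
            Real.exp (A2 ρ a (a.insertNth y z) / 8)
        = ∑ z : Fin m → Y L, ∑ y, w z y * Real.exp (A2 ρ a (a.insertNth y z) / 8) := by
          refine sum_congr rfl fun z _ => ?_
          rw [mul_sum]
          refine sum_congr rfl fun y _ => ?_
          rw [hw]
          ring
      _ ≤ ∑ z : Fin m → Y L, Real.sqrt (2 ^ L) * Real.sqrt (∑ y, w z y) :=
          sum_le_sum fun z _ => hfib z
      _ = Real.sqrt (2 ^ L) * ∑ z : Fin m → Y L, Real.sqrt (∑ y, w z y) := by rw [mul_sum]
      _ ≤ Real.sqrt (2 ^ L) * (Real.sqrt (Fintype.card (Fin m → Y L)) *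
            Real.sqrt (∑ z : Fin m → Y L, ∑ y, w z y)) :=
          mul_le_mul_of_nonneg_left
            (sum_sqrt _ fun z => sum_nonneg fun y _ => hw0 z y) (Real.sqrt_nonneg _)
      _ = Real.exp (-k / 2) * N := by
          have hc : (Fintype.card (Fin m → Y L) : ℝ) = 2 ^ (m * L) := by
            rw [Fintype.card_fun, Fintype.card_fun, Fintype.card_bool, Fintype.card_fin,
              Fintype.card_fin, ← pow_mul, mul_comm]
            push_cast
            rfl
          have hek2 : Real.exp (-k / 2) = Real.sqrt (Real.exp (-k)) := by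
            rw [Real.sqrt_eq_rpow, ← Real.exp_mul]
            congr 1; ring
          rw [hmass, hc, ← mul_assoc, ← Real.sqrt_mul (by positivity), ← pow_add,
            Real.sqrt_mul hek.le, hek2]
          have e3 : (2 : ℝ) ^ (L + m * L) = N := by
            rw [hN]
            congr 1
            ring
          rw [e3]
          have e4 : Real.sqrt N * (Real.sqrt (Real.exp (-k)) * Real.sqrt N) =
              Real.sqrt (Real.exp (-k)) * (Real.sqrt N * Real.sqrt N) := by ring
          rw [e4, Real.mul_self_sqrt hNpos.le]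
  unfold Ex Av
  rw [div_le_iff₀ hNpos]
  have h3 := mul_le_mul_of_nonneg_left hsum (Real.exp_pos k).le
  rw [← mul_assoc, ← mul_assoc, ← Real.exp_add, ← Real.exp_add, add_neg_cancel, Real.exp_zero,
    one_mul] at h3
  have h4 : k + -k / 2 = k / 2 := by ring
  rw [h4] at h3
  exact h3

end Pool.Agent.SBD
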