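import Pool.Agent.Lib.MP_a7b2aa_an.SBD.Stmts30
import Pool.Agent.Lib.MP_a7b2aa_an.SBT.Finals30

/-!
SBD, module FINALD: from the discrete torus to the torus.
-/

set_option autoImplicit false

namespace Pool.Agent.SBD

open Finset MeasureTheory Pool.Agent.SB3 Pool.Agent.SBT

/-- coefficients of the translated polynomial, times `w` -/
noncomputable def cv33 {d : ℕ} (v : Fin d → ℝ) (w : ℂ) (c : (Fin d → ℤ) → ℂ) (k : Fin d → ℤ) : ℂ :=
  w * (c k * Complex.exp (Complex.I * ∑ j : Fin d, ((((k j : ℝ) * v j : ℝ)) : ℂ)))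

theorem bpD_grid33 {d N : ℕ} [NeZero N] (c : (Fin d → ℤ) → ℂ) (l : Fin d → ℕ)
    (v : Fin d → ℝ) (w : ℂ) (u : Fin d → ZMod N) :
    (w * bpD c l (fun j => v j + 2 * Real.pi * ((u j).val : ℕ) / N)).re =
      PT (blkD l) (cv33 v w c) u := by
  unfold PT bpD
  congr 1
  rw [mul_sum]
  refine sum_congr rfl fun k _ => ?_
  unfold cv33 ch
  have h2 : ∏ j, (ZMod.stdAddChar ((k j : ZMod N) * u j) : ℂ) =
      Complex.exp (Complex.I * ∑ j : Fin d,
        ((((k j : ℝ) * (2 * Real.pi * ((u j).val : ℕ) / N) : ℝ)) : ℂ)) := by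
    rw [mul_sum, Complex.exp_sum]
    exact prod_congr rfl fun j _ => stdAddChar_val30 _ _
  rw [h2]
  have h3 : Complex.exp (Complex.I * ∑ j : Fin d, ((((k j : ℝ) *
      (v j + 2 * Real.pi * ((u j).val : ℕ) / N) : ℝ)) : ℂ)) =
      Complex.exp (Complex.I * ∑ j : Fin d, ((((k j : ℝ) * v j : ℝ)) : ℂ)) *
      Complex.exp (Complex.I * ∑ j : Fin d,
        ((((k j : ℝ) * (2 * Real.pi * ((u j).val : ℕ) / N) : ℝ)) : ℂ)) := by
    rw [← Complex.exp_add, ← mul_add, ← sum_add_distrib]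
    congr 2
    refine sum_congr rfl fun j _ => ?_
    push_cast
    ring
  rw [h3]
  ring

theorem bpD_cont33 {d : ℕ} (c : (Fin d → ℤ) → ℂ) (l : Fin d → ℕ) : Continuous (bpD c l) := by
  unfold bpD
  fun_prop

theorem bpD_per33 {d : ℕ} (c : (Fin d → ℤ) → ℂ) (l : Fin d → ℕ) (x : Fin d → ℝ) (j : Fin d) :
    bpD c l (Function.update x j (x j + 2 * Real.pi)) = bpD c l x := by
  unfold bpD
  refine sum_congr rfl fun k _ => ?_
  congr 1
  have h1 : ∑ i : Fin d, ((((k i : ℝ) * Function.update x j (x j + 2 * Real.pi) i : ℝ)) : ℂ) =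
      ∑ i : Fin d, ((((k i : ℝ) * x i : ℝ)) : ℂ) + (k j : ℂ) * (2 * Real.pi) := by
    have h2 : ∀ i : Fin d, ((((k i : ℝ) * Function.update x j (x j + 2 * Real.pi) i : ℝ)) : ℂ) =
        ((((k i : ℝ) * x i : ℝ)) : ℂ) + (if i = j then (k j : ℂ) * (2 * Real.pi) else 0) := by
      intro i
      by_cases hi : i = j
      · subst hi
        simp
        ring
      · simp [hi]
    rw [sum_congr rfl fun i _ => h2 i, sum_add_distrib]
    simp
  rw [h1, mul_add, Complex.exp_add]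
  have h3 : Complex.exp (Complex.I * ((k j : ℂ) * (2 * Real.pi))) = 1 := by
    rw [Complex.exp_eq_one_iff]
    exact ⟨k j, by ring⟩
  rw [h3, mul_one]

theorem finald_33 (hD : StDiscD) (hA : StAvgD) : StFinalD := by
  intro m δ hm2 hδ hδm
  obtain ⟨C, hC, hD⟩ := hD m δ hm2 hδ hδm
  refine ⟨1 / (2 * C), by positivity, fun M0 c hm => ?_⟩
  set N : ℕ := 2 ^ (2 * M0 + 3) with hN
  have hN1 : 1 ≤ N := Nat.one_le_two_pow
  have : NeZero N := ⟨by omega⟩
  set A := Finset.Nat.antidiagonalTuple (m + 1) M0 with hAdef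
  set f : (Fin (m + 1) → ℝ) → ℂ := fun x => ∑ l ∈ A, bpD c l x with hf
  set S : ℝ := ⨆ x : Fin (m + 1) → ℝ, ‖f x‖ with hS
  -- boundedness
  have hbd : BddAbove (Set.range fun x : Fin (m + 1) → ℝ => ‖f x‖) := by
    refine ⟨∑ l ∈ A, ∑ k ∈ blkD l, ‖c k‖, ?_⟩
    rintro _ ⟨x, rfl⟩
    refine (norm_sum_le _ _).trans (sum_le_sum fun l _ => ?_)
    unfold bpD
    refine (norm_sum_le _ _).trans (sum_le_sum fun k _ => ?_)
    rw [norm_mul, ← Complex.ofReal_sum, mul_comm Complex.I, Complex.norm_exp_ofReal_mul_I, mul_one]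
  have hfS : ∀ x, ‖f x‖ ≤ S := fun x => le_ciSup hbd x
  have hS0 : 0 ≤ S := (norm_nonneg _).trans (hfS 0)
  -- averaging
  set φ : (Fin (m + 1) → ℝ) → ℝ := fun x => ∑ l ∈ A, ‖bpD c l x‖ with hφ
  have hφc : Continuous φ := continuous_finsetSum _ fun l _ => (bpD_cont33 c l).norm
  obtain ⟨v, hv⟩ := hA (m + 1) N φ hN1 hφc (fun x j => by simp only [hφ, bpD_per33])
  have hnorm : ∑ l ∈ A, nrmD (bpD c l) = (1 / (2 * Real.pi)) ^ (m + 1) *
      (∫ x in Set.pi Set.univ (fun _ : Fin (m + 1) => Set.Icc (0 : ℝ) (2 * Real.pi)), φ x) := by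
    simp only [hφ, nrmD]
    rw [integral_finsetSum, mul_sum]
    intro l _
    exact (bpD_cont33 c l).norm.continuousOn.integrableOn_compact
      (isCompact_univ_pi fun _ => isCompact_Icc)
  rw [← hnorm] at hv
  -- reindexing
  have hre : ∑ g : Fin (m + 1) → Fin N, φ (fun j => v j + 2 * Real.pi * (g j : ℕ) / N) =
      ∑ u : Fin (m + 1) → ZMod N, φ (fun j => v j + 2 * Real.pi * ((u j).val : ℕ) / N) := by
    symm
    refine Fintype.sum_bijective
      (fun u : Fin (m + 1) → ZMod N => fun j => (⟨(u j).val, ZMod.val_lt _⟩ : Fin N))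
      ?_ _ _ (fun u => rfl)
    rw [Fintype.bijective_iff_injective_and_card]
    refine ⟨fun u u' h => ?_, by simp⟩
    funext j
    have := congrFun h j
    simp only [Fin.mk.injEq] at this
    exact ZMod.val_injective N this
  rw [hre] at hv
  -- the two applications
  have hpt : ∀ u : Fin (m + 1) → ZMod N, φ (fun j => v j + 2 * Real.pi * ((u j).val : ℕ) / N) ≤
      ∑ l ∈ A, (|PT (blkD l) (cv33 v 1 c) u| + |PT (blkD l) (cv33 v (-Complex.I) c) u|) := by
    intro u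
    refine sum_le_sum fun l _ => ?_
    rw [← bpD_grid33, ← bpD_grid33]
    refine (Complex.norm_le_abs_re_add_abs_im _).trans (le_of_eq ?_)
    simp
  have hF : ∀ (w : ℂ), ‖w‖ ≤ 1 → ∀ u, |FmD (m + 1) M0 (cv33 v w c) u| ≤ S := by
    intro w hw u
    unfold FmD
    have h1 : ∑ l ∈ Finset.Nat.antidiagonalTuple (m + 1) M0, PT (blkD l) (cv33 v w c) u =
        (w * f (fun j => v j + 2 * Real.pi * ((u j).val : ℕ) / N)).re := by
      simp only [hf]
      rw [mul_sum, Complex.re_sum]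
      exact sum_congr rfl fun l _ => (bpD_grid33 _ _ _ _ _).symm
    rw [h1]
    refine (Complex.abs_re_le_norm _).trans ?_
    rw [norm_mul]
    calc ‖w‖ * _ ≤ 1 * S := mul_le_mul hw (hfS _) (norm_nonneg _) zero_le_one
      _ = S := one_mul S
  have h1 := hD M0 (cv33 v 1 c) S hm (hF 1 (by simp))
  have h2 := hD M0 (cv33 v (-Complex.I) c) S hm (hF (-Complex.I) (by simp))
  have hsum : ∑ u : Fin (m + 1) → ZMod N, φ (fun j => v j + 2 * Real.pi * ((u j).val : ℕ) / N) ≤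
      ∑ l ∈ A, S1 (N := N) (PT (blkD l) (cv33 v 1 c)) +
      ∑ l ∈ A, S1 (N := N) (PT (blkD l) (cv33 v (-Complex.I) c)) := by
    refine (sum_le_sum fun u _ => hpt u).trans (le_of_eq ?_)
    rw [sum_comm, ← sum_add_distrib]
    refine sum_congr rfl fun l _ => ?_
    rw [sum_add_distrib]
    rfl
  have hNpos : (0 : ℝ) < (N : ℝ) ^ (m + 1) := by positivity
  have hNc : ((2 : ℝ) ^ (2 * M0 + 3)) ^ (m + 1) = (N : ℝ) ^ (m + 1) := by rw [hN]; push_cast; ring
  have h3 : (∑ l ∈ A, nrmD (bpD c l)) * (N : ℝ) ^ (m + 1) ≤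
      2 * (C * ((2 * M0 : ℕ) : ℝ) ^ ((m : ℝ) / 2 - δ) * S) * (N : ℝ) ^ (m + 1) := by
    refine hv.trans (hsum.trans ?_)
    rw [hNc] at h1 h2
    linarith
  have h4 := le_of_mul_le_mul_right h3 hNpos
  calc 1 / (2 * C) * ∑ l ∈ A, nrmD (bpD c l)
      ≤ 1 / (2 * C) * (2 * (C * ((2 * M0 : ℕ) : ℝ) ^ ((m : ℝ) / 2 - δ) * S)) :=
        mul_le_mul_of_nonneg_left h4 (by positivity)
    _ = ((2 * M0 : ℕ) : ℝ) ^ ((m : ℝ) / 2 - δ) * S := by
        field_simp

end Pool.Agent.SBD
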