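import Pool.Agent.Lib.MP_a7b2aa_an.SBD.OpD38

/-!
SBD, helper38: the modules LOWD, SUPBD.
-/

set_option autoImplicit false

namespace Pool.Agent.SBD

open Finset Pool.Agent.SB3 Pool.Agent.SBT

/-- LOWD -/
theorem lowD_38 (hE : StExt) (hI : StInv) : StLowD := by
  intro d
  obtain ⟨C, hC, hI⟩ := hI
  refine ⟨C ^ d * 6 ^ d, by positivity, ?_⟩
  intro m l c hl h1
  have hle := antiD_le_38 hl
  choose w hw1 hw2 using fun j : Fin d => ker1_38 hE m (l j) (h1 j) (hle j)
  -- inverse inequality in one direction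
  have inv : ∀ (j : Fin d) (c' : (Fin d → ℤ) → ℂ),
      S1 (PT (N := 2 ^ (2 * m + 3)) (blkD l) c') ≤
        C * S1 (dT j (Hs (2 * m + 3) (2 * l j)) (PT (N := 2 ^ (2 * m + 3)) (blkD l) c')) := by
    intro j c'
    apply hI (Fin d) (2 * m + 3) (2 * l j) j (blkD l) c'
    · have := h1 j
      omega
    · have := hle j
      omega
    · intro k hk
      have h := mem_blkD_38 hk j
      rw [pow_half_38 (l j) (h1 j)] at h
      exact h
  have e1 := inv_list_38 (blkD l) C hC.le (fun j => Hs (2 * m + 3) (2 * l j)) inv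
    (List.finRange d) c
  rw [List.length_finRange] at e1
  simp only [← Fin.prod_univ_def] at e1
  have e2 := extrD_38 m l
    (fun k => c k * ∏ j, md38 (Hs (2 * m + 3) (2 * l j)) (k j)) hl w hw2
  rw [← Dd_FmD_38 m (fun j => 2 * l j) c] at e2
  have e3 := S1_KL_38 w hw1 (List.finRange d)
    (Dd (2 * m + 3) (fun j => 2 * l j) (FmD d m c))
  rw [e2, List.length_finRange] at e3
  calc S1 (PT (N := 2 ^ (2 * m + 3)) (blkD l) c) ≤ _ := e1
    _ ≤ C ^ d * (6 ^ d * S1 (Dd (2 * m + 3) (fun j => 2 * l j) (FmD d m c))) :=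
        mul_le_mul_of_nonneg_left e3 (by positivity)
    _ = _ := by ring

/-- SUPBD -/
theorem supbD_38 (hE : StExt) (hV : StVP) : StSupbD := by
  intro d m l c M hl hM u
  have hle := antiD_le_38 hl
  have hk : ∀ j : Fin d, ∃ w : ZMod (2 ^ (2 * m + 3)) → ℝ, (∑ g, |w g| ≤ 6) ∧
      ∀ l' ≤ m, ∀ t : ℤ, (2 : ℤ) ^ (2 * l') / 2 ≤ |t| → |t| < (2 : ℤ) ^ (2 * l') →
        mu38 w t = if l' = l j then 1 else 0 := by
    intro j
    rcases Nat.eq_zero_or_pos (l j) with h | h
    · rw [h]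
      exact ker0_38 hV m
    · exact ker1_38 hE m (l j) h (hle j)
  choose w hw1 hw2 using hk
  have hex := extrD_38 m l c hl w hw2
  have h := sup_KL_38 w hw1 (List.finRange d) (FmD d m c) M hM u
  rw [hex, List.length_finRange] at h
  exact h

end Pool.Agent.SBD
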