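import Pool.Agent.Lib.MP_a7b2aa_an.SBD.Base30
import Pool.Agent.Lib.MP_a7b2aa_an.SB30.Mom32
import Pool.Agent.Lib.MP_a7b2aa_an.SB30.LK33
import Pool.Agent.Lib.MP_a7b2aa_an.SB30.Tv18

/-!
SBD, module OP (helper60): operator norms of multilinear sign sums of predictable matrices.
-/

set_option autoImplicit false

namespace Pool.Agent.SBD

open Finset Pool.Agent.SB3 Pool.Agent.SBT

namespace OP60

/-! ### norm bounds -/

section nb

variable {κ : Type} [Fintype κ]

theorem NB_mono {A : Matrix κ κ ℝ} {b b' : ℝ} (h : NB A b) (hb : b ≤ b') : NB A b' := by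
  intro u
  refine (h u).trans ?_
  exact mul_le_mul_of_nonneg_right hb (sum_nonneg fun _ _ => sq_nonneg _)

theorem NB_zero {b : ℝ} (hb : 0 ≤ b) : NB (0 : Matrix κ κ ℝ) b := by
  intro u
  have h : ∑ x : κ, (∑ y : κ, (0 : Matrix κ κ ℝ) x y * u y) ^ 2 = 0 := by simp
  rw [h]
  exact mul_nonneg hb (sum_nonneg fun _ _ => sq_nonneg _)

/-- sum of two matrices -/
theorem NB_add {A B : Matrix κ κ ℝ} {a b : ℝ} (hA : NB A a) (hB : NB B b) :
    NB (A + B) (2 * (a + b)) := by
  intro u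
  have h1 := hA u
  have h2 := hB u
  have h3 : ∀ x : κ, (∑ y, (A + B) x y * u y) ^ 2 ≤
      2 * (∑ y, A x y * u y) ^ 2 + 2 * (∑ y, B x y * u y) ^ 2 := by
    intro x
    have e : ∑ y, (A + B) x y * u y = (∑ y, A x y * u y) + ∑ y, B x y * u y := by
      rw [← sum_add_distrib]
      exact sum_congr rfl fun y _ => by rw [Matrix.add_apply]; ring
    rw [e]
    nlinarith [sq_nonneg ((∑ y, A x y * u y) - ∑ y, B x y * u y)]
  calc ∑ x, (∑ y, (A + B) x y * u y) ^ 2 ≤
      ∑ x, (2 * (∑ y, A x y * u y) ^ 2 + 2 * (∑ y, B x y * u y) ^ 2) :=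
        sum_le_sum fun x _ => h3 x
    _ = 2 * ∑ x, (∑ y, A x y * u y) ^ 2 + 2 * ∑ x, (∑ y, B x y * u y) ^ 2 := by
        rw [sum_add_distrib, mul_sum, mul_sum]
    _ ≤ 2 * (a + b) * ∑ y, u y ^ 2 := by nlinarith

/-- weighted sum of matrices -/
theorem NB_drift {L : ℕ} (a : ℕ → ℝ) (A : ℕ → Matrix κ κ ℝ) {b K : ℝ} (hb : 0 ≤ b)
    (hA : ∀ t, NB (A t) b) (hK : ∑ t ∈ range L, a t ^ 2 ≤ K) :
    NB (∑ t ∈ range L, a t • A t) (K * (L * b)) := by
  intro u
  have hU : 0 ≤ ∑ y, u y ^ 2 := sum_nonneg fun _ _ => sq_nonneg _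
  have h1 : ∀ x : κ, (∑ y, (∑ t ∈ range L, a t • A t) x y * u y) ^ 2 ≤
      (∑ t ∈ range L, a t ^ 2) * ∑ t ∈ range L, (∑ y, A t x y * u y) ^ 2 := by
    intro x
    have e : ∑ y, (∑ t ∈ range L, a t • A t) x y * u y =
        ∑ t ∈ range L, a t * ∑ y, A t x y * u y := by
      have e1 : ∀ y, (∑ t ∈ range L, a t • A t) x y * u y =
          ∑ t ∈ range L, a t * (A t x y * u y) := by
        intro y
        rw [Matrix.sum_apply, sum_mul]
        refine sum_congr rfl fun t _ => ?_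
        rw [Matrix.smul_apply, smul_eq_mul]
        ring
      rw [sum_congr rfl fun y _ => e1 y, sum_comm]
      exact sum_congr rfl fun t _ => by rw [mul_sum]
    rw [e]
    exact sum_mul_sq_le_sq_mul_sq _ _ _
  have h2 : ∑ x, ∑ t ∈ range L, (∑ y, A t x y * u y) ^ 2 ≤ (L * b) * ∑ y, u y ^ 2 := by
    rw [sum_comm]
    calc ∑ t ∈ range L, ∑ x, (∑ y, A t x y * u y) ^ 2 ≤ ∑ t ∈ range L, b * ∑ y, u y ^ 2 :=
          sum_le_sum fun t _ => hA t u
      _ = (L * b) * ∑ y, u y ^ 2 := by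
          rw [sum_const, card_range, nsmul_eq_mul]
          ring
  have hK0 : 0 ≤ ∑ t ∈ range L, a t ^ 2 := sum_nonneg fun _ _ => sq_nonneg _
  calc ∑ x, (∑ y, (∑ t ∈ range L, a t • A t) x y * u y) ^ 2 ≤
      ∑ x, (∑ t ∈ range L, a t ^ 2) * ∑ t ∈ range L, (∑ y, A t x y * u y) ^ 2 :=
        sum_le_sum fun x _ => h1 x
    _ = (∑ t ∈ range L, a t ^ 2) * ∑ x, ∑ t ∈ range L, (∑ y, A t x y * u y) ^ 2 := by
        rw [mul_sum]
    _ ≤ (∑ t ∈ range L, a t ^ 2) * ((L * b) * ∑ y, u y ^ 2) :=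
        mul_le_mul_of_nonneg_left h2 hK0
    _ ≤ K * ((L * b) * ∑ y, u y ^ 2) := mul_le_mul_of_nonneg_right hK (by positivity)
    _ = K * (L * b) * ∑ y, u y ^ 2 := by ring

end nb

theorem ex_conv {m L : ℕ} (ρ f : Pt m L → ℝ) :
    SB30.Ex (fun ω => ρ ω / 2 ^ ((m + 1) * L)) f = Ex ρ f := by
  unfold SB30.Ex Ex Av
  rw [sum_div]
  exact sum_congr rfl fun ω _ => by ring

/-- the sign martingale part of one string: for predictable symmetric matrices of norm at most
`b` the norm is at most `L ^ ε L b` -/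
theorem mart (hA : StAlf) (n : ℕ) (ε : ℝ) (hε : 0 < ε) : ∃ C : ℝ, 1 ≤ C ∧
    ∀ (m L : ℕ) (c : Fin (m + 1)) (κ : Type) [Fintype κ] [DecidableEq κ]
    (M : ℕ → Pt m L → Matrix κ κ ℝ) (k b : ℝ) (ρ : Pt m L → ℝ), 1 ≤ L → Law k ρ →
    Fintype.card κ ≤ 2 * L → 0 < b → (∀ t ω, (M t ω).IsSymm) → (∀ t ω, NB (M t ω) b) →
    (∀ t, Ms (one L c t) (M t)) →
    Pr ρ (fun ω => ¬ NB (∑ t ∈ range L, (sb c t ω - al ρ c t ω) • M t ω)
      ((L : ℝ) ^ ε * (L * b))) ≤ C / (L + 1) ^ n := by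
  classical
  obtain ⟨R, hR⟩ := exists_nat_ge ((n + 2 : ℝ) / ε)
  have hRε : (n + 2 : ℝ) ≤ R * ε := by
    rwa [div_le_iff₀ hε] at hR
  have hR1 : 1 ≤ R := by
    rcases Nat.eq_zero_or_pos R with h | h
    · rw [h] at hRε
      have : (0 : ℝ) ≤ n := Nat.cast_nonneg n
      simp at hRε
      linarith
    · exact h
  obtain ⟨A, hA0, hmom⟩ := SB30.mom SB30.lk33 R
  refine ⟨1 + 2 * A * 2 ^ n, by
    have : 0 ≤ 2 * A * 2 ^ n := by positivity
    linarith, ?_⟩
  intro m L c κ _ _ M k b ρ hL hρ hcard hb hsym hNB hMs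
  have hL1 : (1 : ℝ) ≤ L := by exact_mod_cast hL
  have hL0 : (0 : ℝ) < L := by linarith
  have hAl := hA m L k ρ hρ
  set D : ℕ → Pt m L → ℝ := fun t ω => sb c t ω - al ρ c t ω with hD
  have hone : ∀ t a, one (m := m) L c t a ≤ one L c (t + 1) a ∨ L ≤ one L c (t + 1) a := by
    intro t a
    by_cases ha : a = c
    · subst ha
      left
      simp [one]
    · right
      simp [one, Function.update_of_ne ha]
  have hone' : ∀ s t a, s ≤ t → (one (m := m) L c s a ≤ one L c t a ∨ L ≤ one L c t a) := by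
    intro s t a hst
    by_cases ha : a = c
    · subst ha
      left
      simpa [one] using hst
    · right
      simp [one, Function.update_of_ne ha]
  have hsbMs : ∀ t, Ms (one L c (t + 1)) (sb (L := L) c t) := by
    intro t
    exact Ms_sb (by simp [one])
  have halMs : ∀ t, Ms (one L c (t + 1)) (al ρ c t) := fun t =>
    (hAl.ms c t).mono fun a => hone' t (t + 1) a (Nat.le_succ t)
  have hmom' := hmom (Pt m L) κ (fun ω => ρ ω / 2 ^ ((m + 1) * L))
    (fun t x y => cl (one L c t) x y) D M b L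
    (fun ω => div_nonneg (hρ.nonneg ω) (by positivity))
    (by
      have := hρ.mean
      unfold Av at this
      rwa [sum_div] at this)
    (fun t x y h => cl_mono (hone t) h)
    (fun t x y h => by
      show sb c t x - al ρ c t x = sb c t y - al ρ c t y
      rw [hsbMs t y x h, halMs t y x h])
    (fun t ω => by
      have h1 := sb_abs c t ω
      have h2 := hAl.abs c t ω
      have h3 := abs_sub (sb c t ω) (al ρ c t ω)
      show |sb c t ω - al ρ c t ω| ≤ 2
      linarith)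
    (fun t x y h => hMs t y x h)
    (fun t ht X hX => by
      rw [ex_conv]
      have h1 := hAl.ex c t X (fun ω ω' h => hX ω' ω h)
      have h2 : Ex ρ (fun ω => D t ω * X ω) =
          Ex ρ (fun ω => sb c t ω * X ω) - Ex ρ (fun ω => al ρ c t ω * X ω) := by
        rw [← Ex_sub]
        congr 1
        funext ω
        simp only [hD]
        ring
      rw [h2, h1, sub_self])
    (fun t ω => hsym t ω) hb.le
    (fun t _ ω w => hNB t ω w) (range L) subset_rfl
  rw [ex_conv, card_range] at hmom'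
  set S : Pt m L → Matrix κ κ ℝ := fun ω => ∑ t ∈ range L, D t ω • M t ω with hS
  have hSsym : ∀ ω, (S ω).IsSymm := by
    intro ω
    simp only [hS]
    unfold Matrix.IsSymm
    rw [Matrix.transpose_sum]
    apply Finset.sum_congr rfl
    intro q _
    rw [Matrix.transpose_smul, (hsym q ω).eq]
  have hlam := fun ω => SB30.tv18 κ (S ω) R (hSsym ω) hR1
  choose lam hlam0 hlamt hlamv using hlam
  set T : ℝ := (L : ℝ) ^ ε * (L * b) with hT
  have hLε : 0 < (L : ℝ) ^ ε := Real.rpow_pos_of_pos hL0 ε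
  have hT0 : 0 < T := by positivity
  have h1 : Pr ρ (fun ω => ¬ NB (S ω) T) ≤ Pr ρ (fun ω => T ^ R < (S ω ^ (2 * R)).trace) := by
    refine Pr_mono hρ fun ω hω => ?_
    by_contra hcon
    rw [not_lt] at hcon
    apply hω
    have h2 : lam ω ^ R ≤ T ^ R := (hlamt ω).trans hcon
    have h3 : lam ω ≤ T := le_of_pow_le_pow_left₀ (by omega) hT0.le h2
    intro u
    refine (hlamv ω u).trans ?_
    exact mul_le_mul_of_nonneg_right h3 (sum_nonneg fun _ _ => sq_nonneg _)
  have h2 : Pr ρ (fun ω => T ^ R < (S ω ^ (2 * R)).trace) ≤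
      Ex ρ (fun ω => (S ω ^ (2 * R)).trace) / T ^ R := by
    refine Pr_markov hρ (fun ω => (S ω ^ (2 * R)).trace) (fun ω => ?_) (by positivity)
    rw [SB30.TV18.trace_eq (hSsym ω)]
    exact sum_nonneg fun _ _ => sum_nonneg fun _ _ => sq_nonneg _
  have h3 : Ex ρ (fun ω => (S ω ^ (2 * R)).trace) ≤ A * (2 * L) * (b * L) ^ R := by
    refine hmom'.trans ?_
    have : (Fintype.card κ : ℝ) ≤ 2 * L := by exact_mod_cast hcard
    gcongr
  have hTR : T ^ R = ((L : ℝ) ^ ε) ^ R * (b * L) ^ R := by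
    rw [hT, mul_pow, mul_comm (L : ℝ) b]
  have h4 : (L : ℝ) ^ (n + 2) ≤ ((L : ℝ) ^ ε) ^ R := by
    rw [← Real.rpow_natCast ((L : ℝ) ^ ε) R, ← Real.rpow_mul hL0.le, ← Real.rpow_natCast]
    refine Real.rpow_le_rpow_of_exponent_le hL1 ?_
    push_cast
    linarith
  have h5 : Ex ρ (fun ω => (S ω ^ (2 * R)).trace) / T ^ R ≤ 2 * A * 2 ^ n / (L + 1) ^ n := by
    rw [div_le_div_iff₀ (by positivity) (by positivity)]
    have h6 : ((L : ℝ) + 1) ^ n ≤ 2 ^ n * L ^ n := by
      rw [← mul_pow]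
      gcongr
      linarith
    have h7 : (L : ℝ) * L ^ n ≤ ((L : ℝ) ^ ε) ^ R := by
      refine le_trans ?_ h4
      rw [← pow_succ']
      exact pow_le_pow_right₀ hL1 (by omega)
    calc Ex ρ (fun ω => (S ω ^ (2 * R)).trace) * ((L : ℝ) + 1) ^ n
        ≤ (A * (2 * L) * (b * L) ^ R) * (2 ^ n * L ^ n) := by
          refine mul_le_mul h3 h6 (by positivity) (by positivity)
      _ = 2 * A * 2 ^ n * ((L * L ^ n) * (b * L) ^ R) := by ring
      _ ≤ 2 * A * 2 ^ n * (((L : ℝ) ^ ε) ^ R * (b * L) ^ R) := by gcongr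
      _ = 2 * A * 2 ^ n * T ^ R := by rw [hTR]
  refine (h1.trans (h2.trans h5)).trans ?_
  gcongr
  linarith

end OP60

open OP60

/-- Module OP. -/
theorem op_60 (hA : StAlf) (hT : StTail) : StOp := by
  classical
  intro v
  induction v with
  | zero =>
    intro n ε hε
    refine ⟨1, le_rfl, ?_⟩
    intro m L U κ _ _ W k ρ q hL hk hρ hU hcard hsym hNB hMs
    have hU0 : U = ∅ := card_eq_zero.1 hU
    subst hU0
    have h1 : Pr ρ (fun ω => ¬ NB (∑ r ∈ fr L ∅ q, ps ∅ r ω • W r ω)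
        ((1 * L * ((L : ℝ) ^ ε + k)) ^ 0)) ≤ Pr ρ (fun _ => False) := by
      refine Pr_mono hρ fun ω hω => hω ?_
      rw [fr_empty, sum_singleton, pow_zero]
      have : ps (∅ : Finset (Fin (m + 1))) q ω = 1 := by simp [ps]
      rw [this, one_smul]
      exact hNB q ω
    refine h1.trans ?_
    have h2 : Pr ρ (fun _ => False) = 0 := by
      unfold Pr
      simp only [if_false]
      exact Ex_const hρ 0
    rw [h2]
    positivity
  | succ v ih =>
    intro n ε hε
    obtain ⟨C1, hC1, ih⟩ := ih (n + 1) ε hε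
    obtain ⟨C2, hC2, hmart⟩ := mart hA n ε hε
    set E : ℝ := 2 ^ ε / ε with hE
    have hE0 : 0 < E := by
      have : (0 : ℝ) < 2 ^ ε := Real.rpow_pos_of_pos (by norm_num) ε
      positivity
    set C3 : ℝ := 2 * (1 + (4 + 8 * n * E)) with hC3
    have hC30 : 0 ≤ C3 := by positivity
    refine ⟨C1 + C2 + C3 + 1, by linarith, ?_⟩
    intro m L U κ _ _ W k ρ q hL hk hρ hU hcard hsym hNB hMs
    have hL1 : (1 : ℝ) ≤ L := by exact_mod_cast hL
    have hL0 : (0 : ℝ) < L := by linarith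
    have hLε : (1 : ℝ) ≤ (L : ℝ) ^ ε := Real.one_le_rpow hL1 hε.le
    obtain ⟨c, hc⟩ : U.Nonempty := by
      rw [← card_pos]
      omega
    obtain ⟨U', hU', rfl⟩ : ∃ U', c ∉ U' ∧ U = insert c U' :=
      ⟨U.erase c, notMem_erase c U, (insert_erase hc).symm⟩
    have hcU : U'.card = v := by
      rw [card_insert_of_notMem hU'] at hU
      omega
    set b : ℝ := (C1 * L * ((L : ℝ) ^ ε + k)) ^ v with hb
    have hb1 : 1 ≤ C1 * L * ((L : ℝ) ^ ε + k) := by
      have h1 : 1 ≤ C1 * L := one_le_mul_of_one_le_of_one_le hC1 hL1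
      have h2 : 1 ≤ (L : ℝ) ^ ε + k := by linarith
      exact one_le_mul_of_one_le_of_one_le h1 h2
    have hb0 : 0 < b := by positivity
    set W1 : ℕ → Pt m L → Matrix κ κ ℝ := fun t ω =>
      ∑ r ∈ fr L U' (Function.update q c t), ps U' r ω • W r ω with hW1
    have hsum : ∀ ω, ∑ r ∈ fr L (insert c U') q, ps (insert c U') r ω • W r ω =
        ∑ t ∈ range L, sb c t ω • W1 t ω := by
      intro ω
      rw [sum_fr_insert hU']
      refine sum_congr rfl fun t _ => ?_
      rw [hW1, smul_sum]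
      refine sum_congr rfl fun r hr => ?_
      have h1 : r c = t := by
        have := (mem_fr.1 hr).2 c hU'
        simpa using this
      rw [ps_insert hU', h1, mul_smul]
    have hW1sym : ∀ t ω, (W1 t ω).IsSymm := by
      intro t ω
      simp only [hW1]
      unfold Matrix.IsSymm
      rw [Matrix.transpose_sum]
      apply Finset.sum_congr rfl
      intro r _
      rw [Matrix.transpose_smul, (hsym r ω).eq]
    have hW1Ms : ∀ t, Ms (one L c t) (W1 t) := by
      intro t ω ω' hω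
      simp only [hW1]
      refine sum_congr rfl fun r hr => ?_
      have h1 : r c = t := by
        have := (mem_fr.1 hr).2 c hU'
        simpa using this
      have h2 := hMs r c (mem_insert_self c U')
      rw [h1] at h2
      rw [Ms_ps_one hU' r t ω ω' hω, h2 ω ω' hω]
    have hW1NB : ∀ t, Pr ρ (fun ω => ¬ NB (W1 t ω) b) ≤ C1 / (L + 1) ^ (n + 1) := by
      intro t
      exact ih m L U' κ W k ρ (Function.update q c t) hL hk hρ hcU hcard hsym hNB
        (fun r a ha => hMs r a (mem_insert_of_mem ha))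
    set W2 : ℕ → Pt m L → Matrix κ κ ℝ := fun t ω => if NB (W1 t ω) b then W1 t ω else 0 with hW2
    have hW2sym : ∀ t ω, (W2 t ω).IsSymm := by
      intro t ω
      simp only [hW2]
      split_ifs
      · exact hW1sym t ω
      · exact Matrix.isSymm_zero
    have hW2NB : ∀ t ω, NB (W2 t ω) b := by
      intro t ω
      simp only [hW2]
      split_ifs with h
      · exact h
      · exact NB_zero hb0.le
    have hW2Ms : ∀ t, Ms (one L c t) (W2 t) := by
      intro t ω ω' hω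
      simp only [hW2]
      rw [hW1Ms t ω ω' hω]
    have hm := hmart m L c κ W2 k b ρ hL hρ hcard hb0 hW2sym hW2NB hW2Ms
    set K : ℝ := 4 * k + 8 * n * Real.log (L + 1) with hK
    have hlog0 : 0 ≤ Real.log ((L : ℝ) + 1) := Real.log_nonneg (by linarith)
    have hK0 : 0 ≤ K := by positivity
    have htail := (hT m L k ρ hρ).2 c n
    have hlog : Real.log ((L : ℝ) + 1) ≤ E * (L : ℝ) ^ ε := by
      have h1 : Real.log ((L : ℝ) + 1) ≤ ((L : ℝ) + 1) ^ ε / ε :=
        Real.log_le_rpow_div (by linarith) hε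
      have h2 : ((L : ℝ) + 1) ^ ε ≤ 2 ^ ε * (L : ℝ) ^ ε := by
        rw [← Real.mul_rpow (by norm_num) hL0.le]
        exact Real.rpow_le_rpow (by linarith) (by linarith) hε.le
      calc Real.log ((L : ℝ) + 1) ≤ ((L : ℝ) + 1) ^ ε / ε := h1
        _ ≤ 2 ^ ε * (L : ℝ) ^ ε / ε := by gcongr
        _ = E * (L : ℝ) ^ ε := by rw [hE]; ring
    have hKle : K ≤ (4 + 8 * n * E) * ((L : ℝ) ^ ε + k) := by
      have h1 : 8 * n * Real.log ((L : ℝ) + 1) ≤ 8 * n * (E * (L : ℝ) ^ ε) :=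
        mul_le_mul_of_nonneg_left hlog (by positivity)
      have h2 : 0 ≤ 8 * (n : ℝ) * E * k := by positivity
      have h3 : 0 ≤ 4 * (L : ℝ) ^ ε := by positivity
      rw [hK]
      nlinarith
    have hbig : 2 * ((L : ℝ) ^ ε * (L * b) + K * (L * b)) ≤
        ((C1 + C2 + C3 + 1) * L * ((L : ℝ) ^ ε + k)) ^ (v + 1) := by
      have hLb : 0 ≤ L * b := by positivity
      have h1 : 2 * ((L : ℝ) ^ ε * (L * b) + K * (L * b)) ≤
          (C3 * ((L : ℝ) ^ ε + k)) * (L * b) := by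
        have h2 : 2 * ((L : ℝ) ^ ε + K) ≤ C3 * ((L : ℝ) ^ ε + k) := by
          rw [hC3]
          nlinarith
        calc 2 * ((L : ℝ) ^ ε * (L * b) + K * (L * b)) = (2 * ((L : ℝ) ^ ε + K)) * (L * b) := by
              ring
          _ ≤ (C3 * ((L : ℝ) ^ ε + k)) * (L * b) := mul_le_mul_of_nonneg_right h2 hLb
      refine h1.trans ?_
      have h3 : b ≤ ((C1 + C2 + C3 + 1) * L * ((L : ℝ) ^ ε + k)) ^ v := by
        rw [hb]
        refine pow_le_pow_left₀ (by positivity) ?_ v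
        gcongr
        linarith
      have h4 : 0 ≤ (L : ℝ) ^ ε + k := by linarith
      calc (C3 * ((L : ℝ) ^ ε + k)) * (L * b) = b * (C3 * L * ((L : ℝ) ^ ε + k)) := by ring
        _ ≤ ((C1 + C2 + C3 + 1) * L * ((L : ℝ) ^ ε + k)) ^ v *
            ((C1 + C2 + C3 + 1) * L * ((L : ℝ) ^ ε + k)) := by
            refine mul_le_mul h3 ?_ (by positivity) (by positivity)
            gcongr
            linarith
        _ = _ := (pow_succ _ _).symm
    have hbad : Pr ρ (fun ω => ¬ NB (∑ r ∈ fr L (insert c U') q, ps (insert c U') r ω • W r ω)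
        (((C1 + C2 + C3 + 1) * L * ((L : ℝ) ^ ε + k)) ^ (v + 1))) ≤
        Pr ρ (fun ω => (∃ t < L, ¬ NB (W1 t ω) b) ∨
          (¬ NB (∑ t ∈ range L, (sb c t ω - al ρ c t ω) • W2 t ω) ((L : ℝ) ^ ε * (L * b)) ∨
            K < A2 ρ c ω)) := by
      refine Pr_mono hρ fun ω hω => ?_
      by_contra hcon
      rw [not_or, not_or] at hcon
      obtain ⟨g1, g2, g3⟩ := hcon
      rw [not_not] at g2
      rw [not_lt] at g3
      apply hω
      have g1' : ∀ t < L, NB (W1 t ω) b := by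
        intro t ht
        by_contra h
        exact g1 ⟨t, ht, h⟩
      have e1 : ∑ r ∈ fr L (insert c U') q, ps (insert c U') r ω • W r ω =
          ∑ t ∈ range L, (sb c t ω - al ρ c t ω) • W2 t ω +
            ∑ t ∈ range L, al ρ c t ω • W2 t ω := by
        rw [hsum ω, ← sum_add_distrib]
        refine sum_congr rfl fun t ht => ?_
        rw [← add_smul]
        have : W2 t ω = W1 t ω := by
          simp only [hW2]
          rw [if_pos (g1' t (mem_range.1 ht))]
        rw [this]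
        congr 1
        ring
      rw [e1]
      refine NB_mono ?_ hbig
      refine NB_add g2 ?_
      exact NB_drift (fun t => al ρ c t ω) (fun t => W2 t ω) hb0.le (fun t => hW2NB t ω) g3
    refine hbad.trans ((Pr_or_le hρ _ _).trans ?_)
    have hun : Pr ρ (fun ω => ∃ t < L, ¬ NB (W1 t ω) b) ≤ C1 / (L + 1) ^ n := by
      refine (Pr_exists_le hρ L (fun t ω => ¬ NB (W1 t ω) b)).trans ?_
      refine (sum_le_sum fun t _ => hW1NB t).trans ?_
      rw [sum_const, card_range, nsmul_eq_mul, pow_succ]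
      rw [← mul_div_assoc, div_le_div_iff₀ (by positivity) (by positivity)]
      have : (L : ℝ) * (C1 * (L + 1) ^ n) ≤ (L + 1) * (C1 * (L + 1) ^ n) := by
        have h0 : 0 ≤ C1 * ((L : ℝ) + 1) ^ n := by positivity
        nlinarith
      calc (L : ℝ) * C1 * (L + 1) ^ n = L * (C1 * (L + 1) ^ n) := by ring
        _ ≤ (L + 1) * (C1 * (L + 1) ^ n) := this
        _ = C1 * ((L + 1) ^ n * (L + 1)) := by ring
    have h2 := Pr_or_le hρ
      (fun ω => ¬ NB (∑ t ∈ range L, (sb c t ω - al ρ c t ω) • W2 t ω) ((L : ℝ) ^ ε * (L * b)))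
      (fun ω => K < A2 ρ c ω)
    have h3 : (C1 + C2 + C3 + 1) / ((L : ℝ) + 1) ^ n =
        C1 / (L + 1) ^ n + (C2 / (L + 1) ^ n + 1 / (L + 1) ^ n) + C3 / (L + 1) ^ n := by ring
    have h4 : 0 ≤ C3 / ((L : ℝ) + 1) ^ n := by positivity
    rw [h3]
    linarith

end Pool.Agent.SBD
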