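import Pool.Agent.Lib.MP_a7b2aa_an.SBD.Stmts30
import Pool.Agent.Lib.MP_a7b2aa_an.SBT.Op38

/-!
SBD, helper38: translation kernels and mixed differences on the discrete torus, any dimension.
-/

set_option autoImplicit false
set_option linter.unusedSectionVars false

namespace Pool.Agent.SBD

open Finset Pool.Agent.SB3 Pool.Agent.SBT

section base

variable {ι : Type} [Fintype ι] [DecidableEq ι] {N : ℕ} [NeZero N]

/-- the multiplier of the half difference -/
noncomputable def md38 {N : ℕ} [NeZero N] (h : ZMod N) (k : ℤ) : ℂ :=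
  ((ZMod.stdAddChar ((k : ZMod N) * h) : ℂ) - (ZMod.stdAddChar ((k : ZMod N) * (-h)) : ℂ)) / 2

lemma dT_PT'_38 (j : ι) (h : ZMod N) (A : Finset (ι → ℤ)) (c : (ι → ℤ) → ℂ) :
    dT j h (PT (N := N) A c) = PT (N := N) A (fun k => c k * md38 h (k j)) := by
  funext u
  unfold dT PT md38
  rw [← Complex.sub_re, ← Finset.sum_sub_distrib]
  have : (2 : ℝ) ≠ 0 := two_ne_zero
  rw [div_eq_iff this, mul_comm _ (2 : ℝ), ← Complex.re_ofReal_mul, Finset.mul_sum]
  congr 1
  apply Finset.sum_congr rfl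
  intro k _
  rw [ch_sv_38, ch_sv_38]
  push_cast
  ring

/-- kernels in the directions of a list -/
noncomputable def KL38 (w : ι → ZMod N → ℝ) (js : List ι) (φ : Tor ι N → ℝ) : Tor ι N → ℝ :=
  js.foldr (fun j ψ => Ko38 j (w j) ψ) φ

lemma KL_PT_38 (w : ι → ZMod N → ℝ) (js : List ι) (A : Finset (ι → ℤ)) (c : (ι → ℤ) → ℂ) :
    KL38 w js (PT (N := N) A c) =
      PT (N := N) A (fun k => c k * (js.map (fun j => mu38 (w j) (k j))).prod) := by
  induction js with
  | nil => simp [KL38]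
  | cons j js ih =>
    have h1 : KL38 w (j :: js) (PT (N := N) A c) = Ko38 j (w j) (KL38 w js (PT (N := N) A c)) := rfl
    rw [h1, ih, Ko_PT_38]
    congr 1
    funext k
    rw [List.map_cons, List.prod_cons]
    ring

lemma KL_sum_38 {α : Type} (s : Finset α) (f : α → Tor ι N → ℝ) (w : ι → ZMod N → ℝ)
    (js : List ι) : KL38 w js (fun u => ∑ a ∈ s, f a u) = fun u => ∑ a ∈ s, KL38 w js (f a) u := by
  induction js with
  | nil => rfl
  | cons j js ih =>
    have h1 : ∀ φ : Tor ι N → ℝ, KL38 w (j :: js) φ = Ko38 j (w j) (KL38 w js φ) := fun _ => rfl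
    rw [h1, ih, Ko_sum_38]
    rfl

lemma S1_KL_38 (w : ι → ZMod N → ℝ) (hw : ∀ j, ∑ g, |w j g| ≤ 6) (js : List ι)
    (φ : Tor ι N → ℝ) : S1 (KL38 w js φ) ≤ 6 ^ js.length * S1 φ := by
  induction js with
  | nil => simp [KL38]
  | cons j js ih =>
    have h1 : KL38 w (j :: js) φ = Ko38 j (w j) (KL38 w js φ) := rfl
    rw [h1]
    refine (S1_Ko_38 j (w j) _).trans ?_
    calc (∑ g, |w j g|) * S1 (KL38 w js φ) ≤ 6 * (6 ^ js.length * S1 φ) :=
          mul_le_mul (hw j) ih (S1_nonneg_38 _) (by norm_num)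
      _ = _ := by rw [List.length_cons, pow_succ]; ring

lemma sup_KL_38 (w : ι → ZMod N → ℝ) (hw : ∀ j, ∑ g, |w j g| ≤ 6) (js : List ι)
    (φ : Tor ι N → ℝ) (M : ℝ) (h : ∀ u, |φ u| ≤ M) (u : Tor ι N) :
    |KL38 w js φ u| ≤ 6 ^ js.length * M := by
  have hM : 0 ≤ M := (abs_nonneg _).trans (h u)
  induction js generalizing u with
  | nil => simpa [KL38] using h u
  | cons j js ih =>
    have h1 : KL38 w (j :: js) φ = Ko38 j (w j) (KL38 w js φ) := rfl
    rw [h1]
    refine (sup_Ko_38 j (w j) _ _ ih u).trans ?_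
    calc (∑ g, |w j g|) * (6 ^ js.length * M) ≤ 6 * (6 ^ js.length * M) :=
          mul_le_mul_of_nonneg_right (hw j) (by positivity)
      _ = _ := by rw [List.length_cons, pow_succ]; ring

/-- the inverse inequality in the directions of a list -/
lemma inv_list_38 (A : Finset (ι → ℤ)) (C : ℝ) (hC : 0 ≤ C) (h : ι → ZMod N)
    (hI : ∀ (j : ι) (c : (ι → ℤ) → ℂ), S1 (PT (N := N) A c) ≤ C * S1 (dT j (h j) (PT (N := N) A c)))
    (js : List ι) (c : (ι → ℤ) → ℂ) : S1 (PT (N := N) A c) ≤ C ^ js.length *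
      S1 (PT (N := N) A (fun k => c k * (js.map (fun j => md38 (h j) (k j))).prod)) := by
  induction js with
  | nil => simp
  | cons j js ih =>
    refine ih.trans ?_
    have h1 := hI j (fun k => c k * (js.map (fun j => md38 (h j) (k j))).prod)
    rw [dT_PT'_38] at h1
    have h2 : (fun k : ι → ℤ => c k * (js.map (fun j => md38 (h j) (k j))).prod * md38 (h j) (k j)) =
        fun k => c k * ((j :: js).map (fun j => md38 (h j) (k j))).prod := by
      funext k
      rw [List.map_cons, List.prod_cons]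
      ring
    rw [h2] at h1
    calc C ^ js.length * S1 (PT (N := N) A fun k => c k * (js.map fun j => md38 (h j) (k j)).prod) ≤
          C ^ js.length * (C * S1 (PT (N := N) A
            fun k => c k * ((j :: js).map fun j => md38 (h j) (k j)).prod)) :=
          mul_le_mul_of_nonneg_left h1 (by positivity)
      _ = _ := by rw [List.length_cons, pow_succ]; ring

end base

/-! ### the mixed difference -/

lemma Dd_PT_38 {d : ℕ} (a : ℕ) (X : Fin d → ℕ) (A : Finset (Fin d → ℤ)) (c : (Fin d → ℤ) → ℂ) :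
    Dd a X (PT (N := 2 ^ a) A c) =
      PT (N := 2 ^ a) A (fun k => c k * ∏ j, md38 (Hs a (X j)) (k j)) := by
  funext u
  unfold Dd PT
  have hch : ∀ (k : Fin d → ℤ) (e : Fin d → Bool),
      ch k (fun j => u j + (if e j then Hs a (X j) else - Hs a (X j))) =
        ch k u * ∏ j, (ZMod.stdAddChar ((k j : ZMod (2 ^ a)) *
          (if e j then Hs a (X j) else - Hs a (X j))) : ℂ) := by
    intro k e
    unfold ch
    rw [← Finset.prod_mul_distrib]
    refine Finset.prod_congr rfl fun j _ => ?_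
    rw [mul_add, AddChar.map_add_eq_mul]
  have hsum : ∀ k : Fin d → ℤ, ∑ e : Fin d → Bool, ((∏ j, sgr (e j) : ℝ) : ℂ) *
      (c k * ch k (fun j => u j + (if e j then Hs a (X j) else - Hs a (X j)))) =
      2 ^ d * (c k * (∏ j, md38 (Hs a (X j)) (k j)) * ch k u) := by
    intro k
    have h1 : ∀ e : Fin d → Bool, ((∏ j, sgr (e j) : ℝ) : ℂ) *
        (c k * ch k (fun j => u j + (if e j then Hs a (X j) else - Hs a (X j)))) =
        c k * ch k u * ∏ j, ((sgr (e j) : ℝ) : ℂ) * (ZMod.stdAddChar ((k j : ZMod (2 ^ a)) *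
          (if e j then Hs a (X j) else - Hs a (X j))) : ℂ) := by
      intro e
      rw [hch, Finset.prod_mul_distrib]
      push_cast
      ring
    rw [Finset.sum_congr rfl fun e _ => h1 e, ← Finset.mul_sum]
    have h2 : ∑ e : Fin d → Bool, ∏ j, ((sgr (e j) : ℝ) : ℂ) *
        (ZMod.stdAddChar ((k j : ZMod (2 ^ a)) * (if e j then Hs a (X j) else - Hs a (X j))) : ℂ) =
        ∏ j, ∑ b : Bool, ((sgr b : ℝ) : ℂ) *
          (ZMod.stdAddChar ((k j : ZMod (2 ^ a)) * (if b then Hs a (X j) else - Hs a (X j))) : ℂ) := by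
      rw [Finset.prod_univ_sum, Fintype.piFinset_univ]
    rw [h2]
    have h3 : ∀ j : Fin d, ∑ b : Bool, ((sgr b : ℝ) : ℂ) *
        (ZMod.stdAddChar ((k j : ZMod (2 ^ a)) * (if b then Hs a (X j) else - Hs a (X j))) : ℂ) =
        2 * md38 (Hs a (X j)) (k j) := by
      intro j
      rw [Fintype.sum_bool]
      simp only [sgr, if_true, Bool.false_eq_true, if_false]
      unfold md38
      push_cast
      ring
    rw [Finset.prod_congr rfl fun j _ => h3 j, Finset.prod_mul_distrib, Finset.prod_const,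
      Finset.card_univ, Fintype.card_fin]
    ring
  have h2 : (2 : ℝ) ^ d ≠ 0 := by positivity
  rw [div_eq_iff h2]
  have h4 : ∀ e : Fin d → Bool, (∏ j, sgr (e j)) *
      (∑ k ∈ A, c k * ch k (fun j => u j + (if e j then Hs a (X j) else - Hs a (X j)))).re =
      (∑ k ∈ A, ((∏ j, sgr (e j) : ℝ) : ℂ) *
        (c k * ch k (fun j => u j + (if e j then Hs a (X j) else - Hs a (X j))))).re := by
    intro e
    rw [← Finset.mul_sum, Complex.re_ofReal_mul]
  rw [Finset.sum_congr rfl fun e _ => h4 e, ← Complex.re_sum, Finset.sum_comm,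
    Finset.sum_congr rfl fun k _ => hsum k, ← Finset.mul_sum]
  have h5 : ((2 : ℂ) ^ d * ∑ k ∈ A, c k * (∏ j, md38 (Hs a (X j)) (k j)) * ch k u).re =
      (2 : ℝ) ^ d * (∑ k ∈ A, c k * (∏ j, md38 (Hs a (X j)) (k j)) * ch k u).re := by
    rw [← Complex.re_ofReal_mul]
    push_cast
    rfl
  rw [h5, mul_comm]

/-! ### blocks -/

lemma mem_blkD_38 {d : ℕ} {l : Fin d → ℕ} {k : Fin d → ℤ} (hk : k ∈ blkD l) (j : Fin d) :
    (2 : ℤ) ^ (2 * l j) / 2 ≤ |k j| ∧ |k j| < (2 : ℤ) ^ (2 * l j) := by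
  unfold blkD at hk
  rw [Fintype.mem_piFinset] at hk
  have h := hk j
  rw [Finset.mem_filter, Finset.mem_Ioo] at h
  exact ⟨h.2, abs_lt.mpr h.1⟩

lemma antiD_le_38 {d m : ℕ} {l : Fin d → ℕ} (hl : l ∈ Finset.Nat.antidiagonalTuple d m)
    (j : Fin d) : l j ≤ m := by
  rw [Finset.Nat.mem_antidiagonalTuple] at hl
  rw [← hl]
  exact Finset.single_le_sum (f := l) (fun _ _ => Nat.zero_le _) (Finset.mem_univ j)

lemma Dd_sum_38 {d : ℕ} {α : Type} (a : ℕ) (X : Fin d → ℕ) (s : Finset α)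
    (f : α → Tor (Fin d) (2 ^ a) → ℝ) :
    Dd a X (fun u => ∑ x ∈ s, f x u) = fun u => ∑ x ∈ s, Dd a X (f x) u := by
  funext u
  unfold Dd
  rw [← Finset.sum_div]
  congr 1
  rw [Finset.sum_comm]
  refine Finset.sum_congr rfl fun e _ => ?_
  rw [Finset.mul_sum]

/-- the mixed difference of the whole sum -/
lemma Dd_FmD_38 {d : ℕ} (m : ℕ) (X : Fin d → ℕ) (c : (Fin d → ℤ) → ℂ) :
    Dd (2 * m + 3) X (FmD d m c) =
      FmD d m (fun k => c k * ∏ j, md38 (Hs (2 * m + 3) (X j)) (k j)) := by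
  have h0 : FmD d m c = fun u => ∑ l ∈ Finset.Nat.antidiagonalTuple d m,
    PT (N := 2 ^ (2 * m + 3)) (blkD l) c u := rfl
  rw [h0, Dd_sum_38]
  funext u
  unfold FmD
  refine Finset.sum_congr rfl fun l _ => ?_
  rw [Dd_PT_38]

/-- extraction of a block by `d` kernels -/
lemma extrD_38 {d : ℕ} (m : ℕ) (l : Fin d → ℕ) (c : (Fin d → ℤ) → ℂ)
    (hl : l ∈ Finset.Nat.antidiagonalTuple d m) (w : Fin d → ZMod (2 ^ (2 * m + 3)) → ℝ)
    (hw : ∀ j : Fin d, ∀ l' ≤ m, ∀ t : ℤ, (2 : ℤ) ^ (2 * l') / 2 ≤ |t| →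
      |t| < (2 : ℤ) ^ (2 * l') → mu38 (w j) t = if l' = l j then 1 else 0) :
    KL38 w (List.finRange d) (FmD d m c) = PT (N := 2 ^ (2 * m + 3)) (blkD l) c := by
  have h0 : FmD d m c = fun u => ∑ l ∈ Finset.Nat.antidiagonalTuple d m,
    PT (N := 2 ^ (2 * m + 3)) (blkD l) c u := rfl
  rw [h0, KL_sum_38]
  funext u
  have h1 : ∀ l' : Fin d → ℕ, KL38 w (List.finRange d) (PT (N := 2 ^ (2 * m + 3)) (blkD l') c) u =
      PT (N := 2 ^ (2 * m + 3)) (blkD l') (fun k => c k * ∏ j, mu38 (w j) (k j)) u := by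
    intro l'
    rw [KL_PT_38]
    simp only [Fin.prod_univ_def]
  rw [Finset.sum_congr rfl fun l' _ => h1 l', Finset.sum_eq_single l]
  · unfold PT
    congr 1
    apply Finset.sum_congr rfl
    intro k hk
    have e : ∀ j : Fin d, mu38 (w j) (k j) = 1 := by
      intro j
      rw [hw j (l j) (antiD_le_38 hl j) (k j) (mem_blkD_38 hk j).1 (mem_blkD_38 hk j).2, if_pos rfl]
    beta_reduce
    rw [Finset.prod_congr rfl fun j _ => e j, Finset.prod_const_one, mul_one]
  · intro l' hl' hne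
    have hj : ∃ j, l' j ≠ l j := by
      by_contra hcon
      push Not at hcon
      exact hne (funext hcon)
    obtain ⟨j, hj⟩ := hj
    unfold PT
    rw [Finset.sum_eq_zero, Complex.zero_re]
    intro k hk
    have e : mu38 (w j) (k j) = 0 := by
      rw [hw j (l' j) (antiD_le_38 hl' j) (k j) (mem_blkD_38 hk j).1 (mem_blkD_38 hk j).2,
        if_neg hj]
    beta_reduce
    rw [Finset.prod_eq_zero (Finset.mem_univ j) e, mul_zero, zero_mul]
  · intro h
    exact absurd hl h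

end Pool.Agent.SBD
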