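import Pool.Agent.Lib.MP_a7b2aa_an.SBD.Stmts30
import Pool.Agent.Lib.MP_a7b2aa_an.SBT.Par38

/-!
SBD, helper71: the module PARD (orthogonality of the blocks, every dimension).
-/

set_option autoImplicit false

namespace Pool.Agent.SBD

open Finset Pool.Agent.SB3 Pool.Agent.SBT

lemma mem_blkD_71 {d : ℕ} {l : Fin d → ℕ} {k : Fin d → ℤ} (hk : k ∈ blkD l) (j : Fin d) :
    (2 : ℤ) ^ (2 * l j) / 2 ≤ |k j| ∧ |k j| < (2 : ℤ) ^ (2 * l j) := by
  unfold blkD at hk
  rw [Fintype.mem_piFinset] at hk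
  have h := hk j
  rw [Finset.mem_filter, Finset.mem_Ioo] at h
  exact ⟨h.2, abs_lt.mpr h.1⟩

lemma anti_le_71 {d m : ℕ} {l : Fin d → ℕ} (hl : l ∈ Finset.Nat.antidiagonalTuple d m)
    (j : Fin d) : l j ≤ m := by
  rw [Finset.Nat.mem_antidiagonalTuple] at hl
  rw [← hl]
  exact Finset.single_le_sum (f := l) (fun _ _ => Nat.zero_le _) (Finset.mem_univ j)

/-- PARD -/
theorem pard_71 : StParD := by
  intro d m c
  have h0 : ∀ u, FmD d m c u ^ 2 = ∑ l ∈ Finset.Nat.antidiagonalTuple d m,
      ∑ l' ∈ Finset.Nat.antidiagonalTuple d m,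
        PT (N := 2 ^ (2 * m + 3)) (blkD l) c u * PT (N := 2 ^ (2 * m + 3)) (blkD l') c u := by
    intro u
    unfold FmD
    rw [sq, Finset.sum_mul_sum]
  simp_rw [h0]
  conv_rhs => rw [Finset.sum_comm]
  apply Finset.sum_congr rfl
  intro l hl
  rw [Finset.sum_comm]
  rw [Finset.sum_eq_single l]
  · apply Finset.sum_congr rfl
    intro u _
    ring
  · intro l' hl' hne
    have hj : ∃ j, l j ≠ l' j := by
      by_contra hcon
      push Not at hcon
      exact hne (funext hcon).symm
    obtain ⟨j, hj⟩ := hj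
    apply orth_38 (blkD l) (blkD l') c j
    intro k hk k' hk'
    have hk1 := mem_blkD_71 hk j
    have hk2 := mem_blkD_71 hk' j
    have hlj := anti_le_71 hl j
    have hlj' := anti_le_71 hl' j
    -- absolute values are different
    have key : ∀ (a b : ℕ), a < b → b ≤ m → ∀ s t : ℤ, |s| < (2 : ℤ) ^ (2 * a) →
        (2 : ℤ) ^ (2 * b) / 2 ≤ |t| → |s| < |t| := by
      intro a b hab hb s t hs ht
      rw [pow_half_38 b (by omega)] at ht
      have : (2 : ℤ) ^ (2 * a) ≤ 2 ^ (2 * b - 1) := pow_le_pow_right₀ (by norm_num) (by omega)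
      exact lt_of_lt_of_le hs (this.trans ht)
    have hdiff : |k j| ≠ |k' j| := by
      rcases lt_or_gt_of_ne hj with h | h
      · exact ne_of_lt (key _ _ h hlj' _ _ hk1.2 hk2.1)
      · exact ne_of_gt (key _ _ h hlj _ _ hk2.2 hk1.1)
    have hb1 : |k j| < (2 : ℤ) ^ (2 * m) :=
      lt_of_lt_of_le hk1.2 (pow_le_pow_right₀ (by norm_num) (by omega))
    have hb2 : |k' j| < (2 : ℤ) ^ (2 * m) :=
      lt_of_lt_of_le hk2.2 (pow_le_pow_right₀ (by norm_num) (by omega))
    have hN : (2 : ℤ) ^ (2 * m + 3) = 8 * 2 ^ (2 * m) := by rw [pow_add]; ring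
    have hpos : (0 : ℤ) < 2 ^ (2 * m) := by positivity
    have nz : ∀ t : ℤ, t ≠ 0 → |t| < (2 : ℤ) ^ (2 * m + 3) →
        ((t : ℤ) : ZMod (2 ^ (2 * m + 3))) ≠ 0 := by
      intro t ht hlt h
      rw [ZMod.intCast_zmod_eq_zero_iff_dvd] at h
      apply ht
      apply Int.eq_zero_of_abs_lt_dvd h
      push_cast
      exact hlt
    constructor
    · apply nz
      · intro h
        apply hdiff
        have : k j = - k' j := by linarith
        rw [this, abs_neg]
      · rw [hN]
        have := abs_add_le (k j) (k' j)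
        linarith
    · apply nz
      · intro h
        apply hdiff
        have : k j = k' j := by linarith
        rw [this]
      · rw [hN]
        have := abs_sub (k j) (k' j)
        linarith
  · intro h
    exact absurd hl h

end Pool.Agent.SBD
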