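import Pool.Agent.Lib.MP_a7b2aa_an.SBD.CfoD33

/-!
SBD, module PARS (helper21): the inequality of Bessel for the coefficients.
-/

set_option autoImplicit false

namespace Pool.Agent.SBD

open Finset Pool.Agent.SB3 Pool.Agent.SBT

/-- component of `H` at the cell `q` -/
noncomputable def cmp21 {m L : ℕ} (H : Pt m L → ℝ) (q : Fin (m + 1) → ℕ) (ω : Pt m L) : ℝ :=
  ps Finset.univ q ω * cf H q ω

theorem av_sum_21 {m L : ℕ} {ι : Type} (s : Finset ι) (φ : ι → Pt m L → ℝ) :
    Av (fun ω => ∑ i ∈ s, φ i ω) = ∑ i ∈ s, Av (φ i) := by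
  unfold Av
  rw [Finset.sum_comm, Finset.sum_div]

theorem av_add_21 {m L : ℕ} (φ ψ : Pt m L → ℝ) :
    Av (fun ω => φ ω + ψ ω) = Av φ + Av ψ := by
  unfold Av
  rw [Finset.sum_add_distrib, add_div]

theorem av_smul_21 {m L : ℕ} (c : ℝ) (φ : Pt m L → ℝ) :
    Av (fun ω => c * φ ω) = c * Av φ := by
  unfold Av
  rw [← Finset.mul_sum, mul_div_assoc]

theorem av_nonneg_21 {m L : ℕ} (φ : Pt m L → ℝ) (h : ∀ ω, 0 ≤ φ ω) : 0 ≤ Av φ :=
  div_nonneg (Finset.sum_nonneg fun ω _ => h ω) (by positivity)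

/-- the mean of `F` times a component -/
theorem av_cmp_21 {m L : ℕ} (hE : Eeb m L) (F H : Pt m L → ℝ) (q : Fin (m + 1) → ℕ) :
    Av (fun ω => F ω * cmp21 H q ω) = Av (fun ω => cf F q ω * cf H q ω) := by
  have h1 : (fun ω => F ω * cmp21 H q ω) =
      fun ω => (ps Finset.univ q ω * F ω) * EE q (cf H q) ω := by
    funext ω
    rw [hE.idem q (cf H q) (hE.ms q _) ω]
    unfold cmp21
    ring
  rw [h1, hE.adj]
  rfl

/-- PARS -/
theorem pars_21 (hEB : StEeb) (hC : StCfoD) : StPars := by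
  intro m L H
  have hE := hEB m L
  set s : Finset (Fin (m + 1) → ℕ) := fr L Finset.univ (fun _ => 0) with hs
  have hlt : ∀ q ∈ s, ∀ a, q a < L := by
    intro q hq a
    have h1 := Fintype.mem_piFinset.1 hq a
    simpa using h1
  set S : Pt m L → ℝ := fun ω => ∑ q ∈ s, cmp21 H q ω with hS
  -- the coefficients of `S`
  have hcf : ∀ q ∈ s, ∀ ω, cf S q ω = cf H q ω := by
    intro q hq ω
    have h1 : cf S q ω = ∑ r ∈ s, cf (cmp21 H r) q ω := by
      unfold cf
      rw [← hE.sum q s (fun r ω' => ps Finset.univ q ω' * cmp21 H r ω') ω]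
      congr 1
      funext ω'
      rw [hS, Finset.mul_sum]
    rw [h1, Finset.sum_eq_single q]
    · have h2 := hC m L H q q ω (hlt q hq) (hlt q hq)
      rw [if_pos rfl] at h2
      exact h2
    · intro r hr hrq
      have h2 := hC m L H q r ω (hlt q hq) (hlt r hr)
      rw [if_neg hrq] at h2
      exact h2
    · intro h
      exact absurd hq h
  have hHS : Av (fun ω => H ω * S ω) = ∑ q ∈ s, Av (fun ω => cf H q ω ^ 2) := by
    have h1 : (fun ω => H ω * S ω) = fun ω => ∑ q ∈ s, H ω * cmp21 H q ω := by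
      funext ω
      rw [hS, Finset.mul_sum]
    rw [h1, av_sum_21]
    refine Finset.sum_congr rfl fun q _ => ?_
    rw [av_cmp_21 hE]
    congr 1
    funext ω
    ring
  have hSS : Av (fun ω => S ω * S ω) = ∑ q ∈ s, Av (fun ω => cf H q ω ^ 2) := by
    have h1 : (fun ω => S ω * S ω) = fun ω => ∑ q ∈ s, S ω * cmp21 H q ω := by
      funext ω
      rw [← Finset.mul_sum]
    rw [h1, av_sum_21]
    refine Finset.sum_congr rfl fun q hq => ?_
    rw [av_cmp_21 hE]
    congr 1
    funext ω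
    rw [hcf q hq ω]
    ring
  have hpos : 0 ≤ Av (fun ω => (H ω - S ω) ^ 2) := av_nonneg_21 _ fun ω => sq_nonneg _
  have hexp : Av (fun ω => (H ω - S ω) ^ 2) =
      Av (fun ω => H ω ^ 2) + ((-2) * Av (fun ω => H ω * S ω) + Av (fun ω => S ω * S ω)) := by
    rw [← av_smul_21, ← av_add_21, ← av_add_21]
    congr 1
    funext ω
    ring
  rw [hHS, hSS] at hexp
  linarith

end Pool.Agent.SBD
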