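import Pool.Agent.Lib.MP_a7b2aa_an.SBD.Base30

/-!
SBD, helper60: module PEEL (one string is peeled off).
-/

set_option autoImplicit false

namespace Pool.Agent.SBD.Peel60

open Finset Pool.Agent.SB3 Pool.Agent.SBT Pool.Agent.SBD

variable {m L : ℕ}

/-- `A2` is at most `L` -/
theorem A2_le {ρ : Pt m L → ℝ} (hA : Alf ρ) (c : Fin (m + 1)) (ω : Pt m L) : A2 ρ c ω ≤ L := by
  unfold A2
  have h1 : ∑ t ∈ range L, al ρ c t ω ^ 2 ≤ ∑ _t ∈ range L, (1 : ℝ) := by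
    refine sum_le_sum fun t _ => ?_
    have := (sq_le_one_iff_abs_le_one (al ρ c t ω)).2 (hA.abs c t ω)
    exact this
  simpa using h1

/-- the drift is at most `K` times the energy, up to the rare event -/
theorem drift_le {ρ : Pt m L → ℝ} (hA : Alf ρ) (c : Fin (m + 1)) (X : ℕ → Pt m L → ℝ) {B K : ℝ}
    (hB : ∀ t ω, |X t ω| ≤ B) (hK : 0 ≤ K) (ω : Pt m L) [Decidable (K < A2 ρ c ω)] :
    (∑ t ∈ range L, al ρ c t ω * X t ω) ^ 2 ≤
      K * ∑ t ∈ range L, X t ω ^ 2 + L ^ 2 * B ^ 2 * (if K < A2 ρ c ω then 1 else 0) := by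
  have h1 : (∑ t ∈ range L, al ρ c t ω * X t ω) ^ 2 ≤
      A2 ρ c ω * ∑ t ∈ range L, X t ω ^ 2 := by
    unfold A2
    exact sum_mul_sq_le_sq_mul_sq _ _ _
  have h0 : 0 ≤ ∑ t ∈ range L, X t ω ^ 2 := sum_nonneg fun t _ => sq_nonneg _
  by_cases h : K < A2 ρ c ω
  · rw [if_pos h]
    have h2 : A2 ρ c ω ≤ L := A2_le hA c ω
    have h3 : ∑ t ∈ range L, X t ω ^ 2 ≤ L * B ^ 2 := by
      have : ∑ t ∈ range L, X t ω ^ 2 ≤ ∑ _t ∈ range L, B ^ 2 := by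
        refine sum_le_sum fun t _ => ?_
        have h4 := hB t ω
        have h5 : |X t ω| ^ 2 ≤ B ^ 2 := pow_le_pow_left₀ (abs_nonneg _) h4 2
        rwa [sq_abs] at h5
      simpa using this
    have hL : (0 : ℝ) ≤ L := Nat.cast_nonneg L
    have h4 : A2 ρ c ω * ∑ t ∈ range L, X t ω ^ 2 ≤ L * (L * B ^ 2) :=
      mul_le_mul h2 h3 h0 hL
    have h5 : 0 ≤ K * ∑ t ∈ range L, X t ω ^ 2 := mul_nonneg hK h0
    nlinarith
  · rw [if_neg h]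
    have h2 : A2 ρ c ω ≤ K := not_lt.1 h
    have h3 : A2 ρ c ω * ∑ t ∈ range L, X t ω ^ 2 ≤ K * ∑ t ∈ range L, X t ω ^ 2 :=
      mul_le_mul_of_nonneg_right h2 h0
    linarith

end Pool.Agent.SBD.Peel60

namespace Pool.Agent.SBD

open Finset Pool.Agent.SB3 Pool.Agent.SBT Peel60

open Classical in
/-- PEEL -/
theorem peel_60 (hAl : StAlf) (hT : StTail) : StPeel := by
  intro m L n k B ρ c X hk hρ hX hB
  have hA := hAl m L k ρ hρ
  obtain ⟨_, hT2⟩ := hT m L k ρ hρ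
  have htail := hT2 c n
  set K : ℝ := 4 * k + 8 * n * Real.log (L + 1) with hKd
  have hL : (0 : ℝ) ≤ L := Nat.cast_nonneg L
  have hlog : 0 ≤ Real.log ((L : ℝ) + 1) := Real.log_nonneg (by linarith)
  have hn : (0 : ℝ) ≤ n := Nat.cast_nonneg n
  have hK : 0 ≤ K := by
    rw [hKd]
    positivity
  -- pointwise
  have h1 : ∀ ω, (∑ t ∈ range L, sb c t ω * X t ω) ^ 2 ≤
      2 * (∑ t ∈ range L, (sb c t ω - al ρ c t ω) * X t ω) ^ 2 +
        2 * (K * ∑ t ∈ range L, X t ω ^ 2 +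
          L ^ 2 * B ^ 2 * (if K < A2 ρ c ω then 1 else 0)) := by
    intro ω
    have h2 := drift_le hA c X hB hK ω
    have h3 : ∑ t ∈ range L, sb c t ω * X t ω =
        ∑ t ∈ range L, (sb c t ω - al ρ c t ω) * X t ω + ∑ t ∈ range L, al ρ c t ω * X t ω := by
      rw [← sum_add_distrib]
      exact sum_congr rfl fun t _ => by ring
    rw [h3]
    have h4 := sq_nonneg (∑ t ∈ range L, (sb c t ω - al ρ c t ω) * X t ω -
      ∑ t ∈ range L, al ρ c t ω * X t ω)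
    nlinarith
  have h2 := Ex_mono hρ h1
  have e1 : Ex ρ (fun ω => 2 * (∑ t ∈ range L, (sb c t ω - al ρ c t ω) * X t ω) ^ 2 +
        2 * (K * ∑ t ∈ range L, X t ω ^ 2 +
          L ^ 2 * B ^ 2 * (if K < A2 ρ c ω then 1 else 0))) =
      2 * Ex ρ (fun ω => (∑ t ∈ range L, (sb c t ω - al ρ c t ω) * X t ω) ^ 2) +
        2 * (K * ∑ t ∈ range L, Ex ρ (fun ω => X t ω ^ 2) +
          L ^ 2 * B ^ 2 * Pr ρ (fun ω => K < A2 ρ c ω)) := by
    rw [Ex_add (φ := fun ω => 2 * (∑ t ∈ range L, (sb c t ω - al ρ c t ω) * X t ω) ^ 2),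
      Ex_smul, Ex_smul (c := 2), Ex_add (φ := fun ω => K * ∑ t ∈ range L, X t ω ^ 2), Ex_smul,
      Ex_smul (c := (L : ℝ) ^ 2 * B ^ 2), Ex_sum]
    rfl
  rw [e1] at h2
  have h3 := hA.orth c X hX
  have h4 : (L : ℝ) ^ 2 * B ^ 2 * Pr ρ (fun ω => K < A2 ρ c ω) ≤
      (L : ℝ) ^ 2 * B ^ 2 * (1 / (L + 1) ^ n) :=
    mul_le_mul_of_nonneg_left htail (by positivity)
  have h5 : (L : ℝ) ^ 2 * B ^ 2 * (1 / (L + 1) ^ n) = L ^ 2 * B ^ 2 / (L + 1) ^ n := by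
    rw [mul_one_div]
  have h6 : 2 * (L : ℝ) ^ 2 * B ^ 2 / (L + 1) ^ n = 2 * (L ^ 2 * B ^ 2 / (L + 1) ^ n) := by
    ring
  rw [h6]
  nlinarith

end Pool.Agent.SBD
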