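import Pool.Agent.Lib.MP_a7b2aa_an.SBD.Stmts30

/-!
SBD, module STR (helper21): the structure of the slices of `H + κ Ngd`.
-/

set_option autoImplicit false

namespace Pool.Agent.SBD

open Finset Pool.Agent.SB3 Pool.Agent.SBT

theorem pre_mono_21 {L p p' : ℕ} (h : p' ≤ p) {y y' : Y L} (e : pre p y = pre p y') :
    pre p' y = pre p' y' := by
  funext i
  have h1 := congrFun e i
  unfold pre at h1 ⊢
  by_cases hi : (i : ℕ) < p'
  · rw [if_pos hi, if_pos hi]
    rwa [if_pos (lt_of_lt_of_le hi h), if_pos (lt_of_lt_of_le hi h)] at h1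
  · rw [if_neg hi, if_neg hi]

theorem ms_mono_21 {m L : ℕ} {β : Type} {q q' : Fin (m + 1) → ℕ} {φ : Pt m L → β}
    (h : ∀ a, q a ≤ q' a) (hφ : Ms q φ) : Ms q' φ :=
  fun ω ω' hc => hφ ω ω' fun a => pre_mono_21 (h a) (hc a)

theorem sb_ms_21 {m L : ℕ} (a : Fin (m + 1)) (t : ℕ) (q : Fin (m + 1) → ℕ) (h : t < q a) :
    Ms q (sb (L := L) a t) := by
  intro ω ω' hc
  have h1 : bit (ω' a) t = bit (ω a) t := by
    unfold bit
    by_cases ht : t < L
    · rw [dif_pos ht, dif_pos ht]
      have h2 := congrFun (hc a) ⟨t, ht⟩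
      unfold pre at h2
      rwa [if_pos (show ((⟨t, ht⟩ : Fin L) : ℕ) < q a from h),
        if_pos (show ((⟨t, ht⟩ : Fin L) : ℕ) < q a from h)] at h2
    · rw [dif_neg ht, dif_neg ht]
  unfold sb
  rw [h1]

theorem ps_ms_21 {m L : ℕ} (U : Finset (Fin (m + 1))) (t q : Fin (m + 1) → ℕ)
    (h : ∀ c ∈ U, t c < q c) : Ms q (ps (L := L) U t) := by
  intro ω ω' hc
  unfold ps
  exact Finset.prod_congr rfl fun c hc' => sb_ms_21 c (t c) q (h c hc') ω ω' hc

theorem ee_sum_21 {m L : ℕ} (hE : Eeb m L) (q : Fin (m + 1) → ℕ) (s : Finset ℕ)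
    (φ : ℕ → Pt m L → ℝ) (ω : Pt m L) :
    EE q (fun ω' => ∑ r ∈ s, φ r ω') ω = ∑ r ∈ s, EE q (φ r) ω := by
  induction s using Finset.induction_on with
  | empty =>
    simp only [Finset.sum_empty]
    exact hE.const q 0 ω
  | insert a s ha ih =>
    rw [Finset.sum_insert ha, ← ih, ← hE.add]
    congr 1
    funext ω'
    rw [Finset.sum_insert ha]

theorem ee_full_21 {m L : ℕ} (hE : Eeb m L) (a : Fin (m + 1)) (φ : Pt m L → ℝ) (ω : Pt m L) :
    EE (one L a L) φ ω = φ ω := by
  refine hE.idem _ _ ?_ ω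
  intro ω ω' hc
  have h1 : ω' = ω := by
    funext b i
    have h2 := congrFun (hc b) i
    unfold pre one at h2
    have h3 : (i : ℕ) < Function.update (fun _ : Fin (m + 1) => L) a L b := by
      by_cases hb : b = a
      · subst hb; rw [Function.update_self]; exact i.2
      · rw [Function.update_of_ne hb]; exact i.2
    rwa [if_pos h3, if_pos h3] at h2
  rw [h1]

/-- telescoping -/
theorem tele_21 {m L : ℕ} (hE : Eeb m L) (a : Fin (m + 1)) (t : ℕ) (ht : t ≤ L)
    (φ : Pt m L → ℝ) (ω : Pt m L) :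
    φ ω - EE (one L a t) φ ω =
      ∑ s ∈ Finset.Ico t L, sb a s ω * EE (one L a s) (fun ω' => sb a s ω' * φ ω') ω := by
  have h1 : ∀ s ∈ Finset.Ico t L, sb a s ω * EE (one L a s) (fun ω' => sb a s ω' * φ ω') ω =
      EE (one L a (s + 1)) φ ω - EE (one L a s) φ ω := by
    intro s hs
    rw [Finset.mem_Ico] at hs
    have h2 := hE.step (one L a s) a φ ω (by unfold one; rw [Function.update_self]; exact hs.2)
    have h3 : one L a s a = s := by unfold one; rw [Function.update_self]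
    have h4 : Function.update (one L a s) a (s + 1) = one L a (s + 1) := by
      unfold one; rw [Function.update_idem]
    rw [h3, h4] at h2
    exact h2.symm
  rw [Finset.sum_congr rfl h1, Finset.sum_Ico_sub (fun s => EE (one L a s) φ ω) ht,
    ee_full_21 hE]

theorem ps_insert_21 {m L : ℕ} (S : Finset (Fin (m + 1))) (a : Fin (m + 1)) (ha : a ∉ S)
    (t : Fin (m + 1) → ℕ) (s : ℕ) (ω : Pt m L) :
    ps (insert a S) (Function.update t a s) ω = sb a s ω * ps S t ω := by
  unfold ps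
  rw [Finset.prod_insert ha, Function.update_self]
  congr 1
  refine Finset.prod_congr rfl fun c hc => ?_
  rw [Function.update_of_ne]
  rintro rfl
  exact ha hc

theorem msk_min_21 {m L : ℕ} (S : Finset (Fin (m + 1))) (a : Fin (m + 1)) (ha : a ∉ S)
    (t : Fin (m + 1) → ℕ) (s : ℕ) (hs : s ≤ L) (ht : ∀ b ∈ S, t b ≤ L) :
    (fun b => min (msk L S t b) (one L a s b)) = msk L (insert a S) (Function.update t a s) := by
  funext b
  unfold msk one
  by_cases hb : b = a
  · subst hb
    rw [Function.update_self, if_neg ha, if_pos (Finset.mem_insert_self _ _),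
      Function.update_self]
    exact min_eq_right hs
  · rw [Function.update_of_ne hb, Function.update_of_ne hb]
    by_cases hbS : b ∈ S
    · rw [if_pos hbS, if_pos (Finset.mem_insert_of_mem hbS)]
      exact min_eq_left (ht b hbS)
    · rw [if_neg hbS, if_neg (by rw [Finset.mem_insert]; tauto)]
      exact min_self L

/-- one string more -/
theorem keyF_21 {m L : ℕ} (hE : Eeb m L) (S : Finset (Fin (m + 1))) (a : Fin (m + 1))
    (ha : a ∉ S) (t : Fin (m + 1) → ℕ) (ht : ∀ b ∈ S, t b < L) (u : ℕ) (hu : u ≤ L)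
    (φ : Pt m L → ℝ) (ω : Pt m L) :
    EE (msk L S t) (fun ω' => ps S t ω' * (φ ω' - EE (one L a u) φ ω')) ω =
      ∑ s ∈ Finset.Ico u L, sb a s ω *
        EE (msk L (insert a S) (Function.update t a s))
          (fun ω' => ps (insert a S) (Function.update t a s) ω' * φ ω') ω := by
  have h1 : (fun ω' => ps S t ω' * (φ ω' - EE (one L a u) φ ω')) =
      fun ω' => ∑ s ∈ Finset.Ico u L, sb a s ω' *
        EE (one L a s) (fun ω'' => ps (insert a S) (Function.update t a s) ω'' * φ ω'') ω' := by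
    funext ω'
    rw [tele_21 hE a u hu φ ω', Finset.mul_sum]
    refine Finset.sum_congr rfl fun s hs => ?_
    rw [Finset.mem_Ico] at hs
    have h2 : (fun ω'' => ps (insert a S) (Function.update t a s) ω'' * φ ω'') =
        fun ω'' => ps S t ω'' * (sb a s ω'' * φ ω'') := by
      funext ω''
      rw [ps_insert_21 S a ha t s ω'']
      ring
    rw [h2, hE.pull (one L a s) (ps S t) (fun ω'' => sb a s ω'' * φ ω'') (ps_ms_21 S t _ ?_) ω']
    · ring
    · intro c hc
      unfold one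
      rw [Function.update_of_ne (by rintro rfl; exact ha hc)]
      exact ht c hc
  rw [h1, ee_sum_21 hE]
  refine Finset.sum_congr rfl fun s hs => ?_
  rw [Finset.mem_Ico] at hs
  rw [hE.pull (msk L S t) (sb a s)
    (EE (one L a s) (fun ω'' => ps (insert a S) (Function.update t a s) ω'' * φ ω''))
    (sb_ms_21 a s _ ?_) ω, hE.comp, msk_min_21 S a ha t s hs.2.le fun b hb => (ht b hb).le]
  unfold msk
  rw [if_neg ha]
  exact hs.2

theorem msk_insert_21 {m L : ℕ} (T : Finset (Fin (m + 1))) (a : Fin (m + 1)) (ha : a ∉ T)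
    (q : Fin (m + 1) → ℕ) (hq : ∀ b, q b < L) :
    (fun b => min (msk L T q b) (one L a (q a) b)) = msk L (insert a T) q := by
  rw [msk_min_21 T a ha q (q a) (hq a).le fun b _ => (hq b).le, Function.update_eq_self]

theorem ee_sub_21 {m L : ℕ} (hE : Eeb m L) (q : Fin (m + 1) → ℕ) (φ ψ : Pt m L → ℝ)
    (ω : Pt m L) : EE q (fun ω' => φ ω' - ψ ω') ω = EE q φ ω - EE q ψ ω := by
  have h1 : (fun ω' => φ ω' - ψ ω') = fun ω' => φ ω' + (-1) * ψ ω' := by
    funext ω'; ring
  rw [h1, hE.add q φ (fun ω' => (-1) * ψ ω') ω, hE.smul]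
  ring

theorem key_21 {m L : ℕ} (hE : Eeb m L) (q : Fin (m + 1) → ℕ) (hq : ∀ a, q a < L)
    (S : Finset (Fin (m + 1))) : ∀ φ : Pt m L → ℝ,
    (∀ t : Fin (m + 1) → ℕ, (∀ b ∈ S, q b ≤ t b ∧ t b < L) → (∃ b ∈ S, t b ≠ q b) →
      ∀ ω, EE (msk L S t) (fun ω' => ps S t ω' * φ ω') ω = 0) →
    ∀ ω, ∑ T ∈ S.powerset, (-1) ^ T.card * EE (msk L T q) φ ω =
      ps S q ω * EE (msk L S q) (fun ω' => ps S q ω' * φ ω') ω := by
  induction S using Finset.induction_on with
  | empty =>
    intro φ _ ω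
    simp [ps]
  | insert a S ha ih =>
    intro φ hφ ω
    have hcomp : ∀ T ∈ S.powerset, (-1 : ℝ) ^ T.card * EE (msk L T q) φ ω +
        (-1) ^ (insert a T).card * EE (msk L (insert a T) q) φ ω =
        (-1) ^ T.card * EE (msk L T q) (fun ω' => φ ω' - EE (one L a (q a)) φ ω') ω := by
      intro T hT
      have haT : a ∉ T := fun h => ha (Finset.mem_powerset.1 hT h)
      rw [Finset.card_insert_of_notMem haT, ee_sub_21 hE, hE.comp (msk L T q) (one L a (q a)) φ ω,
        msk_insert_21 T a haT q hq]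
      ring
    rw [Finset.sum_powerset_insert ha, ← Finset.sum_add_distrib, Finset.sum_congr rfl hcomp]
    have hup : ∀ (t : Fin (m + 1) → ℕ) (s : ℕ), (∀ b ∈ S, q b ≤ t b ∧ t b < L) →
        s ∈ Finset.Ico (q a) L → (s ≠ q a ∨ ∃ b ∈ S, t b ≠ q b) → ∀ ω,
        EE (msk L (insert a S) (Function.update t a s))
          (fun ω' => ps (insert a S) (Function.update t a s) ω' * φ ω') ω = 0 := by
      intro t s ht hs hne
      rw [Finset.mem_Ico] at hs
      refine hφ (Function.update t a s) ?_ ?_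
      · intro b hb
        by_cases hba : b = a
        · subst hba
          rw [Function.update_self]
          exact hs
        · rw [Function.update_of_ne hba]
          exact ht b (Finset.mem_of_mem_insert_of_ne hb hba)
      · rcases hne with h | ⟨b, hb, h⟩
        · exact ⟨a, Finset.mem_insert_self _ _, by rwa [Function.update_self]⟩
        · refine ⟨b, Finset.mem_insert_of_mem hb, ?_⟩
          rw [Function.update_of_ne (by rintro rfl; exact ha hb)]
          exact h
    rw [ih (fun ω' => φ ω' - EE (one L a (q a)) φ ω') ?_ ω,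
      keyF_21 hE S a ha q (fun b _ => hq b) (q a) (hq a).le φ ω]
    · rw [Finset.sum_eq_single (q a)]
      · rw [Function.update_eq_self]
        have h1 := ps_insert_21 S a ha q (q a) ω
        rw [Function.update_eq_self] at h1
        rw [h1]
        ring
      · intro s hs hne
        rw [hup q s (fun b _ => ⟨le_rfl, hq b⟩) hs (Or.inl hne) ω, mul_zero]
      · intro h
        exact absurd (Finset.mem_Ico.2 ⟨le_rfl, hq a⟩) h
    · intro t ht hne ω'
      rw [keyF_21 hE S a ha t (fun b hb => (ht b hb).2) (q a) (hq a).le φ ω']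
      refine Finset.sum_eq_zero fun s hs => ?_
      rw [hup t s ht hs (Or.inr hne) ω', mul_zero]

theorem gamH_21 {m L : ℕ} (hE : Eeb m L) (H : Pt m L → ℝ) (i : ℕ) (hi : i < L)
    (t : Fin (m + 1) → ℕ) (ht : ∀ b ∈ Inn m, t b < L) (ω : Pt m L) :
    EE (msk L (Inn m) t) (fun ω' => ps (Inn m) t ω' * Gam H 0 i ω') ω =
      cf H (Function.update t 0 i) ω := by
  have h0 : (0 : Fin (m + 1)) ∉ Inn m := by unfold Inn; simp
  have hu : insert (0 : Fin (m + 1)) (Inn m) = Finset.univ := by unfold Inn; simp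
  have h1 : (fun ω' => ps (Inn m) t ω' * Gam H 0 i ω') =
      EE (one L 0 i) (fun ω' => ps Finset.univ (Function.update t 0 i) ω' * H ω') := by
    funext ω'
    have h2 : (fun ω'' => ps Finset.univ (Function.update t 0 i) ω'' * H ω'') =
        fun ω'' => ps (Inn m) t ω'' * (sb 0 i ω'' * H ω'') := by
      funext ω''
      rw [← hu, ps_insert_21 (Inn m) 0 h0 t i ω'']
      ring
    rw [h2, hE.pull (one L 0 i) (ps (Inn m) t) (fun ω'' => sb 0 i ω'' * H ω'')
      (ps_ms_21 _ t _ ?_) ω']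
    · rfl
    · intro c hc
      unfold one
      rw [Function.update_of_ne (by rintro rfl; exact h0 hc)]
      exact ht c hc
  rw [h1, hE.comp, msk_min_21 (Inn m) 0 h0 t i hi.le fun b hb => (ht b hb).le, hu]
  unfold cf msk
  simp only [Finset.mem_univ, if_true]

theorem ee_sb_21 {m L : ℕ} (hE : Eeb m L) (a : Fin (m + 1)) (t : ℕ) (ht : t < L) (ω : Pt m L) :
    EE (one L a t) (sb a t) ω = 0 := by
  have h3 : one L a t a = t := by unfold one; rw [Function.update_self]
  have h1 := hE.step (one L a t) a (fun _ => 1) ω (by rw [h3]; exact ht)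
  rw [hE.const, hE.const, sub_self, h3] at h1
  have h2 : (fun ω' : Pt m L => sb a t ω' * 1) = sb a t := by funext ω'; rw [mul_one]
  rw [h2] at h1
  rcases mul_eq_zero.1 h1.symm with h | h
  · exfalso
    unfold sb sgr at h
    split_ifs at h <;> norm_num at h
  · exact h

theorem di_zero_21 {m L : ℕ} (hE : Eeb m L) (q : Fin (m + 1) → ℕ) (hq : ∀ a, q a < L)
    (a : Fin (m + 1)) (ha : a ∈ Inn m) (φ : Pt m L → ℝ)
    (h : EE (one L a (q a)) φ = φ) (ω : Pt m L) : Di q φ ω = 0 := by
  unfold Di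
  rw [← Finset.insert_erase ha, Finset.sum_powerset_insert (Finset.notMem_erase a _),
    ← Finset.sum_add_distrib]
  refine Finset.sum_eq_zero fun T hT => ?_
  have haT : a ∉ T := fun h' => Finset.notMem_erase a _ (Finset.mem_powerset.1 hT h')
  have h1 := hE.comp (msk L T q) (one L a (q a)) φ ω
  rw [h, msk_insert_21 T a haT q hq] at h1
  rw [Finset.card_insert_of_notMem haT, ← h1]
  ring

theorem di_ind_21 {m L : ℕ} (hE : Eeb m L) (q r : Fin (m + 1) → ℕ) (hq : ∀ a, q a < L)
    (hr : ∀ a, r a < L) (hs : ∑ a, r a = ∑ a, q a) (g : Pt m L → ℝ) (hg : Ms r g) (ω : Pt m L) :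
    Di q (Gam g 0 (q 0)) ω = 0 := by
  by_cases h0 : r 0 ≤ q 0
  · have h1 : Gam g 0 (q 0) = fun _ => (0 : ℝ) := by
      funext ω'
      unfold Gam
      have h2 : (fun ω'' => sb 0 (q 0) ω'' * g ω'') = fun ω'' => g ω'' * sb 0 (q 0) ω'' := by
        funext ω''; ring
      rw [h2, hE.pull (one L 0 (q 0)) g (sb 0 (q 0)) (ms_mono_21 ?_ hg) ω',
        ee_sb_21 hE 0 (q 0) (hq 0) ω', mul_zero]
      intro b
      unfold one
      by_cases hb : b = 0
      · subst hb; rw [Function.update_self]; exact h0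
      · rw [Function.update_of_ne hb]; exact (hr b).le
    rw [h1]
    unfold Di
    refine Finset.sum_eq_zero fun T _ => ?_
    rw [hE.const, mul_zero]
  · have h1 : ∃ a, a ≠ 0 ∧ r a < q a := by
      by_contra hcon
      push Not at hcon
      have h2 : ∑ a, q a < ∑ a, r a := by
        refine Finset.sum_lt_sum (fun a _ => ?_) ⟨0, Finset.mem_univ _, not_le.1 h0⟩
        by_cases ha : a = 0
        · subst ha; exact (not_le.1 h0).le
        · exact hcon a ha
      omega
    obtain ⟨a, ha0, har⟩ := h1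
    refine di_zero_21 hE q hq a (by unfold Inn; simp [ha0]) _ ?_ ω
    have h2 : EE (one L a (q a)) (fun ω' => sb 0 (q 0) ω' * g ω') =
        fun ω' => sb 0 (q 0) ω' * g ω' := by
      funext ω'
      refine hE.idem _ _ ?_ ω'
      intro ω1 ω2 hc
      have h3 := sb_ms_21 (L := L) 0 (q 0) (one L a (q a))
        (by unfold one; rw [Function.update_of_ne (Ne.symm ha0)]; exact hq 0) ω1 ω2 hc
      have h4 : Ms (one L a (q a)) g := by
        refine ms_mono_21 (fun b => ?_) hg
        unfold one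
        by_cases hb : b = a
        · subst hb; rw [Function.update_self]; exact har.le
        · rw [Function.update_of_ne hb]; exact (hr b).le
      have h5 := h4 ω1 ω2 hc
      show sb 0 (q 0) ω2 * g ω2 = sb 0 (q 0) ω1 * g ω1
      rw [h3, h5]
    funext ω'
    show EE (one L a (q a)) (EE (one L 0 (q 0)) fun ω' => sb 0 (q 0) ω' * g ω') ω' =
      EE (one L 0 (q 0)) (fun ω' => sb 0 (q 0) ω' * g ω') ω'
    rw [hE.comp]
    have h3 : (fun b => min (one L a (q a) b) (one L 0 (q 0) b)) =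
        fun b => min (one L 0 (q 0) b) (one L a (q a) b) := by
      funext b; exact min_comm _ _
    rw [h3, ← hE.comp, h2]

theorem str_21 (hEB : StEeb) : StStr := by
  intro m L H w κ _ hNF q hqC ω
  have hE := hEB m L
  have hCr : ∀ r ∈ Cr m L, ∑ a, r a = L - 1 := fun r hr => by
    unfold Cr at hr
    exact Finset.Nat.mem_antidiagonalTuple.1 hr
  have hL : ∀ r ∈ Cr m L, ∀ a, r a < L := by
    intro r hr a
    have h1 := hCr r hr
    have h2 : r a ≤ ∑ b, r b := Finset.single_le_sum (fun b _ => Nat.zero_le _) (Finset.mem_univ a)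
    omega
  have hq := hL q hqC
  classical
  let g : (Fin (m + 1) → ℕ) → Pt m L → ℝ := fun r ω' => if w ≤ |cf H r ω'| then (1 : ℝ) else 0
  have hg : ∀ r, Ms r (g r) := by
    intro r ω1 ω2 hc
    have h1 : cf H r ω2 = cf H r ω1 := hE.ms r _ ω1 ω2 hc
    show (if w ≤ |cf H r ω2| then (1 : ℝ) else 0) = if w ≤ |cf H r ω1| then (1 : ℝ) else 0
    rw [h1]
  have hN : ∀ ω', Ngd H w ω' = ∑ r ∈ Cr m L, g r ω' := by
    intro ω'
    unfold Ngd
    exact Finset.sum_congr rfl fun r _ => by simp only [g]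
  have hG : Gam (fun ω' => H ω' + κ * Ngd H w ω') 0 (q 0) =
      fun ω' => Gam H 0 (q 0) ω' + κ * ∑ r ∈ Cr m L, Gam (g r) 0 (q 0) ω' := by
    funext ω'
    show EE (one L 0 (q 0)) (fun ω'' => sb 0 (q 0) ω'' * (H ω'' + κ * Ngd H w ω'')) ω' =
      EE (one L 0 (q 0)) (fun ω'' => sb 0 (q 0) ω'' * H ω'') ω' +
        κ * ∑ r ∈ Cr m L, EE (one L 0 (q 0)) (fun ω'' => sb 0 (q 0) ω'' * g r ω'') ω'
    rw [← hE.sum (one L 0 (q 0)) (Cr m L) (fun r ω'' => sb 0 (q 0) ω'' * g r ω'') ω',
      ← hE.smul, ← hE.add]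
    congr 1
    funext ω''
    rw [hN, ← Finset.mul_sum]
    ring
  have hD : Di q (Gam (fun ω' => H ω' + κ * Ngd H w ω') 0 (q 0)) ω =
      Di q (Gam H 0 (q 0)) ω + κ * ∑ r ∈ Cr m L, Di q (Gam (g r) 0 (q 0)) ω := by
    rw [hG]
    unfold Di
    have h1 : ∀ S ∈ (Inn m).powerset, (-1 : ℝ) ^ S.card * EE (msk L S q)
        (fun ω' => Gam H 0 (q 0) ω' + κ * ∑ r ∈ Cr m L, Gam (g r) 0 (q 0) ω') ω =
        (-1) ^ S.card * EE (msk L S q) (Gam H 0 (q 0)) ω +
          κ * ∑ r ∈ Cr m L, (-1) ^ S.card * EE (msk L S q) (Gam (g r) 0 (q 0)) ω := by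
      intro S _
      rw [hE.add (msk L S q) (Gam H 0 (q 0))
        (fun ω' => κ * ∑ r ∈ Cr m L, Gam (g r) 0 (q 0) ω') ω,
        hE.smul (msk L S q) κ (fun ω' => ∑ r ∈ Cr m L, Gam (g r) 0 (q 0) ω') ω,
        hE.sum (msk L S q) (Cr m L) (fun r => Gam (g r) 0 (q 0)) ω, ← Finset.mul_sum]
      ring
    rw [Finset.sum_congr rfl h1, Finset.sum_add_distrib, ← Finset.mul_sum, Finset.sum_comm]
  have hz : ∑ r ∈ Cr m L, Di q (Gam (g r) 0 (q 0)) ω = 0 := by
    refine Finset.sum_eq_zero fun r hr => ?_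
    exact di_ind_21 hE q r hq (hL r hr) (by rw [hCr r hr, hCr q hqC]) (g r) (hg r) ω
  rw [hD, hz, mul_zero, add_zero]
  unfold Di
  rw [key_21 hE q hq (Inn m) (Gam H 0 (q 0)) ?_ ω,
    gamH_21 hE H (q 0) (hq 0) q (fun b _ => hq b) ω, Function.update_eq_self]
  intro t ht hne ω'
  rw [gamH_21 hE H (q 0) (hq 0) t (fun b hb => (ht b hb).2) ω']
  have hge : ∀ a, q a ≤ Function.update t 0 (q 0) a := by
    intro a
    by_cases ha : a = 0
    · subst ha; rw [Function.update_self]
    · rw [Function.update_of_ne ha]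
      exact (ht a (by unfold Inn; simp [ha])).1
  refine hNF _ (fun a => ?_) ?_ ω'
  · by_cases ha : a = 0
    · subst ha; rw [Function.update_self]; exact hq 0
    · rw [Function.update_of_ne ha]
      exact (ht a (by unfold Inn; simp [ha])).2
  · obtain ⟨b, hb, hbne⟩ := hne
    have hb0 : b ≠ 0 := by
      rintro rfl
      unfold Inn at hb
      simp at hb
    have h1 : ∑ a, q a < ∑ a, Function.update t 0 (q 0) a := by
      refine Finset.sum_lt_sum (fun a _ => hge a) ⟨b, Finset.mem_univ _, ?_⟩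
      rw [Function.update_of_ne hb0]
      exact lt_of_le_of_ne (ht b hb).1 (Ne.symm hbne)
    have h2 := hCr q hqC
    omega

end Pool.Agent.SBD
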