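import Pool.Agent.Lib.MP_a7b2aa_an.SBT.StmtsT30

/-!
SBD (chair: helper30): the trigonometric small ball inequality for ALL coefficients in every
dimension `d = m + 1 ≥ 3` with the factor `n ^ ((d - 1) / 2 - δ)`, `δ < 1 / (2 d + 4)`.
Definitions and statements (as `Prop`s) of the modules. Blueprint: SBD_30.md.
-/

set_option autoImplicit false

namespace Pool.Agent.SBD

open Finset Pool.Agent.SB3 Pool.Agent.SBT

/-! ### part 0: definitions -/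

/-- points: `m + 1` sign vectors of length `L` (strings); string `0` is the outer one -/
abbrev Pt (m L : ℕ) : Type := Fin (m + 1) → Y L

/-- same class: the first `q a` coordinates of string `a` agree, for every `a` -/
def cl {m L : ℕ} (q : Fin (m + 1) → ℕ) (ω' ω : Pt m L) : Prop :=
  ∀ a, pre (q a) (ω' a) = pre (q a) (ω a)

instance {m L : ℕ} (q : Fin (m + 1) → ℕ) (ω' ω : Pt m L) : Decidable (cl q ω' ω) :=
  inferInstanceAs (Decidable (∀ a, pre (q a) (ω' a) = pre (q a) (ω a)))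

/-- `φ` is a function of the class -/
def Ms {m L : ℕ} {β : Type} (q : Fin (m + 1) → ℕ) (φ : Pt m L → β) : Prop :=
  ∀ ω ω', cl q ω' ω → φ ω' = φ ω

/-- uniform mean -/
noncomputable def Av {m L : ℕ} (φ : Pt m L → ℝ) : ℝ := (∑ ω, φ ω) / 2 ^ ((m + 1) * L)

/-- average over the class of `ω` -/
noncomputable def EE {m L : ℕ} (q : Fin (m + 1) → ℕ) (φ : Pt m L → ℝ) (ω : Pt m L) : ℝ :=
  (∑ ω' : Pt m L, if cl q ω' ω then φ ω' else 0) / 2 ^ (∑ a, (L - q a))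

/-- only string `a` is restricted, to its first `t` coordinates -/
def one {m : ℕ} (L : ℕ) (a : Fin (m + 1)) (t : ℕ) : Fin (m + 1) → ℕ :=
  Function.update (fun _ => L) a t

/-- the strings `a ∈ S` are restricted to the first `q a` coordinates -/
def msk {m : ℕ} (L : ℕ) (S : Finset (Fin (m + 1))) (q : Fin (m + 1) → ℕ) : Fin (m + 1) → ℕ :=
  fun a => if a ∈ S then q a else L

/-- the sign number `t` of string `a` -/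
def sb {m L : ℕ} (a : Fin (m + 1)) (t : ℕ) (ω : Pt m L) : ℝ := sgr (bit (ω a) t)

/-- the inner strings -/
def Inn (m : ℕ) : Finset (Fin (m + 1)) := Finset.univ.erase 0

/-- the cells which agree with `q` outside `U` -/
def fr {m : ℕ} (L : ℕ) (U : Finset (Fin (m + 1))) (q : Fin (m + 1) → ℕ) :
    Finset (Fin (m + 1) → ℕ) :=
  Fintype.piFinset (fun a => if a ∈ U then range L else {q a})

/-- the critical cells: `∑ q a = L - 1` -/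
def Cr (m L : ℕ) : Finset (Fin (m + 1) → ℕ) := Finset.Nat.antidiagonalTuple (m + 1) (L - 1)

/-- law with density `ρ ≤ exp k` -/
structure Law {m L : ℕ} (k : ℝ) (ρ : Pt m L → ℝ) : Prop where
  nonneg : ∀ ω, 0 ≤ ρ ω
  mean : Av ρ = 1
  le : ∀ ω, ρ ω ≤ Real.exp k

/-- expectation under `ρ` -/
noncomputable def Ex {m L : ℕ} (ρ φ : Pt m L → ℝ) : ℝ := Av (fun ω => ρ ω * φ ω)

open Classical in
/-- probability under `ρ` -/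
noncomputable def Pr {m L : ℕ} (ρ : Pt m L → ℝ) (P : Pt m L → Prop) : ℝ :=
  Ex ρ (fun ω => if P ω then 1 else 0)

/-- conditional mean of the sign `t` of string `a`, given its earlier signs and all other
strings -/
noncomputable def al {m L : ℕ} (ρ : Pt m L → ℝ) (a : Fin (m + 1)) (t : ℕ) (ω : Pt m L) : ℝ :=
  EE (one L a t) (fun ω' => ρ ω' * sb a t ω') ω / EE (one L a t) ρ ω

/-- `∑ α ^ 2` -/
noncomputable def A2 {m L : ℕ} (ρ : Pt m L → ℝ) (a : Fin (m + 1)) (ω : Pt m L) : ℝ :=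
  ∑ t ∈ range L, al ρ a t ω ^ 2

/-- product of signs -/
noncomputable def ps {m L : ℕ} (U : Finset (Fin (m + 1))) (q : Fin (m + 1) → ℕ) (ω : Pt m L) : ℝ :=
  ∏ c ∈ U, sb c (q c) ω

/-- flat arrays on the critical cells -/
structure Arr {m L : ℕ} (v : (Fin (m + 1) → ℕ) → Pt m L → ℝ) : Prop where
  abs : ∀ q ω, |v q ω| ≤ 1
  lev : ∀ q ω, (∑ a, q a) + 1 ≠ L → v q ω = 0
  dep : ∀ q a, a ≠ 0 → Ms (one L a (q a)) (v q)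

/-- the dual vector -/
noncomputable def XX {m L : ℕ} (v : (Fin (m + 1) → ℕ) → Pt m L → ℝ) (i : ℕ) (ω : Pt m L) : ℝ :=
  ∑ q ∈ fr L (Inn m) (fun _ => i), ps (Inn m) q ω * v q ω

/-- the reference term: the strings in `A` are averaged -/
noncomputable def RA {m L : ℕ} (A : Finset (Fin (m + 1))) (v : (Fin (m + 1) → ℕ) → Pt m L → ℝ)
    (G : ℕ → Pt m L → ℝ) (ω : Pt m L) : ℝ :=
  ∑ q ∈ fr L Finset.univ (fun _ => 0), ps (Inn m) q ω * v q ω * EE (msk L A q) (G (q 0)) ω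

/-- `A` has operator norm at most `sqrt b` -/
def NB {κ κ' : Type} [Fintype κ] [Fintype κ'] (A : Matrix κ κ' ℝ) (b : ℝ) : Prop :=
  ∀ u : κ' → ℝ, ∑ x, (∑ y, A x y * u y) ^ 2 ≤ b * ∑ y, u y ^ 2

/-- martingale difference coefficient of `H` in string `a` -/
noncomputable def Gam {m L : ℕ} (H : Pt m L → ℝ) (a : Fin (m + 1)) (i : ℕ) (ω : Pt m L) : ℝ :=
  EE (one L a i) (fun ω' => sb a i ω' * H ω') ω

/-- the coefficient of the cell `q` -/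
noncomputable def cf {m L : ℕ} (H : Pt m L → ℝ) (q : Fin (m + 1) → ℕ) (ω : Pt m L) : ℝ :=
  EE q (fun ω' => ps Finset.univ q ω' * H ω') ω

/-- `∏ (1 - E^a_{q a})` over the inner strings -/
noncomputable def Di {m L : ℕ} (q : Fin (m + 1) → ℕ) (φ : Pt m L → ℝ) (ω : Pt m L) : ℝ :=
  ∑ S ∈ (Inn m).powerset, (-1) ^ S.card * EE (msk L S q) φ ω

/-- no terms finer than the critical ones -/
def NF {m L : ℕ} (H : Pt m L → ℝ) : Prop :=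
  ∀ q : Fin (m + 1) → ℕ, (∀ a, q a < L) → L ≤ ∑ a, q a → ∀ ω, cf H q ω = 0

open Classical in
/-- the number of critical cells with `|cf| ≥ w` -/
noncomputable def Ngd {m L : ℕ} (H : Pt m L → ℝ) (w : ℝ) (ω : Pt m L) : ℝ :=
  ∑ q ∈ Cr m L, (if w ≤ |cf H q ω| then (1 : ℝ) else 0)

/-- the mixed half difference at the cell `q` -/
noncomputable def dd {m L : ℕ} (H : Pt m L → ℝ) (q : Fin (m + 1) → ℕ) (ω : Pt m L) : ℝ :=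
  (∑ e : Fin (m + 1) → Bool, (∏ a, sgr (e a)) * H (fun a => upb (ω a) (q a) (e a))) / 2 ^ (m + 1)

/-! ### part I: modules -/

/-- EEB: basic facts on `EE` -/
structure Eeb (m L : ℕ) : Prop where
  ms : ∀ (q : Fin (m + 1) → ℕ) (φ : Pt m L → ℝ), Ms q (EE q φ)
  idem : ∀ (q : Fin (m + 1) → ℕ) (φ : Pt m L → ℝ), Ms q φ → ∀ ω, EE q φ ω = φ ω
  pull : ∀ (q : Fin (m + 1) → ℕ) (φ ψ : Pt m L → ℝ), Ms q φ →
    ∀ ω, EE q (fun ω' => φ ω' * ψ ω') ω = φ ω * EE q ψ ω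
  comp : ∀ (q q' : Fin (m + 1) → ℕ) (φ : Pt m L → ℝ) (ω : Pt m L),
    EE q (EE q' φ) ω = EE (fun a => min (q a) (q' a)) φ ω
  adj : ∀ (q : Fin (m + 1) → ℕ) (φ ψ : Pt m L → ℝ),
    Av (fun ω => ψ ω * EE q φ ω) = Av (fun ω => EE q ψ ω * φ ω)
  mean : ∀ (q : Fin (m + 1) → ℕ) (φ : Pt m L → ℝ), Av (EE q φ) = Av φ
  mono : ∀ (q : Fin (m + 1) → ℕ) (φ ψ : Pt m L → ℝ), (∀ ω, φ ω ≤ ψ ω) → ∀ ω, EE q φ ω ≤ EE q ψ ω
  const : ∀ (q : Fin (m + 1) → ℕ) (c : ℝ) (ω : Pt m L), EE q (fun _ => c) ω = c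
  sq : ∀ (q : Fin (m + 1) → ℕ) (φ : Pt m L → ℝ) (ω : Pt m L),
    EE q φ ω ^ 2 ≤ EE q (fun ω' => φ ω' ^ 2) ω
  abs : ∀ (q : Fin (m + 1) → ℕ) (φ : Pt m L → ℝ) (ω : Pt m L),
    |EE q φ ω| ≤ EE q (fun ω' => |φ ω'|) ω
  add : ∀ (q : Fin (m + 1) → ℕ) (φ ψ : Pt m L → ℝ) (ω : Pt m L),
    EE q (fun ω' => φ ω' + ψ ω') ω = EE q φ ω + EE q ψ ω
  smul : ∀ (q : Fin (m + 1) → ℕ) (c : ℝ) (φ : Pt m L → ℝ) (ω : Pt m L),
    EE q (fun ω' => c * φ ω') ω = c * EE q φ ω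
  sum : ∀ (q : Fin (m + 1) → ℕ) (s : Finset (Fin (m + 1) → ℕ))
    (φ : (Fin (m + 1) → ℕ) → Pt m L → ℝ) (ω : Pt m L),
    EE q (fun ω' => ∑ r ∈ s, φ r ω') ω = ∑ r ∈ s, EE q (φ r) ω
  step : ∀ (q : Fin (m + 1) → ℕ) (a : Fin (m + 1)) (φ : Pt m L → ℝ) (ω : Pt m L), q a < L →
    EE (Function.update q a (q a + 1)) φ ω - EE q φ ω =
      sb a (q a) ω * EE q (fun ω' => sb a (q a) ω' * φ ω') ω

/-- EEB -/
def StEeb : Prop := ∀ m L : ℕ, Eeb m L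

/-- ALF: facts on the biases -/
structure Alf {m L : ℕ} (ρ : Pt m L → ℝ) : Prop where
  ms : ∀ a t, Ms (one L a t) (al ρ a t)
  abs : ∀ a t ω, |al ρ a t ω| ≤ 1
  ex : ∀ a t (X : Pt m L → ℝ), Ms (one L a t) X →
    Ex ρ (fun ω => sb a t ω * X ω) = Ex ρ (fun ω => al ρ a t ω * X ω)
  orth : ∀ a (X : ℕ → Pt m L → ℝ), (∀ t, Ms (one L a t) (X t)) →
    Ex ρ (fun ω => (∑ t ∈ range L, (sb a t ω - al ρ a t ω) * X t ω) ^ 2) ≤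
      ∑ t ∈ range L, Ex ρ (fun ω => X t ω ^ 2)

/-- ALF -/
def StAlf : Prop := ∀ (m L : ℕ) (k : ℝ) (ρ : Pt m L → ℝ), Law k ρ → Alf ρ

/-- ENT: exponential moment of `∑ α ^ 2` -/
def StEnt : Prop := ∀ (m L : ℕ) (k : ℝ) (ρ : Pt m L → ℝ) (a : Fin (m + 1)), Law k ρ →
  Ex ρ (fun ω => Real.exp (A2 ρ a ω / 8)) ≤ Real.exp (k / 2)

/-- TAIL: tails and moments of `∑ α ^ 2` -/
def StTail : Prop := ∀ (m L : ℕ) (k : ℝ) (ρ : Pt m L → ℝ), Law k ρ →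
  (∀ a, Ex ρ (A2 ρ a) ≤ 4 * k) ∧
  (∀ a (n : ℕ), Pr ρ (fun ω => 4 * k + 8 * n * Real.log (L + 1) < A2 ρ a ω) ≤ 1 / (L + 1) ^ n)

/-- S2: the energy of a bounded function under every law of bounded density -/
def StS2 : Prop := ∀ (m L : ℕ) (k M : ℝ) (ρ H : Pt m L → ℝ) (a : Fin (m + 1)), Law k ρ →
  (∀ ω, |H ω| ≤ M) →
  Ex ρ (fun ω => ∑ i ∈ range L, Gam H a i ω ^ 2) ≤ (2 + 16 * k) * M ^ 2

/-- DD: the maximal function is at most a multiple of a law of bounded density -/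
def StDD : Prop := ∀ (m L : ℕ) (k : ℝ) (ρ : Pt m L → ℝ) (a : Fin (m + 1)), 0 ≤ k → Law k ρ →
  ∃ ρ' : Pt m L → ℝ, Law k ρ' ∧ ∀ t ω, EE (one L a t) ρ ω ≤ (4 + 3 * k) * ρ' ω

/-- OP: operator norms of multilinear sign sums of predictable matrices of norm at most `1` -/
def StOp : Prop := ∀ (v n : ℕ) (ε : ℝ), 0 < ε → ∃ C : ℝ, 1 ≤ C ∧
  ∀ (m L : ℕ) (U : Finset (Fin (m + 1))) (κ : Type) [Fintype κ] [DecidableEq κ]
    (W : (Fin (m + 1) → ℕ) → Pt m L → Matrix κ κ ℝ) (k : ℝ) (ρ : Pt m L → ℝ)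
    (q : Fin (m + 1) → ℕ), 1 ≤ L → 0 ≤ k → Law k ρ → U.card = v → Fintype.card κ ≤ 2 * L →
    (∀ r ω, (W r ω).IsSymm) → (∀ r ω, NB (W r ω) 1) →
    (∀ r, ∀ c ∈ U, Ms (one L c (r c)) (W r)) →
    Pr ρ (fun ω => ¬ NB (∑ r ∈ fr L U q, ps U r ω • W r ω) ((C * L * ((L : ℝ) ^ ε + k)) ^ v)) ≤
      C / (L + 1) ^ n

/-- OPA: the matrices of flat arrays -/
def StOpA : Prop := ∀ (m n : ℕ) (ε : ℝ), 0 < ε → ∃ C : ℝ, 1 ≤ C ∧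
  ∀ (L : ℕ) (U : Finset (Fin (m + 1))) (t : Fin (m + 1)) (v : (Fin (m + 1) → ℕ) → Pt m L → ℝ)
    (k : ℝ) (ρ : Pt m L → ℝ) (q : Fin (m + 1) → ℕ), 1 ≤ L → 0 ≤ k → Law k ρ → Arr v →
    0 ∉ U → t ∉ U → t ≠ 0 →
    Pr ρ (fun ω => ¬ NB (Matrix.of (fun (x y : Fin L) =>
      ∑ r ∈ fr L U (Function.update (Function.update q t x) 0 y), ps U r ω * v r ω))
        ((C * L * ((L : ℝ) ^ ε + k)) ^ U.card)) ≤ C / (L + 1) ^ n

/-- OPS: scalar sums of flat arrays -/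
def StOpS : Prop := ∀ (m n : ℕ) (ε : ℝ), 0 < ε → ∃ C : ℝ, 1 ≤ C ∧
  ∀ (L : ℕ) (U : Finset (Fin (m + 1))) (v : (Fin (m + 1) → ℕ) → Pt m L → ℝ)
    (k : ℝ) (ρ : Pt m L → ℝ) (q : Fin (m + 1) → ℕ), 1 ≤ L → 0 ≤ k → Law k ρ → Arr v →
    0 ∉ U → U.Nonempty →
    Pr ρ (fun ω => (C * L * ((L : ℝ) ^ ε + k)) ^ (U.card - 1) <
      (∑ r ∈ fr L U q, ps U r ω * v r ω) ^ 2) ≤ C / (L + 1) ^ n

/-- PEEL: one string -/
def StPeel : Prop := ∀ (m L n : ℕ) (k B : ℝ) (ρ : Pt m L → ℝ) (c : Fin (m + 1))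
  (X : ℕ → Pt m L → ℝ), 0 ≤ k → Law k ρ → (∀ t, Ms (one L c t) (X t)) →
  (∀ t ω, |X t ω| ≤ B) →
  Ex ρ (fun ω => (∑ t ∈ range L, sb c t ω * X t ω) ^ 2) ≤
    2 * (1 + (4 * k + 8 * n * Real.log (L + 1))) * ∑ t ∈ range L, Ex ρ (fun ω => X t ω ^ 2) +
      2 * L ^ 2 * B ^ 2 / (L + 1) ^ n

/-- the energy of the vector `G` is at most `En` under every law of bounded density -/
structure Gvec {m L : ℕ} (k En B : ℝ) (G : ℕ → Pt m L → ℝ) : Prop where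
  en : ∀ ρ : Pt m L → ℝ, Law k ρ → Ex ρ (fun ω => ∑ i ∈ range L, G i ω ^ 2) ≤ En
  abs : ∀ i ω, |G i ω| ≤ B

/-- RAB: the reference terms are small -/
def StRab : Prop := ∀ (m n : ℕ) (ε : ℝ), 1 ≤ m → 0 < ε → ∃ C : ℝ, 1 ≤ C ∧
  ∀ (L : ℕ) (A : Finset (Fin (m + 1)))
    (v : (Fin (m + 1) → ℕ) → Pt m L → ℝ) (k En B : ℝ) (ρ : Pt m L → ℝ) (G : ℕ → Pt m L → ℝ),
    1 ≤ L → 0 ≤ k → 0 ≤ En → Law k ρ → Arr v → Gvec k En B G → A ⊆ Inn m → A.Nonempty →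
    Ex ρ (fun ω => RA A v G ω ^ 2) ≤
      C * (L ^ (m - 1) * ((L : ℝ) ^ ε + k) ^ (m + 1) * En + B ^ 2 / (L + 1) ^ n)

/-- BESS: Bessel's inequality for the dual vector -/
def StBess : Prop := ∀ (m : ℕ) (ε : ℝ), 1 ≤ m → 0 < ε → ∃ C : ℝ, 1 ≤ C ∧
  ∀ (L : ℕ) (v : (Fin (m + 1) → ℕ) → Pt m L → ℝ) (k : ℝ) (ρ : Pt m L → ℝ),
    1 ≤ L → 0 ≤ k → Law k ρ → Arr v →
    Ex ρ (fun ω => ∑ i ∈ range L, XX v i ω ^ 2) ≤
      C * (∑ q ∈ Cr m L, Ex ρ (fun ω => v q ω ^ 2) +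
        L ^ (m - 1) * ((L : ℝ) ^ ε + k) ^ m)

/-- SUPX: the dual vector is bounded with high probability -/
def StSupx : Prop := ∀ (m n : ℕ) (ε : ℝ), 1 ≤ m → 0 < ε → ∃ C : ℝ, 1 ≤ C ∧
  ∀ (L : ℕ) (v : (Fin (m + 1) → ℕ) → Pt m L → ℝ) (k : ℝ) (ρ : Pt m L → ℝ),
    1 ≤ L → 0 ≤ k → Law k ρ → Arr v →
    Pr ρ (fun ω => ∃ i < L, (C * L * ((L : ℝ) ^ ε + k)) ^ (m - 1) < XX v i ω ^ 2) ≤
      C / (L + 1) ^ n

/-- TILT: the tilted law in string `0` -/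
def StTilt : Prop := ∀ (m L : ℕ) (H : Pt m L → ℝ) (M lam : ℝ), (∀ ω, |H ω| ≤ M) → 0 < lam →
  ∃ Q : Pt m L → ℝ, Law (2 * lam * M) Q ∧ 0 ≤ Ex Q H - Av H ∧
    (∀ ω, Q ω ≤ Real.exp (lam * (H ω - EE (one L 0 0) H ω))) ∧
    Ex Q (fun ω => ∑ i ∈ range L,
      (1 / lam) * min ((lam * Gam H 0 i ω) ^ 2) |lam * Gam H 0 i ω|) ≤ 2 * (Ex Q H - Av H)

/-- STR: the structure of the slices of `H + κ Ngd` -/
def StStr : Prop := ∀ (m L : ℕ) (H : Pt m L → ℝ) (w κ : ℝ), 1 ≤ L → NF H →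
  ∀ q ∈ Cr m L, ∀ ω, Di q (Gam (fun ω' => H ω' + κ * Ngd H w ω') 0 (q 0)) ω =
    ps (Inn m) q ω * cf H q ω

/-- PID: the pointwise identity `<Γ, X> = ∑ v cf + ∑ ± RA` -/
def StPid : Prop := ∀ (m L : ℕ) (c v : (Fin (m + 1) → ℕ) → Pt m L → ℝ) (G : ℕ → Pt m L → ℝ),
  1 ≤ L → Arr v →
  (∀ q ∈ Cr m L, ∀ ω, Di q (G (q 0)) ω = ps (Inn m) q ω * c q ω) → ∀ ω,
  ∑ q ∈ Cr m L, v q ω * c q ω = ∑ i ∈ range L, XX v i ω * G i ω +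
    ∑ A ∈ (Inn m).powerset.erase ∅, (-1) ^ A.card * RA A v G ω

/-- PARS: Bessel for the coefficients -/
def StPars : Prop := ∀ (m L : ℕ) (H : Pt m L → ℝ),
  ∑ q ∈ fr L Finset.univ (fun _ => 0), Av (fun ω => cf H q ω ^ 2) ≤ Av (fun ω => H ω ^ 2)

/-- ABS: the level inequality -/
def StAbs : Prop := ∀ (m : ℕ) (δ : ℝ), 1 ≤ m → 0 < δ → δ * (2 * m + 6) < 1 → ∃ C : ℝ, 0 < C ∧
  ∀ (L : ℕ) (H : Pt m L → ℝ) (M w : ℝ), 1 ≤ L → 0 < w → (∀ ω, |H ω| ≤ M) → NF H →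
    w * Av (Ngd H w) ≤ C * (L : ℝ) ^ ((m : ℝ) / 2 - δ) * M

/-- LEV: summation over the levels -/
def StLev : Prop := ∀ (m : ℕ) (δ : ℝ), 1 ≤ m → 0 < δ → δ * (2 * m + 6) < 1 → ∃ C : ℝ, 0 < C ∧
  ∀ (L : ℕ) (H : Pt m L → ℝ) (M : ℝ), 1 ≤ L → (∀ ω, |H ω| ≤ M) → NF H →
    ∑ q ∈ Cr m L, Av (fun ω => |cf H q ω|) ≤ C * (L : ℝ) ^ ((m : ℝ) / 2 - δ) * M

/-- CFOD: orthogonality of the components -/
def StCfoD : Prop := ∀ (m L : ℕ) (H : Pt m L → ℝ) (q r : Fin (m + 1) → ℕ) (ω : Pt m L),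
  (∀ a, q a < L) → (∀ a, r a < L) →
  cf (fun ω' => ps Finset.univ r ω' * cf H r ω') q ω = if r = q then cf H q ω else 0

/-- CFBD: `|cf|` is at most the maximum of `|dd|`, and `dd - cf` is controlled by finer `dd` -/
def StCfbD : Prop := ∀ (m L : ℕ) (H : Pt m L → ℝ) (q : Fin (m + 1) → ℕ) (η : ℝ),
  (∀ a, q a < L) → 0 ≤ η →
  ((∀ ω, |dd H q ω| ≤ η) → ∀ ω, |cf H q ω| ≤ η) ∧
  ((∀ r : Fin (m + 1) → ℕ, (∀ a, q a ≤ r a) → (∀ a, r a < L) → r ≠ q → ∀ ω, |dd H r ω| ≤ η) →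
    ∀ ω, |dd H q ω - cf H q ω| ≤ (m + 1) * L * η)

/-- MAIND: small finer terms are subtracted -/
def StMainD : Prop := ∀ (m : ℕ) (δ : ℝ), 1 ≤ m → 0 < δ → δ * (2 * m + 6) < 1 → ∃ C : ℝ, 0 < C ∧
  ∀ (L : ℕ) (H : Pt m L → ℝ) (M η : ℝ), 1 ≤ L → 0 ≤ η → (∀ ω, |H ω| ≤ M) →
    (∀ q : Fin (m + 1) → ℕ, (∀ a, q a < L) → L ≤ ∑ a, q a → ∀ ω, |dd H q ω| ≤ η) →
    ∑ q ∈ Cr m L, Av (fun ω => |dd H q ω|) ≤
      C * (L : ℝ) ^ ((m : ℝ) / 2 - δ) * M + C * (L : ℝ) ^ (3 * (m + 1)) * η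

/-! ### part II: the discrete torus -/

/-- mixed difference at the positions `X` -/
noncomputable def Dd {d : ℕ} (a : ℕ) (X : Fin d → ℕ) (φ : Tor (Fin d) (2 ^ a) → ℝ)
    (u : Tor (Fin d) (2 ^ a)) : ℝ :=
  (∑ e : Fin d → Bool, (∏ j, sgr (e j)) *
    φ (fun j => u j + (if e j then Hs a (X j) else - Hs a (X j)))) / 2 ^ d

/-- the block `ϱ(2 l)` -/
noncomputable def blkD {d : ℕ} (l : Fin d → ℕ) : Finset (Fin d → ℤ) :=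
  Fintype.piFinset (fun j : Fin d =>
    (Finset.Ioo (-(2 : ℤ) ^ (2 * l j)) ((2 : ℤ) ^ (2 * l j))).filter
      (fun t : ℤ => (2 : ℤ) ^ (2 * l j) / 2 ≤ |t|))

/-- the real part of the sum of all block polynomials -/
noncomputable def FmD (d M0 : ℕ) (c : (Fin d → ℤ) → ℂ) (u : Tor (Fin d) (2 ^ (2 * M0 + 3))) : ℝ :=
  ∑ l ∈ Finset.Nat.antidiagonalTuple d M0, PT (blkD l) c u

/-- LOWD: the main term from below -/
def StLowD : Prop := ∀ d : ℕ, ∃ C : ℝ, 0 < C ∧ ∀ (M0 : ℕ) (l : Fin d → ℕ) (c : (Fin d → ℤ) → ℂ),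
    l ∈ Finset.Nat.antidiagonalTuple d M0 → (∀ j, 1 ≤ l j) →
    S1 (PT (N := 2 ^ (2 * M0 + 3)) (blkD l) c) ≤
      C * S1 (Dd (2 * M0 + 3) (fun j => 2 * l j) (FmD d M0 c))

/-- SUPBD: blocks are bounded by the whole sum -/
def StSupbD : Prop := ∀ (d M0 : ℕ) (l : Fin d → ℕ) (c : (Fin d → ℤ) → ℂ) (M : ℝ),
    l ∈ Finset.Nat.antidiagonalTuple d M0 → (∀ u, |FmD d M0 c u| ≤ M) →
    ∀ u, |PT (N := 2 ^ (2 * M0 + 3)) (blkD l) c u| ≤ 6 ^ d * M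

/-- SMALLD: finer differences are small (`excess ≥ e`) -/
def StSmallD : Prop := ∀ (d M0 : ℕ) (c : (Fin d → ℤ) → ℂ) (M : ℝ) (X : Fin d → ℕ) (e : ℕ),
    (∀ u, |FmD d M0 c u| ≤ M) → (∀ j, X j ≤ 2 * M0) → 2 * M0 + e ≤ ∑ j, X j →
    ∀ u, |Dd (2 * M0 + 3) X (FmD d M0 c) u| ≤
      (M0 + 1) ^ d * (32 ^ d * 6 ^ d) * (1 / 2 : ℝ) ^ e * M

/-- the shift of the free signs and the function of the sign vectors with base point `u` -/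
def HuD {m L : ℕ} (a b : ℕ) (X : Fin (m + 1) → ℕ) (F : Tor (Fin (m + 1)) (2 ^ a) → ℝ)
    (u : Tor (Fin (m + 1)) (2 ^ a)) (ω : Pt m L) : ℝ :=
  F (fun j => u j + shf a b (X j) (ω j))

/-- TRAD: average over the base point, and pointwise form -/
def StTraD : Prop := ∀ (m a b L : ℕ) (X : Fin (m + 1) → ℕ) (F : Tor (Fin (m + 1)) (2 ^ a) → ℝ)
    (q : Fin (m + 1) → ℕ), (∀ j, q j < L) →
    (∑ u, Av (fun ω : Pt m L => |dd (HuD a b X F u) q ω|) =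
      S1 (Dd a (fun j => X j + b * q j) F)) ∧
    (∀ u (ω : Pt m L), ∃ u', dd (HuD a b X F u) q ω = Dd a (fun j => X j + b * q j) F u')

/-- PARD: orthogonality of the blocks, for the boundary blocks -/
def StParD : Prop := ∀ (d M0 : ℕ) (c : (Fin d → ℤ) → ℂ),
    ∑ l ∈ Finset.Nat.antidiagonalTuple d M0, ∑ u, (PT (N := 2 ^ (2 * M0 + 3)) (blkD l) c u) ^ 2 =
      ∑ u, FmD d M0 c u ^ 2

/-- DISCD: the theorem on the discrete torus, `d = m + 1`, `m ≥ 2` -/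
def StDiscD : Prop := ∀ (m : ℕ) (δ : ℝ), 2 ≤ m → 0 < δ → δ * (2 * m + 6) < 1 → ∃ C : ℝ, 0 < C ∧
    ∀ (M0 : ℕ) (c : (Fin (m + 1) → ℤ) → ℂ) (M : ℝ), 1 ≤ M0 →
    (∀ u, |FmD (m + 1) M0 c u| ≤ M) →
    ∑ l ∈ Finset.Nat.antidiagonalTuple (m + 1) M0, S1 (PT (N := 2 ^ (2 * M0 + 3)) (blkD l) c) ≤
      C * ((2 * M0 : ℕ) : ℝ) ^ ((m : ℝ) / 2 - δ) * M * (2 ^ (2 * M0 + 3)) ^ (m + 1)

/-! ### part III: the torus -/

/-- The block polynomial `P_s`, `s = 2 l`, with coefficients `c`. -/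
noncomputable def bpD {d : ℕ} (c : (Fin d → ℤ) → ℂ) (l : Fin d → ℕ) (x : Fin d → ℝ) : ℂ :=
  ∑ k ∈ blkD l, c k * Complex.exp (Complex.I * ∑ j : Fin d, ((((k j : ℝ) * x j : ℝ)) : ℂ))

/-- The `L ^ 1` norm with respect to the normalised Lebesgue measure on `[0, 2 π] ^ d`. -/
noncomputable def nrmD {d : ℕ} (F : (Fin d → ℝ) → ℂ) : ℝ :=
  (1 / (2 * Real.pi)) ^ d *
    ∫ x in Set.pi Set.univ (fun _ : Fin d => Set.Icc (0 : ℝ) (2 * Real.pi)), ‖F x‖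

/-- AVGD: the integral is at most the mean over some translate of the grid -/
def StAvgD : Prop := ∀ (d N : ℕ) (φ : (Fin d → ℝ) → ℝ), 1 ≤ N → Continuous φ →
    (∀ (x : Fin d → ℝ) (j : Fin d), φ (Function.update x j (x j + 2 * Real.pi)) = φ x) →
    ∃ v : Fin d → ℝ, (1 / (2 * Real.pi)) ^ d *
      (∫ x in Set.pi Set.univ (fun _ : Fin d => Set.Icc (0 : ℝ) (2 * Real.pi)), φ x) * (N : ℝ) ^ d ≤
      ∑ g : Fin d → Fin N, φ (fun j => v j + 2 * Real.pi * (g j : ℕ) / N)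

/-- FINALD: the theorem -/
def StFinalD : Prop := ∀ (m : ℕ) (δ : ℝ), 2 ≤ m → 0 < δ → δ * (2 * m + 6) < 1 → ∃ C : ℝ, 0 < C ∧
    ∀ (M0 : ℕ) (c : (Fin (m + 1) → ℤ) → ℂ), 1 ≤ M0 →
    C * ∑ l ∈ Finset.Nat.antidiagonalTuple (m + 1) M0, nrmD (bpD c l) ≤
      ((2 * M0 : ℕ) : ℝ) ^ ((m : ℝ) / 2 - δ) *
        ⨆ x : Fin (m + 1) → ℝ, ‖∑ l ∈ Finset.Nat.antidiagonalTuple (m + 1) M0, bpD c l x‖

end Pool.Agent.SBD
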