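import Pool.Agent.Lib.MP_a7b2aa_an.SBD.Base30

/-!
SBD, module TAIL (helper3): mean and tails of the sum of the squares of the biases.
-/

set_option autoImplicit false

namespace Pool.Agent.SBD

open Finset Pool.Agent.SB3 Pool.Agent.SBT

theorem tail_3 (hEnt : StEnt) : StTail := by
  intro m L k ρ hρ
  refine ⟨fun a => ?_, fun a n => ?_⟩
  · -- Jensen
    have h1 := hEnt m L k ρ a hρ
    set X : Pt m L → ℝ := fun ω => A2 ρ a ω / 8 with hX
    set c : ℝ := Ex ρ X with hc
    have h2 : Real.exp c ≤ Ex ρ (fun ω => Real.exp (X ω)) := by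
      have h3 : Ex ρ (fun ω => Real.exp c * (1 - c) + Real.exp c * X ω) = Real.exp c := by
        rw [Ex_add (fun _ => Real.exp c * (1 - c)) (fun ω => Real.exp c * X ω),
          Ex_const hρ, Ex_smul (Real.exp c) X, ← hc]
        ring
      rw [← h3]
      refine Ex_mono hρ fun ω => ?_
      have h4 := Real.add_one_le_exp (X ω - c)
      have h5 : Real.exp (X ω) = Real.exp c * Real.exp (X ω - c) := by
        rw [← Real.exp_add]
        congr 1
        ring
      rw [h5]
      have h6 := mul_le_mul_of_nonneg_left h4 (Real.exp_pos c).le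
      linarith
    have h7 : c ≤ k / 2 := Real.exp_le_exp.1 (h2.trans h1)
    have h8 : Ex ρ (A2 ρ a) = 8 * c := by
      rw [hc, ← Ex_smul]
      congr 1
      funext ω
      rw [hX]
      ring
    rw [h8]
    linarith
  · -- Markov
    have hL : (0 : ℝ) < (L : ℝ) + 1 := by positivity
    have h1 := hEnt m L k ρ a hρ
    have h2 : Pr ρ (fun ω => 4 * k + 8 * n * Real.log (L + 1) < A2 ρ a ω) ≤
        Pr ρ (fun ω => Real.exp (k / 2) * (L + 1) ^ n < Real.exp (A2 ρ a ω / 8)) := by
      refine Pr_mono hρ fun ω hω => ?_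
      have h3 : Real.exp (k / 2) * ((L : ℝ) + 1) ^ n =
          Real.exp ((4 * k + 8 * n * Real.log (L + 1)) / 8) := by
        have h4 : (4 * k + 8 * n * Real.log ((L : ℝ) + 1)) / 8 =
            k / 2 + n * Real.log (L + 1) := by ring
        rw [h4, Real.exp_add, Real.exp_nat_mul, Real.exp_log hL]
      rw [h3]
      exact Real.exp_lt_exp.2 (by linarith)
    refine h2.trans ?_
    refine (Pr_markov hρ (fun ω => Real.exp (A2 ρ a ω / 8)) (fun ω => (Real.exp_pos _).le)
      (b := Real.exp (k / 2) * (L + 1) ^ n) (by positivity)).trans ?_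
    rw [div_le_div_iff₀ (by positivity) (by positivity)]
    have h5 := mul_le_mul_of_nonneg_right h1 (by positivity : (0 : ℝ) ≤ ((L : ℝ) + 1) ^ n)
    linarith

end Pool.Agent.SBD
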